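import Pool.Agent.H493.DC.Multi

set_option autoImplicit false

/-! Decorrelation at several separated points. -/

open Complex Filter Topology Set MeasureTheory

namespace Pool.Agent.H493.DC

open Pool.Agent.H203.ME Pool.Agent.H203.ME.VARL Pool.Agent.H493.MX

/-- **decorrelation at several points** -/
theorem prod_dec {V ε : ℝ} (hV : 0 < V) (hε : 0 < ε) (ι : Type) [Fintype ι] [DecidableEq ι] [Nonempty ι] :
    ∃ η T₀ : ℝ, 0 < η ∧ η ≤ 1 / 2 ∧ 10 ≤ T₀ ∧ ∀ T : ℝ, T₀ ≤ T → ∀ F : ℝ → ℝ, Adm η V (Real.log T) F →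
      (∀ x, 1 / 2 ≤ |x| → F x = 0) → ∀ κ : ℝ, 0 ≤ κ → ∀ x : ι → ℝ, (∀ j, |x j| ≤ η) →
      (∀ i j, i ≠ j → |cc F (x i - x j)| ≤ κ) → ∀ σ : ι → ℝ, (∀ j, |σ j| = 1) →
      ∀ A B : ℝ, T ≤ A → A ≤ B → B ≤ 2 * T →
      ‖∫ t in A..B, ∏ j, (cexp (I * ((σ j * XF F T (t + x j) : ℝ) : ℂ)) - cexp (-(sg F : ℂ) / 2))‖ ≤
        2 ^ Fintype.card ι * (ε + (Fintype.card ι : ℝ) ^ 2 * κ) * T := by
  set n : ℝ := (Fintype.card ι : ℝ) with hn
  have hn1 : 1 ≤ n := by
    rw [hn]
    exact_mod_cast Fintype.card_pos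
  obtain ⟨η₁, T₁, hη₁0, hη₁1, hT₁, hmain⟩ := tmain (V := n ^ 2 * V) (ε := ε) (δ := 1) (by positivity) hε one_pos
  set η : ℝ := min (1 / 2) (η₁ / (n ^ 2 * (1 + 2 * V))) with hη
  have hη0 : 0 < η := by positivity
  have hη2 : η ≤ 1 / 2 := min_le_left _ _
  have hη3 : n ^ 2 * (η + 2 * η * V) ≤ η₁ := by
    have : η ≤ η₁ / (n ^ 2 * (1 + 2 * V)) := min_le_right _ _
    rw [le_div_iff₀ (by positivity)] at this
    linarith
  refine ⟨η, T₁, hη0, hη2, hT₁, fun T hT F hA h2 κ hκ x hx hcc σ hσ A B hTA hAB hB => ?_⟩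
  have hT10 : 10 ≤ T := hT₁.trans hT
  have hT0 : 0 < T := by linarith
  have hL : 0 ≤ Real.log T := Real.log_nonneg (by linarith)
  have hF := hA.c2
  have hx2 : ∀ j, |x j| ≤ 1 / 2 := fun j => (hx j).trans hη2
  set m : ℂ := cexp (-(sg F : ℂ) / 2) with hm
  have hsg : 0 ≤ sg F := FINL.sg_nonneg F
  have hmr : m = ((Real.exp (-sg F / 2) : ℝ) : ℂ) := by
    rw [hm]; push_cast; ring_nf
  have hm1 : ‖m‖ ≤ 1 := by
    rw [hmr, Complex.norm_real, Real.norm_of_nonneg (Real.exp_nonneg _)]
    exact Real.exp_le_one_iff.2 (by linarith)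
  -- the coefficients of a subset
  set cS : Finset ι → ι → ℝ := fun S j => if j ∈ S then σ j else 0 with hcS
  have hcS1 : ∀ S j, |cS S j| ≤ 1 := by
    intro S j
    rw [hcS]
    simp only
    split_ifs
    · rw [hσ]
    · simp
  have hadm : ∀ S, Adm η₁ (n ^ 2 * V) (Real.log T) (msh F (cS S) x) := by
    intro S
    have h3 := adm_msh hL hA h2 (hcS1 S) hx hη0.le hη2
    exact adm_mono h3 hL hη3 le_rfl
  set Y : Finset ι → ℝ → ℝ := fun S t => XF (msh F (cS S) x) T t with hY
  have hXY : ∀ S, ∀ t, T ≤ t → t ≤ 2 * T → Y S t = ∑ j ∈ S, σ j * XF F T (t + x j) := by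
    intro S t h1 h3
    rw [hY]
    simp only
    rw [XF_msh hF h2 (cS S) hx2 (by linarith) h1 h3]
    rw [← Finset.sum_subset (Finset.subset_univ S)]
    · exact Finset.sum_congr rfl fun j hj => by rw [hcS]; simp only [hj, if_true]
    · intro j _ hj
      rw [hcS]; simp only [hj, if_false, zero_mul]
  have hYc : ∀ S, ContinuousOn (Y S) (Icc T (2 * T)) := fun S => XF_contOn (hadm S).c2 (by linarith)
  have hsub : uIcc A B ⊆ Icc T (2 * T) := by
    rw [uIcc_of_le hAB]
    exact Icc_subset_Icc hTA hB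
  have hYi : ∀ S, IntervalIntegrable (fun t => cexp (I * (Y S t : ℂ))) volume A B := by
    intro S
    apply ContinuousOn.intervalIntegrable
    exact (continuousOn_const.mul (Complex.continuous_ofReal.comp_continuousOn ((hYc S).mono hsub))).cexp
  -- expansion of the product
  have e1 : ∀ t, T ≤ t → t ≤ 2 * T →
      ∏ j, (cexp (I * ((σ j * XF F T (t + x j) : ℝ) : ℂ)) - m) =
      ∑ S ∈ (Finset.univ : Finset ι).powerset, (-m) ^ (Fintype.card ι - S.card) * cexp (I * (Y S t : ℂ)) := by
    intro t h1 h3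
    have : ∏ j, (cexp (I * ((σ j * XF F T (t + x j) : ℝ) : ℂ)) - m) =
        ∏ j, (cexp (I * ((σ j * XF F T (t + x j) : ℝ) : ℂ)) + (-m)) :=
      Finset.prod_congr rfl fun j _ => sub_eq_add_neg _ _
    rw [this, Finset.prod_add]
    refine Finset.sum_congr rfl fun S hS => ?_
    rw [Finset.prod_const, Finset.card_sdiff_of_subset (Finset.mem_powerset.1 hS), Finset.card_univ,
      ← Complex.exp_sum, hXY S t h1 h3]
    rw [mul_comm]
    congr 2
    push_cast
    rw [Finset.mul_sum]
  have e2 : (∫ t in A..B, ∏ j, (cexp (I * ((σ j * XF F T (t + x j) : ℝ) : ℂ)) - m)) =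
      ∑ S ∈ (Finset.univ : Finset ι).powerset, (-m) ^ (Fintype.card ι - S.card) *
        ∫ t in A..B, cexp (I * (Y S t : ℂ)) := by
    have : (∫ t in A..B, ∏ j, (cexp (I * ((σ j * XF F T (t + x j) : ℝ) : ℂ)) - m)) =
        ∫ t in A..B, ∑ S ∈ (Finset.univ : Finset ι).powerset, (-m) ^ (Fintype.card ι - S.card) *
          cexp (I * (Y S t : ℂ)) := by
      refine intervalIntegral.integral_congr fun t ht => ?_
      exact e1 t (hsub ht).1 (hsub ht).2
    rw [this, intervalIntegral.integral_finsetSum fun S _ => (hYi S).const_mul _]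
    exact Finset.sum_congr rfl fun S _ => intervalIntegral.integral_const_mul _ _
  have e3 : ∑ S ∈ (Finset.univ : Finset ι).powerset, (-m) ^ (Fintype.card ι - S.card) *
      (((B - A : ℝ) : ℂ) * m ^ S.card) = 0 := by
    have h3 := Finset.sum_pow_mul_eq_add_pow m (-m) (Finset.univ : Finset ι)
    rw [add_neg_cancel, zero_pow (by rw [Finset.card_univ]; exact Fintype.card_ne_zero), Finset.card_univ] at h3
    calc _ = ((B - A : ℝ) : ℂ) * ∑ S ∈ (Finset.univ : Finset ι).powerset,
          m ^ S.card * (-m) ^ (Fintype.card ι - S.card) := by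
            rw [Finset.mul_sum]
            exact Finset.sum_congr rfl fun S _ => by ring
      _ = 0 := by rw [h3, mul_zero]
  have b1 : ∀ S : Finset ι, ‖(∫ t in A..B, cexp (I * (Y S t : ℂ))) - ((B - A : ℝ) : ℂ) * m ^ S.card‖ ≤
      (ε + n ^ 2 * κ) * T := by
    intro S
    have h3 := hmain T hT _ (hadm S) (fun _ => 0) (Ph_zero T 1 (by linarith)) A B hTA hAB hB
    simp only [Complex.ofReal_zero, zero_mul, Complex.exp_zero, one_mul] at h3
    set s0 : ℂ := cexp (-(sg (msh F (cS S) x) : ℂ) / 2) with hs0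
    have h4 : (∫ t in A..B, (cexp (I * (XF (msh F (cS S) x) T t : ℂ)) - s0)) =
        (∫ t in A..B, cexp (I * (Y S t : ℂ))) - ((B - A : ℝ) : ℂ) * s0 := by
      rw [intervalIntegral.integral_sub (hYi S) intervalIntegrable_const, intervalIntegral.integral_const]
      rfl
    rw [h4] at h3
    have h5 : ‖s0 - m ^ S.card‖ ≤ n ^ 2 * κ := by
      have h6 : m ^ S.card = ((Real.exp (-(S.card * sg F) / 2) : ℝ) : ℂ) := by
        rw [hmr, ← Complex.ofReal_pow, ← Real.exp_nat_mul]
        congr 2
        ring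
      have h7 : s0 = ((Real.exp (-sg (msh F (cS S) x) / 2) : ℝ) : ℂ) := by
        rw [hs0]; push_cast; ring_nf
      rw [h6, h7, ← Complex.ofReal_sub, Complex.norm_real, Real.norm_eq_abs]
      have h8 := exp_sub_le (x := -sg (msh F (cS S) x) / 2) (y := -(S.card * sg F) / 2)
        (by linarith [FINL.sg_nonneg (msh F (cS S) x)]) (by
          have : 0 ≤ (S.card : ℝ) * sg F := by positivity
          linarith)
      refine h8.trans ?_
      have h9 : sg (msh F (cS S) x) - S.card * sg F =
          ∑ i, ∑ j, if i = j then 0 else cS S i * cS S j * cc F (x i - x j) := by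
        rw [sg_msh hF h2 (cS S) hx2]
        have h10 : (S.card : ℝ) * sg F = ∑ i, ∑ j, if i = j then cS S i * cS S j * cc F (x i - x j) else 0 := by
          simp only [Finset.sum_ite_eq, Finset.mem_univ, if_true, sub_self, cc_zero]
          rw [← Finset.sum_mul]
          congr 1
          have h11 : ∀ i, cS S i * cS S i = if i ∈ S then 1 else 0 := by
            intro i
            rw [hcS]
            simp only
            split_ifs
            · rw [← sq, ← sq_abs, hσ, one_pow]
            · simp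
          simp only [h11, Finset.sum_ite_mem, Finset.univ_inter, Finset.sum_const, nsmul_eq_mul, mul_one]
        rw [h10, ← Finset.sum_sub_distrib]
        refine Finset.sum_congr rfl fun i _ => ?_
        rw [← Finset.sum_sub_distrib]
        refine Finset.sum_congr rfl fun j _ => ?_
        by_cases hij : i = j
        · simp [hij]
        · simp [hij]
      have h12 : |sg (msh F (cS S) x) - S.card * sg F| ≤ n ^ 2 * κ := by
        rw [h9]
        refine (Finset.abs_sum_le_sum_abs _ _).trans ?_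
        have h13 : ∀ i ∈ (Finset.univ : Finset ι),
            |∑ j, if i = j then 0 else cS S i * cS S j * cc F (x i - x j)| ≤ n * κ := by
          intro i _
          refine (Finset.abs_sum_le_sum_abs _ _).trans ?_
          have h14 : ∀ j ∈ (Finset.univ : Finset ι),
              |if i = j then 0 else cS S i * cS S j * cc F (x i - x j)| ≤ κ := by
            intro j _
            split_ifs with hij
            · simpa using hκ
            · rw [abs_mul, abs_mul]
              calc |cS S i| * |cS S j| * |cc F (x i - x j)| ≤ 1 * 1 * κ := by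
                    have a1 := hcS1 S i
                    have a2 := hcS1 S j
                    have a3 := hcc i j hij
                    gcongr
                _ = κ := by ring
          refine (Finset.sum_le_sum h14).trans (le_of_eq ?_)
          rw [Finset.sum_const, nsmul_eq_mul]
          rfl
        refine (Finset.sum_le_sum h13).trans (le_of_eq ?_)
        rw [Finset.sum_const, nsmul_eq_mul, Finset.card_univ, ← hn]
        ring
      have h15 : -sg (msh F (cS S) x) / 2 - -(S.card * sg F) / 2 = -(sg (msh F (cS S) x) - S.card * sg F) / 2 := by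
        ring
      rw [h15, abs_div, abs_neg, abs_two]
      linarith [abs_nonneg (sg (msh F (cS S) x) - S.card * sg F)]
    have h16 : (∫ t in A..B, cexp (I * (Y S t : ℂ))) - ((B - A : ℝ) : ℂ) * m ^ S.card =
        ((∫ t in A..B, cexp (I * (Y S t : ℂ))) - ((B - A : ℝ) : ℂ) * s0) + ((B - A : ℝ) : ℂ) * (s0 - m ^ S.card) := by
      ring
    rw [h16]
    refine (norm_add_le _ _).trans ?_
    rw [norm_mul, Complex.norm_real, Real.norm_of_nonneg (by linarith : (0 : ℝ) ≤ B - A)]
    have h17 : (B - A) * ‖s0 - m ^ S.card‖ ≤ T * (n ^ 2 * κ) :=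
      mul_le_mul (by linarith) h5 (norm_nonneg _) hT0.le
    linarith
  have e4 : (∫ t in A..B, ∏ j, (cexp (I * ((σ j * XF F T (t + x j) : ℝ) : ℂ)) - m)) =
      ∑ S ∈ (Finset.univ : Finset ι).powerset, (-m) ^ (Fintype.card ι - S.card) *
        ((∫ t in A..B, cexp (I * (Y S t : ℂ))) - ((B - A : ℝ) : ℂ) * m ^ S.card) := by
    simp only [mul_sub, Finset.sum_sub_distrib]
    rw [e3, sub_zero, e2]
  rw [e4]
  refine (norm_sum_le _ _).trans ?_
  have b2 : ∀ S ∈ (Finset.univ : Finset ι).powerset, ‖(-m) ^ (Fintype.card ι - S.card) *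
      ((∫ t in A..B, cexp (I * (Y S t : ℂ))) - ((B - A : ℝ) : ℂ) * m ^ S.card)‖ ≤ (ε + n ^ 2 * κ) * T := by
    intro S _
    rw [norm_mul, norm_pow, norm_neg]
    calc _ ≤ 1 * ((ε + n ^ 2 * κ) * T) :=
          mul_le_mul (pow_le_one₀ (norm_nonneg _) hm1) (b1 S) (norm_nonneg _) zero_le_one
      _ = _ := one_mul _
  refine (Finset.sum_le_sum b2).trans (le_of_eq ?_)
  rw [Finset.sum_const, nsmul_eq_mul, Finset.card_powerset, Finset.card_univ]
  push_cast
  ring

end Pool.Agent.H493.DC
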