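import Pool.Agent.H493.DC.Phw

set_option autoImplicit false

/-! The extension of phases, second moments, and the final uniform statements. -/

open Complex Filter Topology Set MeasureTheory ProbabilityTheory
open scoped BoundedContinuousFunction RealInnerProductSpace

namespace Pool.Agent.H493.DC

open Pool.Agent.H203.ME hiding cR
open Pool.Agent.H203.ME.CLTL Pool.Agent.H203.ME.FINL Pool.Agent.H493.MX

/-- extension of a function with the bound for its derivative of order `m` -/
theorem ext_phase (m : ℕ) : ∀ {θ : ℝ → ℝ}, ContDiff ℝ m θ → ∀ {a b K : ℝ}, a ≤ b →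
    (∀ t ∈ Icc a b, |iteratedDeriv m θ t| ≤ K) →
    ∃ θ' : ℝ → ℝ, ContDiff ℝ m θ' ∧ (∀ t ∈ Icc a b, θ' t = θ t) ∧ ∀ t, |iteratedDeriv m θ' t| ≤ K := by
  induction m with
  | zero =>
    intro θ hθ a b K hab hK
    refine ⟨fun t => θ (max a (min b t)), ?_, fun t ht => ?_, fun t => ?_⟩
    · have hc : Continuous θ := hθ.continuous
      exact contDiff_zero.2 (by fun_prop)
    · simp only
      rw [min_eq_right ht.2, max_eq_right ht.1]
    · rw [iteratedDeriv_zero]
      have h1 : max a (min b t) ∈ Icc a b := ⟨le_max_left _ _, max_le hab (min_le_left _ _)⟩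
      have := hK _ h1
      rwa [iteratedDeriv_zero] at this
  | succ m ih =>
    intro θ hθ a b K hab hK
    have hθ1 : ContDiff ℝ ((m : WithTop ℕ∞) + 1) θ := by exact_mod_cast hθ
    have hd : ContDiff ℝ m (deriv θ) := (contDiff_succ_iff_deriv.1 hθ1).2.2
    have hdiff : Differentiable ℝ θ := (contDiff_succ_iff_deriv.1 hθ1).1
    obtain ⟨g, hg1, hg2, hg3⟩ := ih hd hab (fun t ht => by
      have := hK t ht
      rwa [iteratedDeriv_succ'] at this)
    have hgc : Continuous g := hg1.continuous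
    have hder : ∀ t, HasDerivAt (fun t => θ a + ∫ s in a..t, g s) (g t) t := by
      intro t
      exact (intervalIntegral.integral_hasDerivAt_right (hgc.intervalIntegrable _ _)
        hgc.aestronglyMeasurable.stronglyMeasurableAtFilter hgc.continuousAt).const_add _
    have hde : deriv (fun t => θ a + ∫ s in a..t, g s) = g := funext fun t => (hder t).deriv
    refine ⟨fun t => θ a + ∫ s in a..t, g s, ?_, fun t ht => ?_, fun t => ?_⟩
    · have : ContDiff ℝ ((m : WithTop ℕ∞) + 1) (fun t => θ a + ∫ s in a..t, g s) := by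
        rw [contDiff_succ_iff_deriv]
        refine ⟨fun t => (hder t).differentiableAt, ?_, ?_⟩
        · intro h
          simp at h
        · rw [hde]
          exact hg1
      exact_mod_cast this
    · have e1 : (∫ s in a..t, g s) = ∫ s in a..t, deriv θ s := by
        refine intervalIntegral.integral_congr fun s hs => ?_
        rw [uIcc_of_le ht.1] at hs
        exact hg2 s ⟨hs.1, hs.2.trans ht.2⟩
      simp only
      rw [e1, intervalIntegral.integral_deriv_eq_sub (fun s _ => hdiff s) (hd.continuous.intervalIntegrable _ _)]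
      ring
    · rw [iteratedDeriv_succ', hde]
      exact hg3 t

variable {k : ℕ} {f : Fin k → ℝ → ℝ} {h : Fin k → ℝ → ℝ}

/-- **second moments relative to a class of weights** -/
theorem sec_gen {𝒲 : ℝ → Set (ℝ → ℝ)} (hWp : ∀ T, ∀ W ∈ 𝒲 T, Measurable W ∧ ∀ t, 0 ≤ W t ∧ W t ≤ 1)
    (hf : ∀ j, ContDiff ℝ 2 (f j)) (hs : ∀ j, HasCompactSupport (f j)) (hh : Scales h)
    (hfw : ∀ (ψ : EuclideanSpace ℝ (Fin k) →ᵇ ℝ) (ε : ℝ), 0 < ε → ∀ᶠ T : ℝ in atTop, ∀ W ∈ 𝒲 T,
      |∫ t in T..(2 * T), W t * (ψ (Xv f (fun j => h j T) T t) -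
        ∫ x, ψ x ∂(multivariateGaussian 0 (cM f h)))| ≤ ε * T) (i j : Fin k) {ε : ℝ} (hε : 0 < ε) :
    ∀ᶠ T : ℝ in atTop, ∀ W ∈ 𝒲 T,
      |∫ t in T..(2 * T), W t * ((Xv f (fun j => h j T) T t) i * (Xv f (fun j => h j T) T t) j -
        cM f h i j)| ≤ ε * T := by
  have hS := cM_psd t_COV hf hs hh
  set S := cM f h with hSdef
  have hSjj : ∀ j, 0 ≤ S j j := by
    intro j
    rw [← gauss_cov hS j j]
    exact integral_nonneg fun x => mul_self_nonneg _
  set M : ℝ := S i i + S j j + 2 with hM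
  have hM0 : 0 < M := by
    have := hSjj i
    have := hSjj j
    linarith
  set lam : ℝ := 8 * M / ε with hlam
  have hlam0 : 0 < lam := by positivity
  set e : ℝ := min 1 (ε / (24 * (lam + 1))) with he
  have he0 : 0 < e := by positivity
  -- the truncation
  have hev : ∀ᶠ R : ℕ in atTop,
      |(∫ x : EuclideanSpace ℝ (Fin k), cR R (x i) * cR R (x i) ∂(multivariateGaussian 0 S)) - S i i| < e ∧
      |(∫ x : EuclideanSpace ℝ (Fin k), cR R (x j) * cR R (x j) ∂(multivariateGaussian 0 S)) - S j j| < e ∧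
      |(∫ x : EuclideanSpace ℝ (Fin k), cR R (x i) * cR R (x j) ∂(multivariateGaussian 0 S)) - S i j| < e := by
    have a1 := Metric.tendsto_nhds.1 (gauss_trunc hS i i) e he0
    have a2 := Metric.tendsto_nhds.1 (gauss_trunc hS j j) e he0
    have a3 := Metric.tendsto_nhds.1 (gauss_trunc hS i j) e he0
    filter_upwards [a1, a2, a3] with R b1 b2 b3
    rw [Real.dist_eq] at b1 b2 b3
    exact ⟨b1, b2, b3⟩
  obtain ⟨R, hR1, hR2, hR3⟩ := hev.exists
  have hcont := Xv_cont hf hs hh
  -- uniform integrability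
  have ui : ∀ l : Fin k, |(∫ x : EuclideanSpace ℝ (Fin k), cR R (x l) * cR R (x l)
      ∂(multivariateGaussian 0 S)) - S l l| < e → ∀ᶠ T : ℝ in atTop,
      (∫ t in T..(2 * T), ((Xv f (fun j => h j T) T t) l ^ 2 - cR R ((Xv f (fun j => h j T) T t) l) ^ 2)) ≤
        3 * e * T ∧ (∫ t in T..(2 * T), (Xv f (fun j => h j T) T t) l ^ 2) ≤ (S l l + e) * T := by
    intro l hl
    have a1 := Metric.tendsto_nhds.1 (sec_one hf hs hh l) e he0
    have a2 := Metric.tendsto_nhds.1 (finA p_MAIN t_ADM t_COV hf hs hh (tr R l l)) e he0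
    filter_upwards [a1, a2, hcont, eventually_ge_atTop (1 : ℝ)] with T b1 b2 b3 b4
    have hT0 : 0 < T := by linarith
    rw [Real.dist_eq, abs_lt] at b1 b2
    rw [abs_lt] at hl
    have hci : ContinuousOn (fun t => (Xv f (fun j => h j T) T t) l) (Icc T (2 * T)) :=
      (EuclideanSpace.proj (𝕜 := ℝ) l).continuous.comp_continuousOn b3
    have i1 : IntervalIntegrable (fun t => (Xv f (fun j => h j T) T t) l ^ 2) volume T (2 * T) := by
      apply ContinuousOn.intervalIntegrable
      rw [uIcc_of_le (by linarith)]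
      exact hci.pow 2
    have i2 : IntervalIntegrable (fun t => cR R ((Xv f (fun j => h j T) T t) l) ^ 2) volume T (2 * T) := by
      apply ContinuousOn.intervalIntegrable
      rw [uIcc_of_le (by linarith)]
      exact ((cR_cont R).comp_continuousOn hci).pow 2
    rw [intervalIntegral.integral_sub i1 i2]
    have e1 : (∫ t in T..(2 * T), cR R ((Xv f (fun j => h j T) T t) l) ^ 2) =
        ∫ t in T..(2 * T), tr R l l (Xv f (fun j => h j T) T t) := by
      refine intervalIntegral.integral_congr fun t _ => ?_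
      simp only [tr_apply, pow_two]
    have e2 : ∫ x, tr R l l x ∂(multivariateGaussian 0 (cM f h)) =
        ∫ x : EuclideanSpace ℝ (Fin k), cR R (x l) * cR R (x l) ∂(multivariateGaussian 0 S) := rfl
    rw [e2] at b2
    rw [e1]
    set u := ∫ t in T..(2 * T), (Xv f (fun j => h j T) T t) l ^ 2 with hu
    set v := ∫ t in T..(2 * T), tr R l l (Xv f (fun j => h j T) T t) with hv
    have c1 : u < (S l l + e) * T := by
      have : 1 / T * u < S l l + e := by linarith [b1.2]
      rw [one_div, inv_mul_lt_iff₀ hT0] at this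
      linarith
    have c2 : (S l l - 2 * e) * T < v := by
      have : S l l - 2 * e < 1 / T * v := by linarith [b2.1, hl.1]
      rw [one_div, lt_inv_mul_iff₀ hT0] at this
      linarith
    constructor
    · nlinarith
    · exact c1.le
  filter_upwards [hfw (tr R i j) (ε / 4) (by positivity),
    ui i hR1, ui j hR2, hcont, eventually_ge_atTop (1 : ℝ)] with T hT hui huj hc hT1
  intro W hW
  obtain ⟨hWm, hW01⟩ := hWp T W hW
  have hT0 : 0 < T := by linarith
  have key := hT W hW
  set Xi : ℝ → ℝ := fun t => (Xv f (fun j => h j T) T t) i with hXi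
  set Xj : ℝ → ℝ := fun t => (Xv f (fun j => h j T) T t) j with hXj
  have hci : ContinuousOn Xi (Icc T (2 * T)) :=
    (EuclideanSpace.proj (𝕜 := ℝ) i).continuous.comp_continuousOn hc
  have hcj : ContinuousOn Xj (Icc T (2 * T)) :=
    (EuclideanSpace.proj (𝕜 := ℝ) j).continuous.comp_continuousOn hc
  set m : ℝ := ∫ x : EuclideanSpace ℝ (Fin k), cR R (x i) * cR R (x j) ∂(multivariateGaussian 0 S) with hm'
  have key' : |∫ t in T..(2 * T), W t * (cR R (Xi t) * cR R (Xj t) - m)| ≤ ε / 4 * T := key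
  have hii : ∀ {g : ℝ → ℝ}, ContinuousOn g (Icc T (2 * T)) →
      IntervalIntegrable (fun t => W t * g t) volume T (2 * T) := by
    intro g hg
    rw [intervalIntegrable_iff_integrableOn_Ioc_of_le (by linarith)]
    have hg' : IntegrableOn g (Ioc T (2 * T)) :=
      (hg.integrableOn_compact isCompact_Icc).mono_set Ioc_subset_Icc_self
    refine hg'.bdd_mul (c := 1) hWm.aestronglyMeasurable ?_
    filter_upwards with t
    rw [Real.norm_of_nonneg (hW01 t).1]
    exact (hW01 t).2
  have hcR := cR_cont (R : ℝ)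
  have e1 : (∫ t in T..(2 * T), W t * (Xi t * Xj t - S i j)) =
      (∫ t in T..(2 * T), W t * (cR R (Xi t) * cR R (Xj t) - m)) +
      (∫ t in T..(2 * T), W t * (Xi t * Xj t - cR R (Xi t) * cR R (Xj t))) +
      ∫ t in T..(2 * T), W t * (m - S i j) := by
    rw [← intervalIntegral.integral_add, ← intervalIntegral.integral_add]
    · refine intervalIntegral.integral_congr fun t _ => ?_
      ring
    · exact (hii (((hcR.comp_continuousOn hci).mul (hcR.comp_continuousOn hcj)).sub
        continuousOn_const)).add (hii ((hci.mul hcj).sub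
        ((hcR.comp_continuousOn hci).mul (hcR.comp_continuousOn hcj))))
    · exact hii continuousOn_const
    · exact hii (((hcR.comp_continuousOn hci).mul (hcR.comp_continuousOn hcj)).sub continuousOn_const)
    · exact hii ((hci.mul hcj).sub ((hcR.comp_continuousOn hci).mul (hcR.comp_continuousOn hcj)))
  have b2 : |∫ t in T..(2 * T), W t * (Xi t * Xj t - cR R (Xi t) * cR R (Xj t))| ≤ ε / 4 * T := by
    have k1 : ∀ {g : ℝ → ℝ}, ContinuousOn g (Icc T (2 * T)) → IntervalIntegrable g volume T (2 * T) := by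
      intro g hg
      apply ContinuousOn.intervalIntegrable
      rwa [uIcc_of_le (by linarith)]
    have d1 : IntervalIntegrable (fun t => Xi t ^ 2 - cR R (Xi t) ^ 2) volume T (2 * T) :=
      k1 ((hci.pow 2).sub ((hcR.comp_continuousOn hci).pow 2))
    have d2 : IntervalIntegrable (fun t => Xj t ^ 2 - cR R (Xj t) ^ 2) volume T (2 * T) :=
      k1 ((hcj.pow 2).sub ((hcR.comp_continuousOn hcj).pow 2))
    have d3 : IntervalIntegrable (fun t => Xi t ^ 2) volume T (2 * T) := k1 (hci.pow 2)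
    have d4 : IntervalIntegrable (fun t => Xj t ^ 2) volume T (2 * T) := k1 (hcj.pow 2)
    have g1 : IntervalIntegrable (fun t => lam / 2 * (Xi t ^ 2 - cR R (Xi t) ^ 2) +
        1 / (2 * lam) * Xj t ^ 2) volume T (2 * T) :=
      (d1.const_mul (lam / 2)).add (d4.const_mul (1 / (2 * lam)))
    have g2 : IntervalIntegrable (fun t => lam / 2 * (Xj t ^ 2 - cR R (Xj t) ^ 2) +
        1 / (2 * lam) * Xi t ^ 2) volume T (2 * T) :=
      (d2.const_mul (lam / 2)).add (d3.const_mul (1 / (2 * lam)))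
    rw [← Real.norm_eq_abs]
    refine (intervalIntegral.norm_integral_le_of_norm_le (by linarith) (g := fun t =>
      (lam / 2 * (Xi t ^ 2 - cR R (Xi t) ^ 2) + 1 / (2 * lam) * Xj t ^ 2) +
      (lam / 2 * (Xj t ^ 2 - cR R (Xj t) ^ 2) + 1 / (2 * lam) * Xi t ^ 2)) ?_ (g1.add g2)).trans ?_
    · filter_upwards with t _
      rw [norm_mul, Real.norm_of_nonneg (hW01 t).1, Real.norm_eq_abs]
      refine (mul_le_of_le_one_left (abs_nonneg _) (hW01 t).2).trans ?_
      exact prod_trunc (Nat.cast_nonneg R) hlam0 _ _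
    · rw [intervalIntegral.integral_add g1 g2, intervalIntegral.integral_add (d1.const_mul _)
        (d4.const_mul _), intervalIntegral.integral_add (d2.const_mul _) (d3.const_mul _),
        intervalIntegral.integral_const_mul, intervalIntegral.integral_const_mul,
        intervalIntegral.integral_const_mul, intervalIntegral.integral_const_mul]
      have q1 : (∫ t in T..(2 * T), (Xi t ^ 2 - cR R (Xi t) ^ 2)) ≤ 3 * e * T := hui.1
      have q2 : (∫ t in T..(2 * T), (Xj t ^ 2 - cR R (Xj t) ^ 2)) ≤ 3 * e * T := huj.1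
      have q3 : (∫ t in T..(2 * T), Xi t ^ 2) ≤ (S i i + e) * T := hui.2
      have q4 : (∫ t in T..(2 * T), Xj t ^ 2) ≤ (S j j + e) * T := huj.2
      have r1 : lam / 2 * (3 * e * T) ≤ ε / 16 * T := by
        have : e ≤ ε / (24 * (lam + 1)) := min_le_right _ _
        calc lam / 2 * (3 * e * T) ≤ lam / 2 * (3 * (ε / (24 * (lam + 1))) * T) := by gcongr
          _ = ε / 16 * T * (lam / (lam + 1)) := by field_simp; ring
          _ ≤ ε / 16 * T * 1 := by
              gcongr
              rw [div_le_one (by positivity)]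
              linarith
          _ = _ := mul_one _
      have he1 : e ≤ 1 := min_le_left _ _
      have r2 : 1 / (2 * lam) * ((S i i + e) * T + (S j j + e) * T) ≤ ε / 16 * T := by
        calc 1 / (2 * lam) * ((S i i + e) * T + (S j j + e) * T) ≤ 1 / (2 * lam) * (M * T) := by
              gcongr
              rw [hM]
              nlinarith
          _ = ε / 16 * T := by rw [hlam]; field_simp; norm_num
      have s1 : lam / 2 * (∫ t in T..(2 * T), (Xi t ^ 2 - cR R (Xi t) ^ 2)) ≤ lam / 2 * (3 * e * T) := by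
        gcongr
      have s2 : lam / 2 * (∫ t in T..(2 * T), (Xj t ^ 2 - cR R (Xj t) ^ 2)) ≤ lam / 2 * (3 * e * T) := by
        gcongr
      have s3 : 1 / (2 * lam) * (∫ t in T..(2 * T), Xi t ^ 2) ≤ 1 / (2 * lam) * ((S i i + e) * T) := by
        gcongr
      have s4 : 1 / (2 * lam) * (∫ t in T..(2 * T), Xj t ^ 2) ≤ 1 / (2 * lam) * ((S j j + e) * T) := by
        gcongr
      have : 0 < ε * T := by positivity
      nlinarith
  have b3 : |∫ t in T..(2 * T), W t * (m - S i j)| ≤ ε / 4 * T := by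
    have := intervalIntegral.norm_integral_le_of_norm_le_const (a := T) (b := 2 * T)
      (f := fun t => W t * (m - S i j)) (C := ε / 4) (fun t _ => ?_)
    · rw [show 2 * T - T = T by ring, abs_of_pos hT0] at this
      exact this
    · rw [norm_mul, Real.norm_of_nonneg (hW01 t).1, Real.norm_eq_abs]
      refine (mul_le_of_le_one_left (abs_nonneg _) (hW01 t).2).trans (hR3.le.trans ?_)
      have h5 : e ≤ ε / (24 * (lam + 1)) := min_le_right _ _
      refine h5.trans ?_
      apply div_le_div_of_nonneg_left hε.le (by norm_num)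
      linarith
  change |∫ t in T..(2 * T), W t * (Xi t * Xj t - S i j)| ≤ ε * T
  rw [e1]
  refine (abs_add_three _ _ _).trans ?_
  have : 0 < ε * T := by positivity
  linarith

/-- windows and phases, with the bound for the derivative on the window only -/
structure Win (d : ℕ) (K M : ℝ → ℝ) (T : ℝ) (N : ℕ) (a : ℕ → ℝ) (θ : ℕ → ℝ → ℝ) : Prop where
  nw : (N : ℝ) ≤ M T
  lo : T ≤ a 0
  hi : a N ≤ 2 * T
  mono : ∀ k < N, a k ≤ a (k + 1)
  cd : ∀ k < N, ContDiff ℝ (d + 1 : ℕ) (θ k)
  bd : ∀ k < N, ∀ t ∈ Icc (a k) (a (k + 1)), |iteratedDeriv (d + 1) (θ k) t| ≤ K T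

lemma Win.toCd {d N : ℕ} {K M : ℝ → ℝ} {T : ℝ} {a : ℕ → ℝ} {θ : ℕ → ℝ → ℝ} (hw : Win d K M T N a θ)
    (hK : 0 ≤ K T) : ∃ θ', Cd d K M T N a θ' ∧ ∀ k < N, ∀ t ∈ Icc (a k) (a (k + 1)), θ' k t = θ k t := by
  have hex : ∀ k, ∃ θ' : ℝ → ℝ, ContDiff ℝ (d + 1 : ℕ) θ' ∧ (k < N → ∀ t ∈ Icc (a k) (a (k + 1)), θ' t = θ k t) ∧
      ∀ t, |iteratedDeriv (d + 1) θ' t| ≤ K T := by
    intro k
    by_cases hk : k < N
    · obtain ⟨θ', h1, h2, h3⟩ := ext_phase (d + 1) (hw.cd k hk) (hw.mono k hk) (hw.bd k hk)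
      exact ⟨θ', h1, fun _ => h2, h3⟩
    · refine ⟨fun _ => 0, contDiff_const, fun h => absurd h hk, fun t => ?_⟩
      rw [iteratedDeriv_const]
      simpa using hK
  choose θ' h1 h2 h3 using hex
  exact ⟨θ', ⟨hw.nw, hw.lo, hw.hi, hw.mono, h1, h3⟩, h2⟩

/-- **local uniformity of all orders** -/
theorem unif (hk : 0 < k) {d : ℕ} {K M : ℝ → ℝ} (hK0 : ∀ T, 0 ≤ K T) (hM0 : ∀ T, 0 ≤ M T)
    (hf : ∀ j, ContDiff ℝ 2 (f j)) (hs : ∀ j, HasCompactSupport (f j)) (hh : Scales h)
    (hK : ∀ j, Tendsto (fun T => K T * h j T ^ (d + 1)) atTop (𝓝 0))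
    (hM : ∀ j, Tendsto (fun T => M T * h j T / T) atTop (𝓝 0)) (ψ : EuclideanSpace ℝ (Fin k) →ᵇ ℝ)
    {ε : ℝ} (hε : 0 < ε) : ∀ᶠ T : ℝ in atTop, ∀ N a θ, Win d K M T N a θ →
      ∑ k ∈ Finset.range N, ‖∫ t in (a k)..(a (k + 1)), cexp ((θ k t : ℂ) * I) *
        ((ψ (Xv f (fun j => h j T) T t) - ∫ x, ψ x ∂(multivariateGaussian 0 (cM f h)) : ℝ) : ℂ)‖ ≤ ε * T := by
  filter_upwards [wt_field hk hK0 hM0 hf hs hh hK hM ψ (show 0 < ε / 6 by positivity), Xv_cont hf hs hh,
    eventually_ge_atTop (1 : ℝ)] with T h1 h2 h3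
  intro N a θ hw
  obtain ⟨θ', hc, he⟩ := hw.toCd (hK0 T)
  have hY : ContinuousOn (fun t => ψ (Xv f (fun j => h j T) T t) - ∫ x, ψ x ∂(multivariateGaussian 0 (cM f h)))
      (Icc T (2 * T)) := (ψ.continuous.comp_continuousOn h2).sub continuousOn_const
  have h4 := sum_of_ph hc (by linarith) hY h1
  refine le_trans (le_of_eq ?_) (h4.trans (le_of_eq (by ring)))
  refine Finset.sum_congr rfl fun k hk => ?_
  have hk' := Finset.mem_range.1 hk
  congr 1
  refine intervalIntegral.integral_congr fun t ht => ?_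
  rw [uIcc_of_le (hw.mono k hk')] at ht
  rw [he k hk' t ht]

/-- **local uniformity of all orders for the covariances** -/
theorem unif_sec (hk : 0 < k) {d : ℕ} {K M : ℝ → ℝ} (hK0 : ∀ T, 0 ≤ K T) (hM0 : ∀ T, 0 ≤ M T)
    (hf : ∀ j, ContDiff ℝ 2 (f j)) (hs : ∀ j, HasCompactSupport (f j)) (hh : Scales h)
    (hK : ∀ j, Tendsto (fun T => K T * h j T ^ (d + 1)) atTop (𝓝 0))
    (hM : ∀ j, Tendsto (fun T => M T * h j T / T) atTop (𝓝 0)) (i j : Fin k)
    {ε : ℝ} (hε : 0 < ε) : ∀ᶠ T : ℝ in atTop, ∀ N a θ, Win d K M T N a θ →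
      ∑ k ∈ Finset.range N, ‖∫ t in (a k)..(a (k + 1)), cexp ((θ k t : ℂ) * I) *
        (((Xv f (fun j => h j T) T t) i * (Xv f (fun j => h j T) T t) j - cM f h i j : ℝ) : ℂ)‖ ≤ ε * T := by
  have hkey := sec_gen (𝒲 := fun T => Wc d K M T) (fun T W hW => Wc_prop hW) hf hs hh
    (fun ψ ε hε => wt_field hk hK0 hM0 hf hs hh hK hM ψ hε) i j (show 0 < ε / 6 by positivity)
  filter_upwards [hkey, Xv_cont hf hs hh, eventually_ge_atTop (1 : ℝ)] with T h1 h2 h3
  intro N a θ hw
  obtain ⟨θ', hc, he⟩ := hw.toCd (hK0 T)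
  have hY : ContinuousOn (fun t => (Xv f (fun j => h j T) T t) i * (Xv f (fun j => h j T) T t) j - cM f h i j)
      (Icc T (2 * T)) :=
    (((EuclideanSpace.proj (𝕜 := ℝ) i).continuous.comp_continuousOn h2).mul
      ((EuclideanSpace.proj (𝕜 := ℝ) j).continuous.comp_continuousOn h2)).sub continuousOn_const
  have h4 := sum_of_ph hc (by linarith) hY h1
  refine le_trans (le_of_eq ?_) (h4.trans (le_of_eq (by ring)))
  refine Finset.sum_congr rfl fun k hk => ?_
  have hk' := Finset.mem_range.1 hk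
  congr 1
  refine intervalIntegral.integral_congr fun t ht => ?_
  rw [uIcc_of_le (hw.mono k hk')] at ht
  rw [he k hk' t ht]

end Pool.Agent.H493.DC
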