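import Pool.Agent.H493.DC.Vdc

set_option autoImplicit false

/-! The induction on the order of the phases. -/

open Complex Filter Topology Set MeasureTheory

namespace Pool.Agent.H493.DC

/-- piecewise phases -/
noncomputable def pw (N : ℕ) (a : ℕ → ℝ) (θ : ℕ → ℝ → ℝ) (t : ℝ) : ℂ :=
  ∑ k ∈ Finset.range N, (Ioc (a k) (a (k + 1))).indicator (fun t => cexp ((θ k t : ℂ) * I)) t

/-- the number or its conjugate -/
noncomputable def cj : Bool → ℂ → ℂ
  | true, z => z
  | false, z => (starRingEnd ℂ) z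

lemma cj_norm (b : Bool) (z : ℂ) : ‖cj b z‖ = ‖z‖ := by
  cases b
  · exact RCLike.norm_conj z
  · rfl

lemma cj_not (b : Bool) (z : ℂ) : cj (!b) z = (starRingEnd ℂ) (cj b z) := by
  cases b
  · simp [cj]
  · simp [cj]

lemma cj_meas (b : Bool) : Measurable (cj b) := by
  cases b
  · exact Complex.continuous_conj.measurable
  · exact measurable_id

lemma cells_mono {N : ℕ} {a : ℕ → ℝ} (ha : ∀ k < N, a k ≤ a (k + 1)) {i j : ℕ} (hij : i ≤ j) (hj : j ≤ N) :
    a i ≤ a j := by
  induction j, hij using Nat.le_induction with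
  | base => exact le_rfl
  | succ n hn ih => exact (ih (by omega)).trans (ha n (by omega))

lemma cells_disj {N : ℕ} {a : ℕ → ℝ} (ha : ∀ k < N, a k ≤ a (k + 1)) {k l : ℕ} (hk : k < N) (hl : l < N)
    (hkl : k ≠ l) {t : ℝ} (h1 : t ∈ Ioc (a k) (a (k + 1))) : t ∉ Ioc (a l) (a (l + 1)) := by
  intro h2
  rcases Nat.lt_or_gt_of_ne hkl with h | h
  · have := cells_mono ha (show k + 1 ≤ l by omega) hl.le
    linarith [h1.2, h2.1]
  · have := cells_mono ha (show l + 1 ≤ k by omega) hk.le
    linarith [h1.1, h2.2]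

lemma pw_mem {N : ℕ} {a : ℕ → ℝ} {θ : ℕ → ℝ → ℝ} (ha : ∀ k < N, a k ≤ a (k + 1)) {k : ℕ} (hk : k < N) {t : ℝ}
    (ht : t ∈ Ioc (a k) (a (k + 1))) : pw N a θ t = cexp ((θ k t : ℂ) * I) := by
  unfold pw
  rw [Finset.sum_eq_single k]
  · rw [indicator_of_mem ht]
  · intro l hl hlk
    exact indicator_of_notMem (cells_disj ha hk (Finset.mem_range.1 hl) (Ne.symm hlk) ht) _
  · intro h
    exact absurd (Finset.mem_range.2 hk) h

lemma pw_not {N : ℕ} {a : ℕ → ℝ} {θ : ℕ → ℝ → ℝ} {t : ℝ} (h : ∀ k < N, t ∉ Ioc (a k) (a (k + 1))) :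
    pw N a θ t = 0 := by
  unfold pw
  exact Finset.sum_eq_zero fun k hk => indicator_of_notMem (h k (Finset.mem_range.1 hk)) _

lemma pw_norm {N : ℕ} {a : ℕ → ℝ} {θ : ℕ → ℝ → ℝ} (ha : ∀ k < N, a k ≤ a (k + 1)) (t : ℝ) : ‖pw N a θ t‖ ≤ 1 := by
  by_cases h : ∃ k < N, t ∈ Ioc (a k) (a (k + 1))
  · obtain ⟨k, hk, ht⟩ := h
    rw [pw_mem ha hk ht, Complex.norm_exp_ofReal_mul_I]
  · push Not at h
    rw [pw_not h, norm_zero]
    exact zero_le_one

lemma pw_meas {N : ℕ} {a : ℕ → ℝ} {θ : ℕ → ℝ → ℝ} (hθ : ∀ k, Continuous (θ k)) : Measurable (pw N a θ) := by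
  unfold pw
  refine Finset.measurable_fun_sum _ fun k _ => ?_
  have := hθ k
  exact Measurable.indicator (Continuous.measurable (by fun_prop)) measurableSet_Ioc

lemma pw_diff {N : ℕ} {a : ℕ → ℝ} {θ : ℕ → ℝ → ℝ} (ha : ∀ k < N, a k ≤ a (k + 1)) {u v H : ℝ} (hu : u ∈ Ioc 0 H)
    (hv : v ∈ Ioc 0 H) (t : ℝ) :
    ‖pw N a θ (t + u) * (starRingEnd ℂ) (pw N a θ (t + v)) - pw N a (fun k s => θ k (s + u) - θ k (s + v)) t‖ ≤
      ∑ k ∈ Finset.range (N + 1), (Icc (a k - H) (a k)).indicator (fun _ => (2 : ℝ)) t := by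
  by_cases ht : ∃ k < N + 1, t ∈ Icc (a k - H) (a k)
  · obtain ⟨k, hk, htk⟩ := ht
    have h1 : ‖pw N a θ (t + u) * (starRingEnd ℂ) (pw N a θ (t + v)) -
        pw N a (fun k s => θ k (s + u) - θ k (s + v)) t‖ ≤ 2 := by
      refine (norm_sub_le _ _).trans ?_
      rw [norm_mul, RCLike.norm_conj]
      have h2 := pw_norm (θ := θ) ha (t + u)
      have h3 := pw_norm (θ := θ) ha (t + v)
      have h4 := pw_norm (θ := fun k s => θ k (s + u) - θ k (s + v)) ha t
      have h5 : ‖pw N a θ (t + u)‖ * ‖pw N a θ (t + v)‖ ≤ 1 * 1 := mul_le_mul h2 h3 (norm_nonneg _) zero_le_one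
      linarith
    refine h1.trans ?_
    have h2 : (Icc (a k - H) (a k)).indicator (fun _ => (2 : ℝ)) t = 2 := indicator_of_mem htk _
    exact h2.ge.trans (Finset.single_le_sum (f := fun k => (Icc (a k - H) (a k)).indicator (fun _ => (2 : ℝ)) t)
      (fun i _ => indicator_nonneg (fun _ _ => zero_le_two) _) (Finset.mem_range.2 hk))
  · push Not at ht
    have hkey : ∀ w ∈ Ioc 0 H, ∀ k < N, t + w ∈ Ioc (a k) (a (k + 1)) ↔ t ∈ Ioc (a k) (a (k + 1)) := by
      intro w hw k hk
      have h1 := ht k (by omega)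
      have h2 := ht (k + 1) (by omega)
      rw [mem_Icc, not_and_or, not_le, not_le] at h1 h2
      constructor
      · rintro ⟨h3, h4⟩
        refine ⟨?_, by linarith [hw.1]⟩
        rcases h1 with h1 | h1
        · linarith [hw.2]
        · exact h1
      · rintro ⟨h3, h4⟩
        refine ⟨by linarith [hw.1], ?_⟩
        rcases h2 with h2 | h2
        · linarith [hw.2]
        · linarith
    have h0 : pw N a θ (t + u) * (starRingEnd ℂ) (pw N a θ (t + v)) -
        pw N a (fun k s => θ k (s + u) - θ k (s + v)) t = 0 := by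
      by_cases h : ∃ k < N, t ∈ Ioc (a k) (a (k + 1))
      · obtain ⟨k, hk, htk⟩ := h
        rw [pw_mem ha hk ((hkey u hu k hk).2 htk), pw_mem ha hk ((hkey v hv k hk).2 htk), pw_mem ha hk htk,
          ← Complex.exp_conj, ← Complex.exp_add]
        simp only [map_mul, Complex.conj_I, Complex.conj_ofReal]
        rw [sub_eq_zero]
        congr 1
        push_cast
        ring
      · push Not at h
        rw [pw_not h, pw_not (fun k hk h' => h k hk ((hkey u hu k hk).1 h')), zero_mul, sub_zero]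
    rw [h0, norm_zero]
    exact Finset.sum_nonneg fun i _ => indicator_nonneg (fun _ _ => zero_le_two) _

variable {g : ℝ → ℝ → ℂ} {H : ℝ → ℝ}

/-- decorrelation at separated points -/
def Dcr (g : ℝ → ℝ → ℂ) (H : ℝ → ℝ) : Prop :=
  ∀ (ι : Type) [Fintype ι] [DecidableEq ι] [Nonempty ι] (ρ C ε : ℝ), 0 < ρ → 0 < ε → ∀ᶠ T : ℝ in atTop,
    ∀ x : ι → ℝ, (∀ j, |x j| ≤ C * H T) → (∀ i j, i ≠ j → ρ * H T ≤ |x i - x j|) → ∀ σ : ι → Bool,
    ∀ A B : ℝ, T ≤ A → A ≤ B → B ≤ 2 * T → ‖∫ t in A..B, ∏ j, cj (σ j) (g T (t + x j))‖ ≤ ε * T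

/-- the statement for phases with a small derivative of order `m` -/
def QQ (g : ℝ → ℝ → ℂ) (H : ℝ → ℝ) (m : ℕ) : Prop :=
  ∀ (ι : Type) [Fintype ι] [DecidableEq ι] [Nonempty ι] (ρ C ε : ℝ), 0 < ρ → 0 < ε → ∃ δ : ℝ, 0 < δ ∧
    ∀ᶠ T : ℝ in atTop, ∀ (N : ℕ) (a : ℕ → ℝ), T ≤ a 0 → a N ≤ 2 * T → (∀ k < N, a k ≤ a (k + 1)) →
    N * H T ≤ δ * T → ∀ θ : ℕ → ℝ → ℝ, (∀ k, ContDiff ℝ m (θ k)) →
    (∀ k t, |iteratedDeriv m (θ k) t| * H T ^ m ≤ δ) →
    ∀ x : ι → ℝ, (∀ j, |x j| ≤ C * H T) → (∀ i j, i ≠ j → ρ * H T ≤ |x i - x j|) → ∀ σ : ι → Bool,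
    ‖∫ t in T..(2 * T), pw N a θ t * ∏ j, cj (σ j) (g T (t + x j))‖ ≤ ε * T

lemma pr_norm {ι : Type} [Fintype ι] {T : ℝ} (hg : ∀ t, ‖g T t‖ ≤ 2) (x : ι → ℝ) (σ : ι → Bool) (t : ℝ) :
    ‖∏ j, cj (σ j) (g T (t + x j))‖ ≤ 2 ^ Fintype.card ι := by
  rw [norm_prod, ← Finset.card_univ, ← Finset.prod_const]
  refine Finset.prod_le_prod (fun _ _ => norm_nonneg _) fun j _ => ?_
  rw [cj_norm]
  exact hg _

lemma pr_meas {ι : Type} [Fintype ι] {T : ℝ} (hg : Measurable (g T)) (x : ι → ℝ) (σ : ι → Bool) :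
    Measurable fun t => ∏ j, cj (σ j) (g T (t + x j)) :=
  Finset.measurable_fun_prod _ fun j _ => (cj_meas _).comp (hg.comp (measurable_id.add_const _))

lemma ii_bdd {f : ℝ → ℂ} (hf : Measurable f) {C : ℝ} (hC : ∀ t, ‖f t‖ ≤ C) (a b : ℝ) :
    IntervalIntegrable f volume a b := by
  constructor <;>
  · exact Integrable.of_bound (C := C) hf.aestronglyMeasurable (Eventually.of_forall hC)

lemma pw_int {N : ℕ} {a : ℕ → ℝ} {θ : ℕ → ℝ → ℝ} (ha : ∀ k < N, a k ≤ a (k + 1)) (hθ : ∀ k, Continuous (θ k))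
    {T : ℝ} (h0 : T ≤ a 0) (hN : a N ≤ 2 * T) {P : ℝ → ℂ} (hP : Measurable P) {C : ℝ} (hC : ∀ t, ‖P t‖ ≤ C) :
    ∫ t in T..(2 * T), pw N a θ t * P t =
      ∑ k ∈ Finset.range N, ∫ t in (a k)..(a (k + 1)), cexp ((θ k t : ℂ) * I) * P t := by
  have h0N : a 0 ≤ a N := cells_mono ha (Nat.zero_le _) le_rfl
  have e1 : ∀ t, pw N a θ t * P t =
      ∑ k ∈ Finset.range N, (Ioc (a k) (a (k + 1))).indicator (fun t => cexp ((θ k t : ℂ) * I) * P t) t := by
    intro t
    unfold pw
    rw [Finset.sum_mul]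
    refine Finset.sum_congr rfl fun k _ => ?_
    by_cases ht : t ∈ Ioc (a k) (a (k + 1))
    · rw [indicator_of_mem ht, indicator_of_mem ht]
    · rw [indicator_of_notMem ht, indicator_of_notMem ht, zero_mul]
  simp only [e1]
  rw [intervalIntegral.integral_finsetSum]
  · refine Finset.sum_congr rfl fun k hk => ?_
    have hk' := Finset.mem_range.1 hk
    exact Pool.Agent.H493.MX.ind_int (h0.trans (cells_mono ha (Nat.zero_le _) hk'.le)) (ha k hk')
      ((cells_mono ha (show k + 1 ≤ N by omega) le_rfl).trans hN) _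
  · intro k _
    have hc := hθ k
    refine ii_bdd (C := C) ?_ ?_ _ _
    · exact Measurable.indicator ((Continuous.measurable (by fun_prop)).mul hP) measurableSet_Ioc
    · intro t
      refine (norm_indicator_le_norm_self _ _).trans ?_
      rw [norm_mul, Complex.norm_exp_ofReal_mul_I, one_mul]
      exact hC t

theorem QQ_zero (hg : ∀ᶠ T : ℝ in atTop, Measurable (g T) ∧ ∀ t, ‖g T t‖ ≤ 2) (hD : Dcr g H) : QQ g H 0 := by
  intro ι _ _ _ ρ C ε hρ hε
  set n := Fintype.card ι with hn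
  refine ⟨ε / (2 * 2 ^ n), by positivity, ?_⟩
  filter_upwards [hg, hD ι ρ C (ε / 2) hρ (by positivity), eventually_ge_atTop (0 : ℝ)] with T h1 h2 hT0
  intro N a h0 hN ha _ θ hθ hδ x hx hs σ
  set P : ℝ → ℂ := fun t => ∏ j, cj (σ j) (g T (t + x j)) with hP
  have hPm : Measurable P := pr_meas h1.1 x σ
  have hPb : ∀ t, ‖P t‖ ≤ 2 ^ n := pr_norm h1.2 x σ
  have h0N : a 0 ≤ a N := cells_mono ha (Nat.zero_le _) le_rfl
  have hθc : ∀ k, Continuous (θ k) := fun k => (hθ k).continuous
  have hθ1 : ∀ k t, |θ k t| ≤ ε / (2 * 2 ^ n) := by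
    intro k t
    have := hδ k t
    rwa [pow_zero, mul_one, iteratedDeriv_zero] at this
  rw [pw_int ha hθc h0 hN hPm hPb]
  have hii : ∀ a b, IntervalIntegrable P volume a b := ii_bdd hPm hPb
  have hii2 : ∀ k a b, IntervalIntegrable (fun t => cexp ((θ k t : ℂ) * I) * P t) volume a b := by
    intro k a b
    have hc := hθc k
    have hcm : Measurable fun t => cexp ((θ k t : ℂ) * I) := Continuous.measurable (by fun_prop)
    refine ii_bdd (f := fun t => cexp ((θ k t : ℂ) * I) * P t) (C := 2 ^ n) (hcm.mul hPm) (fun t => ?_) a b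
    rw [norm_mul, Complex.norm_exp_ofReal_mul_I, one_mul]
    exact hPb t
  have e1 : (∑ k ∈ Finset.range N, ∫ t in (a k)..(a (k + 1)), cexp ((θ k t : ℂ) * I) * P t) =
      (∑ k ∈ Finset.range N, ∫ t in (a k)..(a (k + 1)), (cexp ((θ k t : ℂ) * I) - 1) * P t) +
        ∫ t in (a 0)..(a N), P t := by
    rw [← intervalIntegral.sum_integral_adjacent_intervals fun k _ => hii _ _, ← Finset.sum_add_distrib]
    refine Finset.sum_congr rfl fun k _ => ?_
    rw [← intervalIntegral.integral_add ?_ (hii _ _)]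
    · refine intervalIntegral.integral_congr fun t _ => ?_
      ring
    · refine ((hii2 k _ _).sub (hii _ _)).congr fun t _ => ?_
      ring
  rw [e1]
  refine (norm_add_le _ _).trans ?_
  have b2 : ‖∫ t in (a 0)..(a N), P t‖ ≤ ε / 2 * T := h2 x hx hs σ (a 0) (a N) h0 h0N hN
  have b1 : ‖∑ k ∈ Finset.range N, ∫ t in (a k)..(a (k + 1)), (cexp ((θ k t : ℂ) * I) - 1) * P t‖ ≤ ε / 2 * T := by
    have h3 : ∀ k ∈ Finset.range N, ‖∫ t in (a k)..(a (k + 1)), (cexp ((θ k t : ℂ) * I) - 1) * P t‖ ≤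
        ε / 2 * (a (k + 1) - a k) := by
      intro k hk
      have := intervalIntegral.norm_integral_le_of_norm_le_const (a := a k) (b := a (k + 1))
        (f := fun t => (cexp ((θ k t : ℂ) * I) - 1) * P t) (C := ε / 2) (fun t _ => ?_)
      · rwa [abs_of_nonneg (by linarith [ha k (Finset.mem_range.1 hk)])] at this
      · rw [norm_mul]
        have h4 : ‖cexp ((θ k t : ℂ) * I) - 1‖ ≤ ε / (2 * 2 ^ n) := by
          refine le_trans ?_ (hθ1 k t)
          rw [mul_comm]
          exact Real.norm_exp_I_mul_ofReal_sub_one_le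
        calc _ ≤ ε / (2 * 2 ^ n) * 2 ^ n := mul_le_mul h4 (hPb t) (norm_nonneg _) (by positivity)
          _ = ε / 2 := by field_simp
    refine (norm_sum_le _ _).trans ((Finset.sum_le_sum h3).trans ?_)
    rw [← Finset.mul_sum, Finset.sum_range_sub]
    have : a N - a 0 ≤ T := by linarith
    exact mul_le_mul_of_nonneg_left this (by positivity)
  linarith

theorem QQ_succ (hg : ∀ᶠ T : ℝ in atTop, Measurable (g T) ∧ ∀ t, ‖g T t‖ ≤ 2) (hH : ∀ᶠ T : ℝ in atTop, 0 < H T)
    (hH0 : Tendsto H atTop (𝓝 0)) {m : ℕ} (hQ : QQ g H m) : QQ g H (m + 1) := by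
  intro ι _ _ _ ρ C ε hρ hε
  set n := Fintype.card ι with hn
  have hn0 : 0 < n := Fintype.card_pos
  have hn1 : (1 : ℝ) ≤ n := by exact_mod_cast hn0
  set r₀ : ℝ := ε ^ 2 / (12 * 2 * (n * n) * 4 ^ n) with hr₀
  have hr₀0 : 0 < r₀ := by positivity
  obtain ⟨δ₁, hδ₁, hQ1⟩ := hQ (ι ⊕ ι) (min ρ r₀) (C + 1) (ε ^ 2 / 12) (lt_min hρ hr₀0) (by positivity)
  set δ : ℝ := min δ₁ (ε ^ 2 / (12 * 4 * 4 ^ n)) with hδ
  have hδ0 : 0 < δ := by positivity
  refine ⟨δ, hδ0, ?_⟩
  have hHs : ∀ᶠ T : ℝ in atTop, H T < 1 := hH0.eventually (gt_mem_nhds one_pos)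
  filter_upwards [hg, hQ1, hH, hHs, eventually_ge_atTop (1 / δ), eventually_ge_atTop (1 : ℝ),
    eventually_ge_atTop (4 * 2 ^ n / ε)] with T h1 h2 h3 h4 h5 h6 h7
  intro N a h0 hN ha hNH θ hθ hδθ x hx hs σ
  have hT0 : 0 < T := by linarith
  have hδT : H T ≤ δ * T := by
    rw [div_le_iff₀ hδ0] at h5
    linarith
  set P : ℝ → ℂ := fun t => ∏ j, cj (σ j) (g T (t + x j)) with hP
  have hPm : Measurable P := pr_meas h1.1 x σ
  have hPb : ∀ t, ‖P t‖ ≤ 2 ^ n := pr_norm h1.2 x σ
  have hθc : ∀ k, Continuous (θ k) := fun k => (hθ k).continuous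
  set G : ℝ → ℂ := fun t => pw N a θ t * P t with hG
  have hGm : Measurable G := (pw_meas hθc).mul hPm
  have hGb : ∀ t, ‖G t‖ ≤ 2 ^ n := by
    intro t
    rw [hG, norm_mul]
    calc _ ≤ 1 * 2 ^ n := mul_le_mul (pw_norm ha t) (hPb t) (norm_nonneg _) zero_le_one
      _ = _ := one_mul _
  have hcp : ∀ u ∈ Ioc 0 (H T), ∀ v ∈ Ioc 0 (H T),
      ‖∫ t in T..(2 * T), G (t + u) * (starRingEnd ℂ) (G (t + v))‖ ≤
        (ε ^ 2 / 12 * T + 4 ^ n * (4 * (δ * T))) + ∑ p : ι × ι, (Icc (u + (x p.1 - x p.2) - r₀ * H T)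
          (u + (x p.1 - x p.2) + r₀ * H T)).indicator (fun _ => 4 ^ n * T) v := by
    intro u hu v hv
    have hnn : ∀ p : ι × ι, 0 ≤ (Icc (u + (x p.1 - x p.2) - r₀ * H T)
          (u + (x p.1 - x p.2) + r₀ * H T)).indicator (fun _ => 4 ^ n * T) v :=
      fun p => indicator_nonneg (fun _ _ => by positivity) _
    by_cases hbad : ∃ p : ι × ι, v ∈ Icc (u + (x p.1 - x p.2) - r₀ * H T) (u + (x p.1 - x p.2) + r₀ * H T)
    · obtain ⟨p, hp⟩ := hbad
      have e1 : (Icc (u + (x p.1 - x p.2) - r₀ * H T)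
          (u + (x p.1 - x p.2) + r₀ * H T)).indicator (fun _ => 4 ^ n * T) v = 4 ^ n * T := indicator_of_mem hp _
      have e2 := Finset.single_le_sum (f := fun p : ι × ι => (Icc (u + (x p.1 - x p.2) - r₀ * H T)
          (u + (x p.1 - x p.2) + r₀ * H T)).indicator (fun _ => 4 ^ n * T) v)
        (fun i _ => hnn i) (Finset.mem_univ p)
      have e3 := intervalIntegral.norm_integral_le_of_norm_le_const (a := T) (b := 2 * T)
        (f := fun t => G (t + u) * (starRingEnd ℂ) (G (t + v))) (C := 4 ^ n) (fun t _ => by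
          rw [norm_mul, RCLike.norm_conj]
          calc _ ≤ (2 : ℝ) ^ n * 2 ^ n := mul_le_mul (hGb _) (hGb _) (norm_nonneg _) (by positivity)
            _ = 4 ^ n := by rw [← mul_pow]; norm_num)
      rw [abs_of_nonneg (by linarith)] at e3
      have e4 : 0 ≤ ε ^ 2 / 12 * T + 4 ^ n * (4 * (δ * T)) := by positivity
      have e5 : (4 : ℝ) ^ n * (2 * T - T) = 4 ^ n * T := by ring
      linarith
    · push Not at hbad
      -- the new data
      set x' : ι ⊕ ι → ℝ := Sum.elim (fun j => x j + u) (fun j => x j + v) with hx'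
      set σ' : ι ⊕ ι → Bool := Sum.elim σ (fun j => !σ j) with hσ'
      set θ' : ℕ → ℝ → ℝ := fun k s => θ k (s + u) - θ k (s + v) with hθ'
      set P' : ℝ → ℂ := fun t => ∏ j, cj (σ' j) (g T (t + x' j)) with hP'
      have hP'm : Measurable P' := pr_meas h1.1 x' σ'
      have hP'b : ∀ t, ‖P' t‖ ≤ 4 ^ n := by
        intro t
        have := pr_norm h1.2 x' σ' t
        rw [Fintype.card_sum, ← hn, pow_add, ← mul_pow, show (2 : ℝ) * 2 = 4 by norm_num] at this
        exact this
      have hPP : ∀ t, P (t + u) * (starRingEnd ℂ) (P (t + v)) = P' t := by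
        intro t
        rw [hP, hP']
        simp only
        rw [Fintype.prod_sum_type, map_prod]
        simp only [hx', hσ', Sum.elim_inl, Sum.elim_inr, cj_not]
        congr 1
        · exact Finset.prod_congr rfl fun j _ => by rw [add_assoc, add_comm u]
        · exact Finset.prod_congr rfl fun j _ => by rw [add_assoc, add_comm v]
      have huv : |u - v| ≤ H T := by
        rw [abs_le]
        exact ⟨by linarith [hu.1, hv.2], by linarith [hv.1, hu.2]⟩
      have c1 : ∀ k, ContDiff ℝ m (θ' k) := by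
        intro k
        have h8 : ContDiff ℝ m (θ k) := (hθ k).of_le (by exact_mod_cast Nat.le_succ m)
        exact (h8.comp (contDiff_id.add contDiff_const)).sub (h8.comp (contDiff_id.add contDiff_const))
      have c2 : ∀ k t, |iteratedDeriv m (θ' k) t| * H T ^ m ≤ δ₁ := by
        intro k t
        have h8 : ContDiff ℝ m (θ k) := (hθ k).of_le (by exact_mod_cast Nat.le_succ m)
        have h9 : iteratedDeriv m (θ' k) t = iteratedDeriv m (θ k) (t + u) - iteratedDeriv m (θ k) (t + v) := by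
          have k1 : ContDiff ℝ m fun s => θ k (s + u) := h8.comp (contDiff_id.add contDiff_const)
          have k2 : ContDiff ℝ m fun s => θ k (s + v) := h8.comp (contDiff_id.add contDiff_const)
          rw [hθ']
          simp only
          rw [iteratedDeriv_fun_sub k1.contDiffAt k2.contDiffAt, iteratedDeriv_comp_add_const,
            iteratedDeriv_comp_add_const]
        have h10 : ∀ s, |deriv (iteratedDeriv m (θ k)) s| ≤ δ / H T ^ (m + 1) := by
          intro s
          rw [← iteratedDeriv_succ, le_div_iff₀ (by positivity)]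
          exact hδθ k s
        have h11 : ‖iteratedDeriv m (θ k) (t + u) - iteratedDeriv m (θ k) (t + v)‖ ≤
            δ / H T ^ (m + 1) * ‖(t + u) - (t + v)‖ :=
          Convex.norm_image_sub_le_of_norm_deriv_le (s := univ) (fun s _ =>
            ((hθ k).differentiable_iteratedDeriv m (by exact_mod_cast Nat.lt_succ_self m)) s)
            (fun s _ => h10 s) convex_univ (mem_univ _) (mem_univ _)
        rw [h9, ← Real.norm_eq_abs]
        rw [show (t + u) - (t + v) = u - v by ring, Real.norm_eq_abs (u - v)] at h11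
        calc _ ≤ (δ / H T ^ (m + 1) * |u - v|) * H T ^ m := by gcongr
          _ ≤ (δ / H T ^ (m + 1) * H T) * H T ^ m := by gcongr
          _ = δ := by
              rw [pow_succ]
              field_simp
          _ ≤ δ₁ := min_le_left _ _
      have c3 : ∀ j, |x' j| ≤ (C + 1) * H T := by
        rintro (j | j)
        · simp only [hx', Sum.elim_inl]
          refine (abs_add_le _ _).trans ?_
          rw [abs_of_pos hu.1]
          linarith [hx j, hu.2]
        · simp only [hx', Sum.elim_inr]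
          refine (abs_add_le _ _).trans ?_
          rw [abs_of_pos hv.1]
          linarith [hx j, hv.2]
      have hfar : ∀ i j : ι, r₀ * H T ≤ |x i + u - (x j + v)| := by
        intro i j
        by_contra hcon
        push Not at hcon
        rw [abs_lt] at hcon
        exact hbad (i, j) ⟨by simp only; linarith [hcon.2], by simp only; linarith [hcon.1]⟩
      have hm1 : min ρ r₀ * H T ≤ ρ * H T := mul_le_mul_of_nonneg_right (min_le_left _ _) h3.le
      have hm2 : min ρ r₀ * H T ≤ r₀ * H T := mul_le_mul_of_nonneg_right (min_le_right _ _) h3.le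
      have c4 : ∀ i j, i ≠ j → min ρ r₀ * H T ≤ |x' i - x' j| := by
        rintro (i | i) (j | j) hij
        · simp only [hx', Sum.elim_inl]
          have := hs i j (fun h => hij (by rw [h]))
          rw [show x i + u - (x j + u) = x i - x j by ring]
          linarith
        · simp only [hx', Sum.elim_inl, Sum.elim_inr]
          linarith [hfar i j]
        · simp only [hx', Sum.elim_inl, Sum.elim_inr]
          rw [abs_sub_comm]
          linarith [hfar j i]
        · simp only [hx', Sum.elim_inr]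
          have := hs i j (fun h => hij (by rw [h]))
          rw [show x i + v - (x j + v) = x i - x j by ring]
          linarith
      have c5 : N * H T ≤ δ₁ * T := hNH.trans (mul_le_mul_of_nonneg_right (min_le_left _ _) hT0.le)
      have key := h2 N a h0 hN ha c5 θ' c1 c2 x' c3 c4 σ'
      have hθ'c : ∀ k, Continuous (θ' k) := fun k => (c1 k).continuous
      have e1 : (∫ t in T..(2 * T), G (t + u) * (starRingEnd ℂ) (G (t + v))) =
          (∫ t in T..(2 * T), pw N a θ' t * P' t) +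
          ∫ t in T..(2 * T), (pw N a θ (t + u) * (starRingEnd ℂ) (pw N a θ (t + v)) - pw N a θ' t) * P' t := by
        rw [← intervalIntegral.integral_add]
        · refine intervalIntegral.integral_congr fun t _ => ?_
          simp only [hG, map_mul]
          rw [← hPP]
          ring
        · refine ii_bdd (f := fun t => pw N a θ' t * P' t) (C := 1 * 4 ^ n) ((pw_meas hθ'c).mul hP'm) (fun t => ?_) _ _
          rw [norm_mul]
          exact mul_le_mul (pw_norm ha t) (hP'b t) (norm_nonneg _) zero_le_one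
        · have m1 : Measurable fun t => pw N a θ (t + u) := (pw_meas hθc).comp (measurable_id.add_const _)
          have m2 : Measurable fun t => (starRingEnd ℂ) (pw N a θ (t + v)) :=
            Complex.continuous_conj.measurable.comp ((pw_meas hθc).comp (measurable_id.add_const _))
          refine ii_bdd (f := fun t => (pw N a θ (t + u) * (starRingEnd ℂ) (pw N a θ (t + v)) - pw N a θ' t) * P' t)
            (C := (1 * 1 + 1) * 4 ^ n) (((m1.mul m2).sub (pw_meas hθ'c)).mul hP'm) (fun t => ?_) _ _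
          rw [norm_mul]
          refine mul_le_mul ?_ (hP'b t) (norm_nonneg _) (by norm_num)
          refine (norm_sub_le _ _).trans (add_le_add ?_ (pw_norm ha t))
          rw [norm_mul, RCLike.norm_conj]
          exact mul_le_mul (pw_norm ha _) (pw_norm ha _) (norm_nonneg _) zero_le_one
      have b2 : ‖∫ t in T..(2 * T), (pw N a θ (t + u) * (starRingEnd ℂ) (pw N a θ (t + v)) - pw N a θ' t) * P' t‖ ≤
          4 ^ n * (4 * (δ * T)) := by
        have i1 : IntervalIntegrable (fun t => ∑ k ∈ Finset.range (N + 1),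
            (Icc (a k - H T) (a k)).indicator (fun _ => (2 : ℝ)) t) volume T (2 * T) := by
          constructor <;>
          · exact integrable_finsetSum _ fun k _ => (integrable_const (2 : ℝ)).indicator measurableSet_Icc
        have h8 := intervalIntegral.norm_integral_le_of_norm_le (a := T) (b := 2 * T)
          (f := fun t => (pw N a θ (t + u) * (starRingEnd ℂ) (pw N a θ (t + v)) - pw N a θ' t) * P' t)
          (g := fun t => 4 ^ n * ∑ k ∈ Finset.range (N + 1), (Icc (a k - H T) (a k)).indicator (fun _ => (2 : ℝ)) t)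
          (by linarith) (Eventually.of_forall fun t _ => by
            rw [norm_mul, mul_comm]
            exact mul_le_mul (hP'b t) (pw_diff ha hu hv t) (norm_nonneg _) (by positivity)) (i1.const_mul _)
        refine h8.trans ?_
        rw [intervalIntegral.integral_const_mul, intervalIntegral.integral_finsetSum]
        · have h9 : ∀ k ∈ Finset.range (N + 1),
              (∫ t in T..(2 * T), (Icc (a k - H T) (a k)).indicator (fun _ => (2 : ℝ)) t) ≤ 2 * H T := by
            intro k _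
            rw [intervalIntegral.integral_of_le (by linarith), setIntegral_indicator measurableSet_Icc,
              setIntegral_const, smul_eq_mul]
            have : volume.real (Ioc T (2 * T) ∩ Icc (a k - H T) (a k)) ≤ H T := by
              have h10 : volume.real (Ioc T (2 * T) ∩ Icc (a k - H T) (a k)) ≤ volume.real (Icc (a k - H T) (a k)) :=
                measureReal_mono inter_subset_right measure_Icc_lt_top.ne
              rw [Real.volume_real_Icc_of_le (by linarith)] at h10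
              linarith
            linarith
          have h10 := Finset.sum_le_sum h9
          rw [Finset.sum_const, Finset.card_range, nsmul_eq_mul] at h10
          push_cast at h10
          refine mul_le_mul_of_nonneg_left (h10.trans ?_) (by positivity)
          nlinarith
        · intro k _
          constructor <;>
          · exact (integrable_const (2 : ℝ)).indicator measurableSet_Icc
      rw [e1]
      refine (norm_add_le _ _).trans ?_
      have hs0 : 0 ≤ ∑ p : ι × ι, (Icc (u + (x p.1 - x p.2) - r₀ * H T)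
          (u + (x p.1 - x p.2) + r₀ * H T)).indicator (fun _ => 4 ^ n * T) v :=
        Finset.sum_nonneg fun p _ => hnn p
      have key' : ‖∫ t in T..(2 * T), pw N a θ' t * P' t‖ ≤ ε ^ 2 / 12 * T := key
      linarith
  have hv := vdc_gen (κ := ι × ι) (b := fun p => x p.1 - x p.2) hGm hGb hT0.le h3.le (r := r₀ * H T) (by positivity)
    (by positivity) hcp
  have hv2 : ∫ t in T..(2 * T), ‖∫ u in (0 : ℝ)..(H T), G (t + u)‖ ^ 2 ≤ (ε / 2) ^ 2 * H T ^ 2 * T := by
    refine hv.trans ?_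
    rw [Fintype.card_prod, ← hn]
    push_cast
    have e1 : (n : ℝ) * n * (2 * (r₀ * H T) * (4 ^ n * T)) = ε ^ 2 / 12 * (H T * T) := by
      rw [hr₀]
      field_simp
    rw [e1]
    have e2 : 4 ^ n * (4 * (δ * T)) ≤ ε ^ 2 / 12 * T := by
      have : δ ≤ ε ^ 2 / (12 * 4 * 4 ^ n) := min_le_right _ _
      rw [le_div_iff₀ (by positivity)] at this
      nlinarith
    have e3 : (ε ^ 2 / 12 * T + 4 ^ n * (4 * (δ * T))) * H T ≤ (ε ^ 2 / 12 * T + ε ^ 2 / 12 * T) * H T :=
      mul_le_mul_of_nonneg_right (by linarith) h3.le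
    calc H T * ((ε ^ 2 / 12 * T + 4 ^ n * (4 * (δ * T))) * H T + ε ^ 2 / 12 * (H T * T))
        ≤ H T * ((ε ^ 2 / 12 * T + ε ^ 2 / 12 * T) * H T + ε ^ 2 / 12 * (H T * T)) := by gcongr
      _ = (ε / 2) ^ 2 * H T ^ 2 * T := by ring
  have hsa := shift_avg hGm hGb hT0.le h3 (e := ε / 2) (by positivity) hv2
  refine hsa.trans ?_
  have e4 : 2 * 2 ^ n * H T ≤ ε / 2 * T := by
    rw [div_le_iff₀ hε] at h7
    calc 2 * 2 ^ n * H T ≤ 2 * 2 ^ n * 1 := by gcongr
      _ ≤ ε / 2 * T := by linarith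
  linarith

theorem QQ_all (hg : ∀ᶠ T : ℝ in atTop, Measurable (g T) ∧ ∀ t, ‖g T t‖ ≤ 2) (hH : ∀ᶠ T : ℝ in atTop, 0 < H T)
    (hH0 : Tendsto H atTop (𝓝 0)) (hD : Dcr g H) (m : ℕ) : QQ g H m := by
  induction m with
  | zero => exact QQ_zero hg hD
  | succ m ih => exact QQ_succ hg hH hH0 ih

end Pool.Agent.H493.DC
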