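import Pool.Agent.H493.DC.Dec
import Pool.Agent.H493.DC.Ind

set_option autoImplicit false

/-! Decorrelation of the mesoscopic field at separated points. -/

open Complex Filter Topology Set MeasureTheory ProbabilityTheory
open scoped BoundedContinuousFunction RealInnerProductSpace

namespace Pool.Agent.H493.DC

open Pool.Agent.H203.ME Pool.Agent.H203.ME.CLTL Pool.Agent.H203.ME.FINL Pool.Agent.H493.MX

lemma FF_dil (F : ℝ → ℝ) {l : ℝ} (hl : 0 < l) (ξ : ℝ) : FF (fun x => F (x / l)) ξ = (l : ℂ) * FF F (l * ξ) :=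
  ADML.scale F hl ξ

lemma tvq_dil {F : ℝ → ℝ} (hF : Differentiable ℝ (FF F)) {l : ℝ} (hl : 0 < l) :
    tvq (fun x => F (x / l)) = l * tvq F := by
  unfold tvq
  have e1 : FF (fun x => F (x / l)) = fun ξ => (l : ℂ) * FF F (l * ξ) := funext fun ξ => FF_dil F hl ξ
  have e2 : ∀ ξ, deriv (FF (fun x => F (x / l))) ξ = (l : ℂ) * (l * deriv (FF F) (l * ξ)) := by
    intro ξ
    rw [e1]
    have h1 : HasDerivAt (fun ξ : ℝ => l * ξ) l ξ := by
      simpa using (hasDerivAt_id ξ).const_mul l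
    have h2 : HasDerivAt (fun ξ : ℝ => FF F (l * ξ)) (l • deriv (FF F) (l * ξ)) ξ :=
      HasDerivAt.scomp ξ (hF (l * ξ)).hasDerivAt h1
    have h3 := (h2.const_mul (l : ℂ)).deriv
    rw [h3, Complex.real_smul]
  set φ : ℝ → ℝ := fun ξ => ‖FF F ξ‖ ^ 2 + 2 * ξ * ‖FF F ξ‖ * ‖deriv (FF F) ξ‖ with hφ
  have e3 : ∀ ξ : ℝ, ‖FF (fun x => F (x / l)) ξ‖ ^ 2 +
      2 * ξ * ‖FF (fun x => F (x / l)) ξ‖ * ‖deriv (FF (fun x => F (x / l))) ξ‖ = l ^ 2 * φ (l * ξ) := by
    intro ξ
    rw [FF_dil F hl, e2, norm_mul, norm_mul, norm_mul, Complex.norm_real, Real.norm_of_nonneg hl.le, hφ]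
    ring
  have e4 : (∫ ξ in Ioi (0 : ℝ), φ (l * ξ)) = l⁻¹ * ∫ ξ in Ioi (0 : ℝ), φ ξ := by
    have := integral_comp_mul_left_Ioi φ 0 hl
    rw [mul_zero, smul_eq_mul] at this
    exact this
  simp only [e3]
  rw [integral_const_mul, e4]
  field_simp

variable {k : ℕ} {f : Fin k → ℝ → ℝ} {h : Fin k → ℝ → ℝ}

/-- the variation of the combined function is at most the largest scale -/
lemma tvq_ev (hf : ∀ j, ContDiff ℝ 2 (f j)) (hs : ∀ j, HasCompactSupport (f j)) (hh : Scales h)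
    (u : Fin k → ℝ) : ∃ K : ℝ, 1 ≤ K ∧ ∀ᶠ T : ℝ in atTop, ∀ S : ℝ, (∀ j, h j T ≤ S) → 0 < S →
      tvq (cb f h u T) ≤ K * S := by
  obtain ⟨V, hV, hA⟩ := t_ADM k (fun j x => u j * f j x) (fun j => contDiff_const.mul (hf j))
    (fun j => (hs j).mul_left)
  obtain ⟨K, hK, hA⟩ := hA 1 one_pos
  refine ⟨K, hK, ?_⟩
  filter_upwards [FINL.pos hh] with T hT S hS hS0
  have hK0 : 0 < K := by linarith
  have hl : 0 < K * S := by positivity
  set h' : Fin k → ℝ := fun j => h j T / (K * S) with hh'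
  have h'0 : ∀ j, 0 < h' j := fun j => div_pos (hT j) hl
  set L : ℝ := 1 + ∑ j, K / h' j with hL
  have hLn : ∀ j, 0 ≤ K / h' j := fun j => (div_pos hK0 (h'0 j)).le
  have hL1 : 1 ≤ L := by
    rw [hL]
    have := Finset.sum_nonneg fun j (_ : j ∈ (Finset.univ : Finset (Fin k))) => hLn j
    linarith
  have hadm := hA L h' (fun _ => 1) hL1 (fun j => ⟨h'0 j, ?_, ?_⟩) (fun j => by simp)
  · have e1 : cb f h u T = fun x => (fun y => ∑ j, (1 : ℝ) * (u j * f j (y / h' j))) (x / (K * S)) := by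
      funext x
      unfold cb
      refine Finset.sum_congr rfl fun j _ => ?_
      rw [one_mul]
      congr 2
      rw [hh']
      have := (hT j).ne'
      field_simp
    rw [e1, tvq_dil (fun ξ => (FF_hasDerivAt hadm.c2 ξ).differentiableAt) hl]
    have h1 : tvq (fun y => ∑ j, (1 : ℝ) * (u j * f j (y / h' j))) ≤ 1 := hadm.tv
    calc _ ≤ K * S * 1 := mul_le_mul_of_nonneg_left h1 hl.le
      _ = _ := mul_one _
  · rw [hh']
    simp only
    rw [div_le_div_iff₀ hl hK0]
    have := hS j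
    nlinarith
  · have h1 : K / h' j ≤ L := by
      rw [hL]
      have := Finset.single_le_sum (f := fun j => K / h' j) (fun i _ => hLn i) (Finset.mem_univ j)
      linarith
    rw [div_le_iff₀ (h'0 j)] at h1
    linarith

lemma supp_ev (hs : ∀ j, HasCompactSupport (f j)) (hh : Scales h) (u : Fin k → ℝ) :
    ∀ᶠ T : ℝ in atTop, ∀ x, 1 / 2 ≤ |x| → cb f h u T x = 0 := by
  have h1 : ∀ᶠ T : ℝ in atTop, ∀ j, ∀ x, 1 / 2 ≤ |x| → f j (x / h j T) = 0 := by
    rw [eventually_all]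
    intro j
    obtain ⟨A, hA, hA'⟩ := FINL.bd (hs j)
    have h2 : ∀ᶠ T in atTop, h j T < 1 / (2 * A) := (hh.zero j).eventually (gt_mem_nhds (by positivity))
    filter_upwards [FINL.pos hh, h2] with T h3 h4 x hx
    apply hA'
    have h5 := h3 j
    rw [lt_div_iff₀ (by positivity)] at h4
    rw [abs_div, abs_of_pos h5, le_div_iff₀ h5]
    linarith
  filter_upwards [h1] with T hT x hx
  unfold cb
  exact Finset.sum_eq_zero fun j _ => by rw [hT j x hx, mul_zero]

/-- the centred exponential of the field -/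
noncomputable def gf (f : Fin k → ℝ → ℝ) (h : Fin k → ℝ → ℝ) (u : Fin k → ℝ) (T : ℝ) : ℝ → ℂ :=
  (Icc (T - 1) (2 * T + 1)).indicator fun s => cexp (I * (XF (cb f h u T) T s : ℂ)) - cexp (-(sg (cb f h u T) : ℂ) / 2)

lemma gf_prop (hf : ∀ j, ContDiff ℝ 2 (f j)) (hs : ∀ j, HasCompactSupport (f j)) (hh : Scales h)
    (u : Fin k → ℝ) : ∀ᶠ T : ℝ in atTop, Measurable (gf f h u T) ∧ ∀ t, ‖gf f h u T t‖ ≤ 2 := by
  obtain ⟨V, hV, hA⟩ := adm_ev t_ADM hf hs hh u
  filter_upwards [hA 1 one_pos, eventually_ge_atTop (4 : ℝ)] with T h1 h2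
  have h3 := h1 (fun _ => 1) (fun j => by simp)
  have h4 : (fun x => ∑ j, (1 : ℝ) * (u j * f j (x / h j T))) = cb f h u T := by
    funext x
    exact Finset.sum_congr rfl fun j _ => one_mul _
  rw [h4] at h3
  have hcont : ContinuousOn (XF (cb f h u T) T) (Icc (T - 1) (2 * T + 1)) := XF_contOn h3.c2 (by linarith)
  have hgc : ContinuousOn (fun s => cexp (I * (XF (cb f h u T) T s : ℂ)) - cexp (-(sg (cb f h u T) : ℂ) / 2))
      (Icc (T - 1) (2 * T + 1)) := by
    have h3 : ContinuousOn (fun s => (XF (cb f h u T) T s : ℂ)) (Icc (T - 1) (2 * T + 1)) :=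
      Complex.continuous_ofReal.comp_continuousOn hcont
    exact ((continuousOn_const.mul h3).cexp).sub continuousOn_const
  refine ⟨?_, fun t => ?_⟩
  · classical
    have := hgc.measurable_piecewise (g := (0 : ℝ → ℂ)) continuousOn_const measurableSet_Icc
    rwa [Set.piecewise_eq_indicator] at this
  · refine (norm_indicator_le_norm_self _ _).trans ((norm_sub_le _ _).trans ?_)
    have q1 : ‖cexp (I * (XF (cb f h u T) T t : ℂ))‖ = 1 := by
      rw [mul_comm]; exact Complex.norm_exp_ofReal_mul_I _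
    rw [q1]
    linarith [norm_exp_gauss (sg_nonneg (cb f h u T))]

/-- **decorrelation of the field at separated points** -/
theorem dcr_field (hf : ∀ j, ContDiff ℝ 2 (f j)) (hs : ∀ j, HasCompactSupport (f j)) (hh : Scales h)
    (u : Fin k → ℝ) {H : ℝ → ℝ} (hH : ∀ᶠ T : ℝ in atTop, 0 < H T) (hH0 : Tendsto H atTop (𝓝 0))
    (hHh : ∀ R : ℝ, ∀ᶠ T : ℝ in atTop, ∀ j, h j T * R ≤ H T) : Dcr (gf f h u) H := by
  intro ι _ _ _ ρ C ε hρ hε
  set n : ℝ := (Fintype.card ι : ℝ) with hn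
  have hn1 : 1 ≤ n := by
    rw [hn]
    exact_mod_cast Fintype.card_pos
  obtain ⟨V, hV, hA⟩ := adm_ev t_ADM hf hs hh u
  obtain ⟨η, T₀, hη, hη2, hT₀, hmain⟩ := prod_dec (V := V) (ε := ε / (2 * 2 ^ Fintype.card ι)) hV (by positivity) ι
  obtain ⟨K, hK, htv⟩ := tvq_ev hf hs hh u
  set κ : ℝ := ε / (2 * 2 ^ Fintype.card ι * n ^ 2) with hκ
  have hκ0 : 0 < κ := by positivity
  have hCH : ∀ᶠ T : ℝ in atTop, C * H T < η := by
    have : Tendsto (fun T => C * H T) atTop (𝓝 (C * 0)) := hH0.const_mul C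
    rw [mul_zero] at this
    exact this.eventually (gt_mem_nhds hη)
  filter_upwards [hA η hη, eventually_ge_atTop T₀, hCH, hH, supp_ev hs hh u, htv, hHh (K / (κ * ρ))]
    with T h1 h2 h3 h4 h5 h6 h7
  intro x hx hsep σ A B hTA hAB hB
  have hT0 : 0 < T := by linarith
  have hF := h1 (fun _ => 1) (fun j => by simp)
  have e4 : (fun x => ∑ j, (1 : ℝ) * (u j * f j (x / h j T))) = cb f h u T := by
    funext x
    exact Finset.sum_congr rfl fun j _ => one_mul _
  rw [e4] at hF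
  set F := cb f h u T with hFdef
  have hx2 : ∀ j, |x j| ≤ η := fun j => (hx j).trans h3.le
  -- the bound for the variation
  have hS : tvq F ≤ κ * (ρ * H T) := by
    have h8 := h6 (H T * (κ * ρ) / K) (fun j => by
      have := h7 j
      rw [le_div_iff₀ (by linarith)]
      rw [mul_div_assoc', div_le_iff₀ (by positivity)] at this
      linarith) (by positivity)
    calc tvq F ≤ K * (H T * (κ * ρ) / K) := h8
      _ = κ * (ρ * H T) := by field_simp
  have hcc : ∀ i j, i ≠ j → |cc F (x i - x j)| ≤ κ := by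
    intro i j hij
    have h8 := hsep i j hij
    have h9 : 0 < ρ * H T := by positivity
    have h10 : x i - x j ≠ 0 := by
      intro h
      rw [h, abs_zero] at h8
      linarith
    refine (cc_decay hF.c2 h10).trans ?_
    rw [div_le_iff₀ (by linarith)]
    calc tvq F ≤ κ * (ρ * H T) := hS
      _ ≤ κ * |x i - x j| := by gcongr
  set s : ι → ℝ := fun j => if σ j then 1 else -1 with hs'
  have hs1 : ∀ j, |s j| = 1 := by
    intro j
    rw [hs']
    simp only
    split_ifs <;> simp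
  have key := hmain T h2 F hF h5 κ hκ0.le x hx2 hcc s hs1 A B hTA hAB hB
  have e5 : (∫ t in A..B, ∏ j, cj (σ j) (gf f h u T (t + x j))) =
      ∫ t in A..B, ∏ j, (cexp (I * ((s j * XF F T (t + x j) : ℝ) : ℂ)) - cexp (-(sg F : ℂ) / 2)) := by
    refine intervalIntegral.integral_congr fun t ht => ?_
    rw [uIcc_of_le hAB] at ht
    refine Finset.prod_congr rfl fun j _ => ?_
    have h8 := abs_le.1 (hx2 j)
    have h9 : t + x j ∈ Icc (T - 1) (2 * T + 1) := ⟨by linarith [ht.1], by linarith [ht.2]⟩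
    unfold gf
    rw [indicator_of_mem h9, ← hFdef, hs']
    simp only
    cases σ j
    · simp only [cj, map_sub, ← Complex.exp_conj, map_mul, Complex.conj_I, Complex.conj_ofReal, map_div₀, map_neg,
        Bool.false_eq_true, if_false, map_ofNat]
      congr 2
      push_cast
      ring
    · simp only [cj, if_true, one_mul]
  rw [e5]
  refine key.trans (le_of_eq ?_)
  rw [hκ]
  field_simp
  ring

end Pool.Agent.H493.DC
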