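import Pool.Agent.H493.DC.Quench

set_option autoImplicit false

/-! Several shifts of one test function: the joint characteristic function at several points. -/

open Complex Filter Topology Set MeasureTheory

namespace Pool.Agent.H493.DC

open Pool.Agent.H203.ME Pool.Agent.H203.ME.VARL Pool.Agent.H493.MX

variable {ι : Type} [Fintype ι]

/-- combination of shifts -/
noncomputable def msh (F : ℝ → ℝ) (c x : ι → ℝ) : ℝ → ℝ := fun y => ∑ j, c j * sh F (x j) y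

lemma c2c_msh {F : ℝ → ℝ} (hF : C2c F) (h2 : ∀ x, 1 / 2 ≤ |x| → F x = 0) (c : ι → ℝ) {x : ι → ℝ}
    (hx : ∀ j, |x j| ≤ 1 / 2) : C2c (msh F c x) := by
  refine ⟨ContDiff.sum fun j _ => contDiff_const.mul (c2c_shift hF h2 (hx j)).cd, fun y hy => ?_⟩
  exact Finset.sum_eq_zero fun j _ => by rw [(c2c_shift hF h2 (hx j)).supp y hy, mul_zero]

lemma FF_msh {F : ℝ → ℝ} (hF : C2c F) (h2 : ∀ x, 1 / 2 ≤ |x| → F x = 0) (c : ι → ℝ) {x : ι → ℝ}
    (hx : ∀ j, |x j| ≤ 1 / 2) (ξ : ℝ) : FF (msh F c x) ξ = (∑ j, (c j : ℂ) * ph1 (x j) ξ) * FF F ξ := by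
  unfold FF msh
  have hi : ∀ j ∈ Finset.univ, Integrable fun s : ℝ => (c j : ℂ) *
      ((sh F (x j) s : ℂ) * cexp (-(((ξ * s : ℝ) : ℂ) * I))) := fun j _ =>
    (int_mul (c2c_shift hF h2 (hx j)).cd.continuous (hcs (c2c_shift hF h2 (hx j)).supp) _ (cont_e ξ)).const_mul _
  have e : (fun s : ℝ => (((∑ j, c j * sh F (x j) s : ℝ)) : ℂ) * cexp (-(((ξ * s : ℝ) : ℂ) * I))) =
      fun s : ℝ => ∑ j, (c j : ℂ) * ((sh F (x j) s : ℂ) * cexp (-(((ξ * s : ℝ) : ℂ) * I))) := by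
    funext s
    push_cast
    rw [Finset.sum_mul]
    exact Finset.sum_congr rfl fun j _ => by ring
  rw [e, integral_finsetSum _ hi, Finset.sum_mul]
  refine Finset.sum_congr rfl fun j _ => ?_
  rw [integral_const_mul]
  have := FF_shift F (x j) ξ
  unfold FF at this
  rw [this]
  ring

lemma dFF_msh_le {F : ℝ → ℝ} (hF : C2c F) (h2 : ∀ x, 1 / 2 ≤ |x| → F x = 0) {c : ι → ℝ}
    (hc : ∀ j, |c j| ≤ 1) {x : ι → ℝ} {H : ℝ} (hx : ∀ j, |x j| ≤ H) (hH : H ≤ 1 / 2) (ξ : ℝ) :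
    ‖deriv (FF (msh F c x)) ξ‖ ≤ (Fintype.card ι : ℝ) * (H * ‖FF F ξ‖ + ‖deriv (FF F) ξ‖) := by
  have hx2 : ∀ j, |x j| ≤ 1 / 2 := fun j => (hx j).trans hH
  have e : FF (msh F c x) = fun ξ => ∑ j, (c j : ℂ) * FF (sh F (x j)) ξ := by
    funext ξ
    rw [FF_msh hF h2 c hx2, Finset.sum_mul]
    exact Finset.sum_congr rfl fun j _ => by rw [FF_shift]; ring
  have h3 : HasDerivAt (fun ξ => ∑ j, (c j : ℂ) * FF (sh F (x j)) ξ)
      (∑ j, (c j : ℂ) * deriv (FF (sh F (x j))) ξ) ξ :=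
    HasDerivAt.fun_sum fun j _ => (FF_diff (c2c_shift hF h2 (hx2 j)) ξ).const_mul _
  rw [e, h3.deriv]
  refine (norm_sum_le _ _).trans ?_
  have : ∀ j ∈ Finset.univ, ‖(c j : ℂ) * deriv (FF (sh F (x j))) ξ‖ ≤ H * ‖FF F ξ‖ + ‖deriv (FF F) ξ‖ := by
    intro j _
    rw [norm_mul, Complex.norm_real, Real.norm_eq_abs]
    have h4 := dFF_shift_le hF (x j) ξ
    have h5 : |x j| * ‖FF F ξ‖ ≤ H * ‖FF F ξ‖ := mul_le_mul_of_nonneg_right (hx j) (norm_nonneg _)
    calc _ ≤ 1 * ‖deriv (FF (sh F (x j))) ξ‖ := mul_le_mul_of_nonneg_right (hc j) (norm_nonneg _)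
      _ ≤ _ := by linarith
  refine (Finset.sum_le_sum this).trans (le_of_eq ?_)
  rw [Finset.sum_const, nsmul_eq_mul]
  rfl

lemma norm_ph_le {c : ι → ℝ} (hc : ∀ j, |c j| ≤ 1) (x : ι → ℝ) (ξ : ℝ) :
    ‖∑ j, (c j : ℂ) * ph1 (x j) ξ‖ ≤ (Fintype.card ι : ℝ) := by
  refine (norm_sum_le _ _).trans ?_
  have : ∀ j ∈ Finset.univ, ‖(c j : ℂ) * ph1 (x j) ξ‖ ≤ 1 := by
    intro j _
    rw [norm_mul, Complex.norm_real, Real.norm_eq_abs, ph1_norm, mul_one]
    exact hc j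
  refine (Finset.sum_le_sum this).trans (le_of_eq ?_)
  rw [Finset.sum_const, nsmul_eq_mul, mul_one]
  rfl

/-- combinations of shifts of admissible functions are admissible -/
theorem adm_msh {F : ℝ → ℝ} {η V L H : ℝ} (hL0 : 0 ≤ L) (hA : Adm η V L F)
    (h2 : ∀ x, 1 / 2 ≤ |x| → F x = 0) {c : ι → ℝ} (hc : ∀ j, |c j| ≤ 1) {x : ι → ℝ}
    (hx : ∀ j, |x j| ≤ H) (hH0 : 0 ≤ H) (hH : H ≤ 1 / 2) :
    Adm ((Fintype.card ι : ℝ) ^ 2 * (η + 2 * H * V)) ((Fintype.card ι : ℝ) ^ 2 * V) L (msh F c x) := by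
  have hF := hA.c2
  have hx2 : ∀ j, |x j| ≤ 1 / 2 := fun j => (hx j).trans hH
  have hcm := c2c_msh hF h2 c hx2
  have hV0 : 0 ≤ V := le_trans (setIntegral_nonneg measurableSet_Ioi fun ξ hξ => by
    have : (0 : ℝ) < ξ := hξ
    positivity) hA.va
  have hη : 0 ≤ η := le_trans (integral_nonneg fun _ => abs_nonneg _) hA.l1
  set n : ℝ := (Fintype.card ι : ℝ) with hn
  have hn0 : 0 ≤ n := Nat.cast_nonneg _
  have hnn : n ≤ n ^ 2 := by
    rw [hn]
    have : Fintype.card ι ≤ (Fintype.card ι) ^ 2 := Nat.le_self_pow two_ne_zero _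
    exact_mod_cast this
  have hcs' : ∀ j, C2c (sh F (x j)) := fun j => c2c_shift hF h2 (hx2 j)
  have hint : ∀ {G : ℝ → ℝ}, Continuous G → (∀ x, 1 ≤ |x| → G x = 0) → Integrable G := fun hG hG1 =>
    hG.integrable_of_hasCompactSupport (hcs hG1)
  have hL : ∀ ξ, ‖FF (msh F c x) ξ‖ ≤ n * ‖FF F ξ‖ := fun ξ => by
    rw [FF_msh hF h2 c hx2, norm_mul]
    exact mul_le_mul_of_nonneg_right (norm_ph_le hc x ξ) (norm_nonneg _)
  refine ⟨hcm, ?_, ?_, ?_, ?_⟩
  · have i1 : ∀ j ∈ Finset.univ, Integrable fun y => |sh F (x j) y| := fun j _ =>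
      (hint (hcs' j).cd.continuous (hcs' j).supp).abs
    have h3 : ∫ y : ℝ, |msh F c x y| ≤ ∫ y : ℝ, ∑ j, |sh F (x j) y| := by
      refine integral_mono (hint hcm.cd.continuous hcm.supp).abs (integrable_finsetSum _ i1) fun y => ?_
      refine (Finset.abs_sum_le_sum_abs _ _).trans (Finset.sum_le_sum fun j _ => ?_)
      rw [abs_mul]
      exact mul_le_of_le_one_left (abs_nonneg _) (hc j)
    rw [integral_finsetSum _ i1] at h3
    simp only [l1_shift, Finset.sum_const, nsmul_eq_mul] at h3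
    have h4 : n * ∫ x : ℝ, |F x| ≤ n ^ 2 * (η + 2 * H * V) := by
      have h5 : 0 ≤ 2 * H * V := by positivity
      calc n * ∫ x : ℝ, |F x| ≤ n * (η + 2 * H * V) :=
            mul_le_mul_of_nonneg_left (by linarith [hA.l1]) hn0
        _ ≤ n ^ 2 * (η + 2 * H * V) := mul_le_mul_of_nonneg_right hnn (by positivity)
    exact h3.trans h4
  · have hdd : ∀ {G : ℝ → ℝ}, C2c G → Differentiable ℝ G ∧ Differentiable ℝ (deriv G) ∧
        Continuous (deriv (deriv G)) := by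
      intro G hG
      have h1 : ContDiff ℝ 1 G := hG.cd.of_le (by norm_num)
      have h2 : ContDiff ℝ 1 (deriv G) := by
        have := hG.cd
        rw [show (2 : WithTop ℕ∞) = 1 + 1 by norm_num] at this
        exact (contDiff_succ_iff_deriv.1 this).2.2
      exact ⟨h1.differentiable one_ne_zero, h2.differentiable one_ne_zero, h2.continuous_deriv le_rfl⟩
    have hds : ∀ {G : ℝ → ℝ}, C2c G → HasCompactSupport (deriv (deriv G)) := fun hG =>
      (hcs hG.supp).deriv.deriv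
    have e : deriv (deriv (msh F c x)) = fun y => ∑ j, c j * deriv (deriv (sh F (x j))) y := by
      have e1 : deriv (msh F c x) = fun y => ∑ j, c j * deriv (sh F (x j)) y := by
        funext y
        have : HasDerivAt (fun y => ∑ j, c j * sh F (x j) y) (∑ j, c j * deriv (sh F (x j)) y) y :=
          HasDerivAt.fun_sum fun j _ => (((hdd (hcs' j)).1 y).hasDerivAt).const_mul _
        exact this.deriv
      rw [e1]
      funext y
      have : HasDerivAt (fun y => ∑ j, c j * deriv (sh F (x j)) y)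
          (∑ j, c j * deriv (deriv (sh F (x j))) y) y :=
        HasDerivAt.fun_sum fun j _ => (((hdd (hcs' j)).2.1 y).hasDerivAt).const_mul _
      exact this.deriv
    have i1 : ∀ j ∈ Finset.univ, Integrable fun y => |deriv (deriv (sh F (x j))) y| := fun j _ =>
      ((hdd (hcs' j)).2.2.integrable_of_hasCompactSupport (hds (hcs' j))).abs
    have h3 : ∫ y : ℝ, |deriv (deriv (msh F c x)) y| ≤ ∫ y : ℝ, ∑ j, |deriv (deriv (sh F (x j))) y| := by
      refine integral_mono ((hdd hcm).2.2.integrable_of_hasCompactSupport (hds hcm)).abs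
        (integrable_finsetSum _ i1) fun y => ?_
      rw [e]
      refine (Finset.abs_sum_le_sum_abs _ _).trans (Finset.sum_le_sum fun j _ => ?_)
      rw [abs_mul]
      exact mul_le_of_le_one_left (abs_nonneg _) (hc j)
    rw [integral_finsetSum _ i1] at h3
    simp only [l2_shift, Finset.sum_const, nsmul_eq_mul] at h3
    have h5 : 0 ≤ 2 * H * V := by positivity
    have h4 : n * ∫ x : ℝ, |deriv (deriv F) x| ≤ n ^ 2 * (η + 2 * H * V) * L := by
      calc n * ∫ x : ℝ, |deriv (deriv F) x| ≤ n * ((η + 2 * H * V) * L) := by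
            refine mul_le_mul_of_nonneg_left (hA.l2.trans ?_) hn0
            exact mul_le_mul_of_nonneg_right (by linarith) hL0
        _ ≤ n ^ 2 * ((η + 2 * H * V) * L) := mul_le_mul_of_nonneg_right hnn (by positivity)
        _ = _ := by ring
    exact h3.trans h4
  · have hi1 := ph_int hF
    have hi2 := ph_int hcm
    have h3 : ∫ ξ in Ioi (0 : ℝ), ph (msh F c x) ξ ≤ ∫ ξ in Ioi (0 : ℝ), n ^ 2 * ph F ξ := by
      refine setIntegral_mono_on hi2 (hi1.const_mul _) measurableSet_Ioi fun ξ hξ => ?_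
      have hξ0 : (0 : ℝ) < ξ := hξ
      rw [ph_eq, ph_eq]
      have h5 : ‖FF (msh F c x) ξ‖ ^ 2 ≤ (n * ‖FF F ξ‖) ^ 2 := by
        have := hL ξ
        gcongr
      calc ξ * ‖FF (msh F c x) ξ‖ ^ 2 ≤ ξ * (n * ‖FF F ξ‖) ^ 2 := mul_le_mul_of_nonneg_left h5 hξ0.le
        _ = _ := by ring
    rw [integral_const_mul] at h3
    have h5 : ∫ ξ in Ioi (0 : ℝ), ph F ξ ≤ V := hA.va
    have h6 : ∫ ξ in Ioi (0 : ℝ), ph (msh F c x) ξ = ∫ ξ in Ioi (0 : ℝ), ξ * ‖FF (msh F c x) ξ‖ ^ 2 := rfl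
    rw [← h6]
    exact h3.trans (mul_le_mul_of_nonneg_left h5 (by positivity))
  · have hi1 := tv_int hF
    have hi2 := ph_int hF
    have hle : ∀ ξ ∈ Ioi (0 : ℝ), ‖FF (msh F c x) ξ‖ ^ 2 +
        2 * ξ * ‖FF (msh F c x) ξ‖ * ‖deriv (FF (msh F c x)) ξ‖ ≤
        n ^ 2 * (‖FF F ξ‖ ^ 2 + 2 * ξ * ‖FF F ξ‖ * ‖deriv (FF F) ξ‖) + n ^ 2 * (2 * H) * ph F ξ := by
      intro ξ hξ
      have hξ0 : (0 : ℝ) < ξ := hξ
      have h3 : ‖deriv (FF (msh F c x)) ξ‖ ≤ n * (H * ‖FF F ξ‖ + ‖deriv (FF F) ξ‖) :=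
        dFF_msh_le hF h2 hc hx hH ξ
      rw [ph_eq]
      have h4 : ‖FF (msh F c x) ξ‖ ^ 2 ≤ (n * ‖FF F ξ‖) ^ 2 := by
        have := hL ξ
        gcongr
      have h5 : 2 * ξ * ‖FF (msh F c x) ξ‖ * ‖deriv (FF (msh F c x)) ξ‖ ≤
          2 * ξ * (n * ‖FF F ξ‖) * (n * (H * ‖FF F ξ‖ + ‖deriv (FF F) ξ‖)) := by
        refine mul_le_mul (mul_le_mul_of_nonneg_left (hL ξ) (by positivity)) h3 (norm_nonneg _)
          (by positivity)
      nlinarith
    have hi3 : IntegrableOn (fun ξ => n ^ 2 * (‖FF F ξ‖ ^ 2 + 2 * ξ * ‖FF F ξ‖ * ‖deriv (FF F) ξ‖) +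
        n ^ 2 * (2 * H) * ph F ξ) (Ioi 0) := (hi1.const_mul _).add (hi2.const_mul _)
    have hi4 := tv_int hcm
    refine (setIntegral_mono_on hi4 hi3 measurableSet_Ioi hle).trans ?_
    rw [integral_add (hi1.const_mul _) (hi2.const_mul _), integral_const_mul, integral_const_mul]
    have h5 : ∫ ξ in Ioi (0 : ℝ), ph F ξ ≤ V := hA.va
    have h6 := hA.tv
    have h7 : n ^ 2 * (2 * H) * ∫ ξ in Ioi (0 : ℝ), ph F ξ ≤ n ^ 2 * (2 * H) * V :=
      mul_le_mul_of_nonneg_left h5 (by positivity)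
    have h8 : n ^ 2 * ∫ ξ in Ioi (0 : ℝ), (‖FF F ξ‖ ^ 2 + 2 * ξ * ‖FF F ξ‖ * ‖deriv (FF F) ξ‖) ≤ n ^ 2 * η :=
      mul_le_mul_of_nonneg_left h6 (by positivity)
    calc _ ≤ n ^ 2 * η + n ^ 2 * (2 * H) * V := add_le_add h8 h7
      _ = _ := by ring

lemma cc_zero (F : ℝ → ℝ) : cc F 0 = sg F := by
  unfold cc sg
  simp [ph_eq]

lemma norm_ph_sq (c x : ι → ℝ) (ξ : ℝ) : ‖∑ j, (c j : ℂ) * ph1 (x j) ξ‖ ^ 2 =
    ∑ i, ∑ j, c i * c j * Real.cos ((x i - x j) * ξ) := by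
  have e : ∀ a : ℝ, ph1 a ξ = ((Real.cos (ξ * a) : ℝ) : ℂ) - ((Real.sin (ξ * a) : ℝ) : ℂ) * I := by
    intro a
    unfold ph1
    rw [show -(((ξ * a : ℝ) : ℂ) * I) = ((-(ξ * a) : ℝ) : ℂ) * I by push_cast; ring, Complex.exp_mul_I,
      ← Complex.ofReal_cos, ← Complex.ofReal_sin, Real.cos_neg, Real.sin_neg]
    push_cast
    ring
  have e2 : (∑ j, (c j : ℂ) * ph1 (x j) ξ) = ((∑ j, c j * Real.cos (ξ * x j) : ℝ) : ℂ) -
      ((∑ j, c j * Real.sin (ξ * x j) : ℝ) : ℂ) * I := by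
    push_cast
    rw [Finset.sum_mul, ← Finset.sum_sub_distrib]
    refine Finset.sum_congr rfl fun j _ => ?_
    rw [e]
    push_cast
    ring
  rw [e2, ← Complex.normSq_eq_norm_sq, Complex.normSq_apply]
  simp only [Complex.sub_re, Complex.sub_im, Complex.ofReal_re, Complex.ofReal_im, Complex.mul_re,
    Complex.mul_im, Complex.I_re, Complex.I_im, mul_zero, mul_one, sub_zero, zero_sub, add_zero]
  rw [neg_mul_neg, Finset.sum_mul_sum, Finset.sum_mul_sum, ← Finset.sum_add_distrib]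
  refine Finset.sum_congr rfl fun i _ => ?_
  rw [← Finset.sum_add_distrib]
  refine Finset.sum_congr rfl fun j _ => ?_
  rw [show (x i - x j) * ξ = ξ * x i - ξ * x j by ring, Real.cos_sub]
  ring

lemma sg_msh {F : ℝ → ℝ} (hF : C2c F) (h2 : ∀ x, 1 / 2 ≤ |x| → F x = 0) (c : ι → ℝ) {x : ι → ℝ}
    (hx : ∀ j, |x j| ≤ 1 / 2) : sg (msh F c x) = ∑ i, ∑ j, c i * c j * cc F (x i - x j) := by
  unfold sg cc
  have e : ∀ ξ : ℝ, ξ * ‖FF (msh F c x) ξ‖ ^ 2 =
      ∑ i, ∑ j, c i * c j * (ph F ξ * Real.cos ((x i - x j) * ξ)) := by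
    intro ξ
    rw [FF_msh hF h2 c hx, norm_mul, mul_pow, norm_ph_sq, ph_eq, Finset.sum_mul, Finset.mul_sum]
    refine Finset.sum_congr rfl fun i _ => ?_
    rw [Finset.sum_mul, Finset.mul_sum]
    exact Finset.sum_congr rfl fun j _ => by ring
  simp only [e]
  have hi : ∀ i j, Integrable (fun ξ => c i * c j * (ph F ξ * Real.cos ((x i - x j) * ξ)))
      (volume.restrict (Ioi 0)) := fun i j => (phcos_int hF _).const_mul _
  rw [integral_finsetSum _ fun i _ => integrable_finsetSum _ fun j _ => hi i j, Finset.mul_sum]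
  refine Finset.sum_congr rfl fun i _ => ?_
  rw [integral_finsetSum _ fun j _ => hi i j, Finset.mul_sum]
  refine Finset.sum_congr rfl fun j _ => ?_
  rw [integral_const_mul]
  ring

lemma XF_msh {F : ℝ → ℝ} (hF : C2c F) (h2 : ∀ x, 1 / 2 ≤ |x| → F x = 0) (c : ι → ℝ) {x : ι → ℝ}
    (hx : ∀ j, |x j| ≤ 1 / 2) {T t : ℝ} (hT : 3 ≤ T) (h1 : T ≤ t) (h3 : t ≤ 2 * T) :
    XF (msh F c x) T t = ∑ j, c j * XF F T (t + x j) := by
  have hc : C2c (msh F c x) := c2c_msh hF h2 c hx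
  have hcs' : ∀ j, C2c (sh F (x j)) := fun j => c2c_shift hF h2 (hx j)
  rw [XF_eq hc (U1 := T - 1) (U2 := 2 * T + 1) (by linarith) (by linarith) (by linarith)]
  have h4 : ∀ j, XF F T (t + x j) = (∑ s ∈ H370.Zf riemannZeta (T - 1) (2 * T + 1), (mz s : ℝ) * sh F (x j) (s.im - t)) -
      Real.log T / (2 * Real.pi) * ∫ y : ℝ, sh F (x j) y := fun j => by
    rw [← XF_shift]
    exact XF_eq (hcs' j) (by linarith) (by linarith) (by linarith)
  simp_rw [h4]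
  have e1 : ∫ y : ℝ, msh F c x y = ∑ j, c j * ∫ y : ℝ, sh F (x j) y := by
    unfold msh
    rw [integral_finsetSum _ fun j _ => ((hcs' j).int.const_mul (c j))]
    simp_rw [integral_const_mul]
  rw [e1]
  unfold msh
  simp_rw [mul_sub, Finset.sum_sub_distrib, Finset.mul_sum]
  congr 1
  · rw [Finset.sum_comm]
    exact Finset.sum_congr rfl fun j _ => Finset.sum_congr rfl fun s _ => by ring
  · exact Finset.sum_congr rfl fun j _ => by ring

end Pool.Agent.H493.DC
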