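import Pool.Agent.H493.DC.Sca

set_option autoImplicit false

/-! From characteristic functions to bounded continuous functions, uniformly in piecewise phases. -/

open Complex Filter Topology Set MeasureTheory ProbabilityTheory
open scoped BoundedContinuousFunction RealInnerProductSpace

namespace Pool.Agent.H493.DC

open Pool.Agent.H203.ME Pool.Agent.H203.ME.CLTL Pool.Agent.H203.ME.FINL Pool.Agent.H493.MX

/-- partitions of a part of `[T, 2T]` into `N` windows, with phases -/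
structure Cd (d : ℕ) (K M : ℝ → ℝ) (T : ℝ) (N : ℕ) (a : ℕ → ℝ) (θ : ℕ → ℝ → ℝ) : Prop where
  nw : (N : ℝ) ≤ M T
  lo : T ≤ a 0
  hi : a N ≤ 2 * T
  mono : ∀ k < N, a k ≤ a (k + 1)
  cd : ∀ k, ContDiff ℝ (d + 1 : ℕ) (θ k)
  bd : ∀ k t, |iteratedDeriv (d + 1) (θ k) t| ≤ K T

variable {d N : ℕ} {K M : ℝ → ℝ} {T : ℝ} {a : ℕ → ℝ} {θ : ℕ → ℝ → ℝ}

lemma Cd.neg (hc : Cd d K M T N a θ) : Cd d K M T N a (fun k t => - θ k t) := by
  refine ⟨hc.nw, hc.lo, hc.hi, hc.mono, fun k => (hc.cd k).neg, fun k t => ?_⟩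
  rw [iteratedDeriv_fun_neg, abs_neg]
  exact hc.bd k t

lemma Cd.add_const (hc : Cd d K M T N a θ) (c : ℕ → ℝ) : Cd d K M T N a (fun k t => θ k t + c k) := by
  refine ⟨hc.nw, hc.lo, hc.hi, hc.mono, fun k => (hc.cd k).add contDiff_const, fun k t => ?_⟩
  have e : iteratedDeriv (d + 1) (fun t => θ k t + c k) = iteratedDeriv (d + 1) (θ k) := by
    rw [iteratedDeriv_succ', iteratedDeriv_succ']
    congr 1
    funext t
    exact deriv_add_const _
  rw [e]
  exact hc.bd k t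

lemma Cd.zero (hc : Cd d K M T N a θ) : Cd d K M T N a (fun _ _ => 0) := by
  refine ⟨hc.nw, hc.lo, hc.hi, hc.mono, fun k => contDiff_const, fun k t => ?_⟩
  rw [iteratedDeriv_const]
  simp only [Nat.add_eq_zero_iff, one_ne_zero, and_false, if_false, abs_zero]
  exact (abs_nonneg _).trans (hc.bd k t)

lemma Cd.cont (hc : Cd d K M T N a θ) (k : ℕ) : Continuous (θ k) := (hc.cd k).continuous

/-- the weights `(1 + cos θ)/2` on the windows -/
noncomputable def rwt (N : ℕ) (a : ℕ → ℝ) (θ : ℕ → ℝ → ℝ) (t : ℝ) : ℝ :=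
  ∑ k ∈ Finset.range N, (Ioc (a k) (a (k + 1))).indicator (fun t => (1 + Real.cos (θ k t)) / 2) t

lemma rwt_cast (N : ℕ) (a : ℕ → ℝ) (θ : ℕ → ℝ → ℝ) (t : ℝ) : (rwt N a θ t : ℂ) =
    1 / 2 * pw N a (fun _ _ => 0) t + 1 / 4 * pw N a θ t + 1 / 4 * pw N a (fun k t => - θ k t) t := by
  unfold rwt pw
  push_cast
  rw [Finset.mul_sum, Finset.mul_sum, Finset.mul_sum, ← Finset.sum_add_distrib, ← Finset.sum_add_distrib]
  refine Finset.sum_congr rfl fun k _ => ?_
  by_cases ht : t ∈ Ioc (a k) (a (k + 1))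
  · simp only [indicator_of_mem ht]
    rw [cos_split]
    push_cast
    ring
  · simp only [indicator_of_notMem ht]
    simp

lemma pw_split (N : ℕ) (a : ℕ → ℝ) (θ : ℕ → ℝ → ℝ) (t : ℝ) : pw N a θ t =
    ((2 * rwt N a θ t - rwt N a (fun _ _ => 0) t : ℝ) : ℂ) +
    ((2 * rwt N a (fun k t => θ k t + -(Real.pi / 2)) t - rwt N a (fun _ _ => 0) t : ℝ) : ℂ) * I := by
  unfold rwt pw
  rw [Finset.mul_sum, Finset.mul_sum, ← Finset.sum_sub_distrib, ← Finset.sum_sub_distrib]
  push_cast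
  rw [Finset.sum_mul, ← Finset.sum_add_distrib]
  refine Finset.sum_congr rfl fun k _ => ?_
  by_cases ht : t ∈ Ioc (a k) (a (k + 1))
  · simp only [indicator_of_mem ht]
    rw [← sub_eq_add_neg, Real.cos_sub_pi_div_two, Real.cos_zero, Complex.exp_mul_I]
    push_cast
    ring
  · simp only [indicator_of_notMem ht]
    simp

lemma rwt_prop (ha : ∀ k < N, a k ≤ a (k + 1)) (hθ : ∀ k, Continuous (θ k)) :
    Measurable (rwt N a θ) ∧ ∀ t, 0 ≤ rwt N a θ t ∧ rwt N a θ t ≤ 1 := by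
  have c : ∀ x : ℝ, 0 ≤ (1 + Real.cos x) / 2 ∧ (1 + Real.cos x) / 2 ≤ 1 := fun x => by
    have c1 := Real.neg_one_le_cos x
    have c2 := Real.cos_le_one x
    constructor <;> linarith
  constructor
  · unfold rwt
    refine Finset.measurable_fun_sum _ fun k _ => ?_
    have := hθ k
    exact Measurable.indicator (Continuous.measurable (by fun_prop)) measurableSet_Ioc
  · intro t
    by_cases h : ∃ k < N, t ∈ Ioc (a k) (a (k + 1))
    · obtain ⟨k, hk, ht⟩ := h
      have e : rwt N a θ t = (1 + Real.cos (θ k t)) / 2 := by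
        unfold rwt
        rw [Finset.sum_eq_single k]
        · rw [indicator_of_mem ht]
        · intro l hl hlk
          exact indicator_of_notMem (cells_disj ha hk (Finset.mem_range.1 hl) (Ne.symm hlk) ht) _
        · intro h
          exact absurd (Finset.mem_range.2 hk) h
      rw [e]
      exact c _
    · push Not at h
      have e : rwt N a θ t = 0 :=
        Finset.sum_eq_zero fun k hk => indicator_of_notMem (h k (Finset.mem_range.1 hk)) _
      rw [e]
      exact ⟨le_rfl, zero_le_one⟩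

variable {k : ℕ} {f : Fin k → ℝ → ℝ} {h : Fin k → ℝ → ℝ}

/-- the class of weights -/
def Wc (d : ℕ) (K M : ℝ → ℝ) (T : ℝ) : Set (ℝ → ℝ) := {W | ∃ N a θ, Cd d K M T N a θ ∧ W = rwt N a θ}

lemma Wc_prop {W : ℝ → ℝ} (hW : W ∈ Wc d K M T) : Measurable W ∧ ∀ t, 0 ≤ W t ∧ W t ≤ 1 := by
  obtain ⟨N, a, θ, hc, rfl⟩ := hW
  exact rwt_prop hc.mono hc.cont

lemma Xv_cont (hf : ∀ j, ContDiff ℝ 2 (f j)) (hs : ∀ j, HasCompactSupport (f j)) (hh : Scales h) :
    ∀ᶠ T : ℝ in atTop, ContinuousOn (fun t => Xv f (fun j => h j T) T t) (Icc T (2 * T)) := by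
  filter_upwards [c2c_ev hf hs hh, eventually_ge_atTop (3 : ℝ)] with T h1 h2
  unfold Xv
  refine (PiLp.continuous_toLp 2 _).comp_continuousOn ?_
  rw [continuousOn_pi]
  exact fun j => XF_contOn (h1 j) h2

/-- **local uniformity, for weights** -/
theorem wt_field (hk : 0 < k) (hK0 : ∀ T, 0 ≤ K T) (hM0 : ∀ T, 0 ≤ M T)
    (hf : ∀ j, ContDiff ℝ 2 (f j)) (hs : ∀ j, HasCompactSupport (f j)) (hh : Scales h)
    (hK : ∀ j, Tendsto (fun T => K T * h j T ^ (d + 1)) atTop (𝓝 0))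
    (hM : ∀ j, Tendsto (fun T => M T * h j T / T) atTop (𝓝 0)) (ψ : EuclideanSpace ℝ (Fin k) →ᵇ ℝ)
    {ε : ℝ} (hε : 0 < ε) : ∀ᶠ T : ℝ in atTop, ∀ W ∈ Wc d K M T,
      |∫ t in T..(2 * T), W t * (ψ (Xv f (fun j => h j T) T t) -
        ∫ x, ψ x ∂(multivariateGaussian 0 (cM f h)))| ≤ ε * T := by
  classical
  obtain ⟨H, hH1, hH2, hH3, hH4, hH5⟩ := choose_H hk hh d hK0 hM0 hK hM
  have hcont := Xv_cont hf hs hh
  have hmeas : ∀ᶠ T : ℝ in atTop, AEMeasurable (fun t => Xv f (fun j => h j T) T t) (volume.restrict (Ioc T (2 * T))) := by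
    filter_upwards [hcont] with T h1
    exact (h1.mono Ioc_subset_Icc_self).aemeasurable measurableSet_Ioc
  refine wweak (X := fun T t => Xv f (fun j => h j T) T t) (ν := multivariateGaussian 0 (cM f h))
    (fun T => Wc d K M T) hmeas (fun T W hW => Wc_prop hW) ?_ ψ hε
  intro u e he
  rw [charG t_COV hf hs hh]
  set Q : ℝ := ∑ i, ∑ j, u i * u j * cM f h i j with hQ
  have hgp := gf_prop hf hs hh u
  have hQQ := QQ_all hgp hH1 hH2 (dcr_field hf hs hh u hH1 hH2 hH3) (d + 1)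
  obtain ⟨δ, hδ, hQ1⟩ := hQQ Unit 1 0 (e / 2) one_pos (by positivity)
  have hsg := sg_ev t_COV hf hs hh u
  have hsg2 : Tendsto (fun T => cexp (-(sg (cb f h u T) : ℂ) / 2)) atTop (𝓝 (cexp (-(Q : ℂ) / 2))) := by
    refine (Complex.continuous_exp.tendsto _).comp ?_
    exact (((Complex.continuous_ofReal.tendsto _).comp hsg).neg).div_const 2
  rw [Metric.tendsto_nhds] at hsg2
  filter_upwards [hQ1, hH1, hH4 δ hδ, hH5 δ hδ, c2c_ev hf hs hh, hsg2 (e / 2) (by positivity), hgp,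
    eventually_ge_atTop (4 : ℝ)] with T hT1 hT2 hT3 hT4 hT5 hT6 hT7 hT8
  intro W hW
  obtain ⟨hWm, hW01⟩ := Wc_prop hW
  obtain ⟨N, a, θ, hc, rfl⟩ := hW
  have hT0 : 0 < T := by linarith
  set F := cb f h u T with hFdef
  have hNH : (N : ℝ) * H T ≤ δ * T := (mul_le_mul_of_nonneg_right hc.nw hT2.le).trans hT4
  have key : ∀ θ' : ℕ → ℝ → ℝ, Cd d K M T N a θ' → ‖∫ t in T..(2 * T), pw N a θ' t * gf f h u T t‖ ≤ e / 2 * T := by
    intro θ' hc'
    have h1 := hT1 N a hc'.lo hc'.hi hc'.mono hNH θ' hc'.cd (fun k t =>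
      (mul_le_mul_of_nonneg_right (hc'.bd k t) (by positivity)).trans hT3) (fun _ => 0) (fun _ => by simp)
      (fun i j hij => absurd (Subsingleton.elim i j) hij) (fun _ => true)
    have e1 : (∫ t in T..(2 * T), pw N a θ' t * ∏ j : Unit, cj ((fun _ => true) j) (gf f h u T (t + (fun _ => (0 : ℝ)) j))) =
        ∫ t in T..(2 * T), pw N a θ' t * gf f h u T t := by
      refine intervalIntegral.integral_congr fun t _ => ?_
      simp [cj]
    rw [e1] at h1
    exact h1
  have hpi : ∀ θ' : ℕ → ℝ → ℝ, Cd d K M T N a θ' → ∀ c : ℂ,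
      IntervalIntegrable (fun t => c * (pw N a θ' t * gf f h u T t)) volume T (2 * T) := by
    intro θ' hc' c
    refine IntervalIntegrable.const_mul ?_ c
    refine ii_bdd (f := fun t => pw N a θ' t * gf f h u T t) (C := 1 * 2) ((pw_meas hc'.cont).mul hT7.1) (fun t => ?_) _ _
    rw [norm_mul]
    exact mul_le_mul (pw_norm hc'.mono t) (hT7.2 t) (norm_nonneg _) zero_le_one
  have e1 : (∫ t in T..(2 * T), (rwt N a θ t : ℂ) *
      (cexp (⟪Xv f (fun j => h j T) T t, u⟫ * I) - cexp (-(Q : ℂ) / 2))) =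
      (1 / 2 * (∫ t in T..(2 * T), pw N a (fun _ _ => 0) t * gf f h u T t) +
      1 / 4 * (∫ t in T..(2 * T), pw N a θ t * gf f h u T t) +
      1 / 4 * (∫ t in T..(2 * T), pw N a (fun k t => - θ k t) t * gf f h u T t)) +
      ∫ t in T..(2 * T), (rwt N a θ t : ℂ) * (cexp (-(sg F : ℂ) / 2) - cexp (-(Q : ℂ) / 2)) := by
    rw [← intervalIntegral.integral_const_mul, ← intervalIntegral.integral_const_mul,
      ← intervalIntegral.integral_const_mul, ← intervalIntegral.integral_add (hpi _ hc.zero _) (hpi _ hc _),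
      ← intervalIntegral.integral_add ((hpi _ hc.zero _).add (hpi _ hc _)) (hpi _ hc.neg _),
      ← intervalIntegral.integral_add (((hpi _ hc.zero _).add (hpi _ hc _)).add (hpi _ hc.neg _))]
    · refine intervalIntegral.integral_congr fun t ht => ?_
      rw [uIcc_of_le (by linarith)] at ht
      have h9 : t ∈ Icc (T - 1) (2 * T + 1) := ⟨by linarith [ht.1], by linarith [ht.2]⟩
      simp only
      rw [inner_Xv hT5 u (by linarith) ht.1 ht.2, rwt_cast]
      unfold gf
      rw [indicator_of_mem h9, ← hFdef, mul_comm I]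
      ring
    · have m1 : Measurable fun t => ((rwt N a θ t : ℝ) : ℂ) * (cexp (-(sg F : ℂ) / 2) - cexp (-(Q : ℂ) / 2)) :=
        (Complex.measurable_ofReal.comp hWm).mul_const _
      refine ii_bdd (C := 1 * ‖cexp (-(sg F : ℂ) / 2) - cexp (-(Q : ℂ) / 2)‖) m1 (fun t => ?_) _ _
      rw [norm_mul, Complex.norm_real, Real.norm_of_nonneg (hW01 t).1]
      exact mul_le_mul_of_nonneg_right (hW01 t).2 (norm_nonneg _)
  rw [e1]
  have c1 : ‖1 / 2 * (∫ t in T..(2 * T), pw N a (fun _ _ => 0) t * gf f h u T t) +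
      1 / 4 * (∫ t in T..(2 * T), pw N a θ t * gf f h u T t) +
      1 / 4 * (∫ t in T..(2 * T), pw N a (fun k t => - θ k t) t * gf f h u T t)‖ ≤ e / 2 * T := by
    refine (norm_add₃_le).trans ?_
    rw [norm_mul, norm_mul, norm_mul]
    have n1 : ‖(1 / 2 : ℂ)‖ = 1 / 2 := by norm_num
    have n2 : ‖(1 / 4 : ℂ)‖ = 1 / 4 := by norm_num
    rw [n1, n2]
    have b0 := key _ hc.zero
    have b1 := key _ hc
    have b2 := key _ hc.neg
    linarith
  have c2 : ‖∫ t in T..(2 * T), (rwt N a θ t : ℂ) * (cexp (-(sg F : ℂ) / 2) - cexp (-(Q : ℂ) / 2))‖ ≤ e / 2 * T := by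
    rw [dist_eq_norm] at hT6
    have := intervalIntegral.norm_integral_le_of_norm_le_const (a := T) (b := 2 * T)
      (f := fun t => (rwt N a θ t : ℂ) * (cexp (-(sg F : ℂ) / 2) - cexp (-(Q : ℂ) / 2))) (C := e / 2) (fun t _ => ?_)
    · rw [show 2 * T - T = T by ring, abs_of_pos hT0] at this
      exact this
    · rw [norm_mul, Complex.norm_real, Real.norm_of_nonneg (hW01 t).1]
      calc _ ≤ 1 * (e / 2) := mul_le_mul (hW01 t).2 hT6.le (norm_nonneg _) zero_le_one
        _ = e / 2 := one_mul _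
  refine (norm_add_le _ _).trans ?_
  linarith

/-- from weights to phases -/
lemma ph_of_wt (hc : Cd d K M T N a θ) {Y : ℝ → ℝ} (hT : 0 ≤ T) (hY : ContinuousOn Y (Icc T (2 * T))) {e : ℝ}
    (hw : ∀ W ∈ Wc d K M T, |∫ t in T..(2 * T), W t * Y t| ≤ e) :
    ‖∫ t in T..(2 * T), pw N a θ t * (Y t : ℂ)‖ ≤ 6 * e := by
  set W0 := rwt N a (fun _ _ => 0) with hW0
  set W1 := rwt N a θ with hW1
  set W2 := rwt N a (fun k t => θ k t + -(Real.pi / 2)) with hW2
  have m0 : W0 ∈ Wc d K M T := ⟨N, a, _, hc.zero, rfl⟩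
  have m1 : W1 ∈ Wc d K M T := ⟨N, a, _, hc, rfl⟩
  have m2 : W2 ∈ Wc d K M T := ⟨N, a, _, hc.add_const _, rfl⟩
  have hii : ∀ W ∈ Wc d K M T, IntervalIntegrable (fun t => W t * Y t) volume T (2 * T) := by
    intro W hW
    obtain ⟨h1, h2⟩ := Wc_prop hW
    rw [intervalIntegrable_iff_integrableOn_Ioc_of_le (by linarith)]
    have hg' : IntegrableOn Y (Ioc T (2 * T)) :=
      (hY.integrableOn_compact isCompact_Icc).mono_set Ioc_subset_Icc_self
    refine hg'.bdd_mul (c := 1) h1.aestronglyMeasurable ?_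
    filter_upwards with t
    rw [Real.norm_of_nonneg (h2 t).1]
    exact (h2 t).2
  have i0 := hii _ m0
  have i1 := hii _ m1
  have i2 := hii _ m2
  have e1 : (∫ t in T..(2 * T), pw N a θ t * (Y t : ℂ)) =
      ((2 * (∫ t in T..(2 * T), W1 t * Y t) - ∫ t in T..(2 * T), W0 t * Y t : ℝ) : ℂ) +
      ((2 * (∫ t in T..(2 * T), W2 t * Y t) - ∫ t in T..(2 * T), W0 t * Y t : ℝ) : ℂ) * I := by
    rw [← intervalIntegral.integral_const_mul, ← intervalIntegral.integral_const_mul,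
      ← intervalIntegral.integral_sub (i1.const_mul _) i0, ← intervalIntegral.integral_sub (i2.const_mul _) i0]
    have j1 : IntervalIntegrable (fun t => ((2 * (W1 t * Y t) - W0 t * Y t : ℝ) : ℂ)) volume T (2 * T) := by
      have := (i1.const_mul 2).sub i0
      exact ⟨this.1.ofReal, this.2.ofReal⟩
    have j2 : IntervalIntegrable (fun t => ((2 * (W2 t * Y t) - W0 t * Y t : ℝ) : ℂ) * I) volume T (2 * T) := by
      have := (i2.const_mul 2).sub i0
      exact IntervalIntegrable.mul_const ⟨this.1.ofReal, this.2.ofReal⟩ _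
    rw [← intervalIntegral.integral_ofReal, ← intervalIntegral.integral_ofReal,
      ← intervalIntegral.integral_mul_const, ← intervalIntegral.integral_add j1 j2]
    refine intervalIntegral.integral_congr fun t _ => ?_
    rw [pw_split]
    push_cast
    ring
  rw [e1]
  have b0 := hw _ m0
  have b1 := hw _ m1
  have b2 := hw _ m2
  refine (norm_add_le _ _).trans ?_
  rw [norm_mul, Complex.norm_I, mul_one, Complex.norm_real, Complex.norm_real, Real.norm_eq_abs, Real.norm_eq_abs]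
  have q1 : |2 * (∫ t in T..(2 * T), W1 t * Y t) - ∫ t in T..(2 * T), W0 t * Y t| ≤ 3 * e := by
    refine (abs_sub _ _).trans ?_
    rw [abs_mul, abs_two]
    linarith
  have q2 : |2 * (∫ t in T..(2 * T), W2 t * Y t) - ∫ t in T..(2 * T), W0 t * Y t| ≤ 3 * e := by
    refine (abs_sub _ _).trans ?_
    rw [abs_mul, abs_two]
    linarith
  linarith

/-- from phases to the sum over the windows -/
lemma sum_of_ph (hc : Cd d K M T N a θ) {Y : ℝ → ℝ} (hT : 0 ≤ T) (hY : ContinuousOn Y (Icc T (2 * T))) {e : ℝ}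
    (hw : ∀ W ∈ Wc d K M T, |∫ t in T..(2 * T), W t * Y t| ≤ e) :
    ∑ k ∈ Finset.range N, ‖∫ t in (a k)..(a (k + 1)), cexp ((θ k t : ℂ) * I) * (Y t : ℂ)‖ ≤ 6 * e := by
  set J : ℕ → ℂ := fun k => ∫ t in (a k)..(a (k + 1)), cexp ((θ k t : ℂ) * I) * (Y t : ℂ) with hJ
  set c : ℕ → ℝ := fun k => - (J k).arg with hcdef
  have hc' := hc.add_const c
  have h1 := ph_of_wt hc' hT hY hw
  -- measurable version of `Y`
  set P : ℝ → ℂ := (Icc T (2 * T)).indicator (fun t => (Y t : ℂ)) with hP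
  have hYc : ContinuousOn (fun t => (Y t : ℂ)) (Icc T (2 * T)) := Complex.continuous_ofReal.comp_continuousOn hY
  have hPm : Measurable P := by
    classical
    have := hYc.measurable_piecewise (g := (0 : ℝ → ℂ)) continuousOn_const measurableSet_Icc
    rwa [Set.piecewise_eq_indicator] at this
  obtain ⟨C, hC⟩ := isCompact_Icc.exists_bound_of_continuousOn hYc
  have hPb : ∀ t, ‖P t‖ ≤ max C 0 := by
    intro t
    by_cases ht : t ∈ Icc T (2 * T)
    · rw [hP, indicator_of_mem ht]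
      exact (hC t ht).trans (le_max_left _ _)
    · rw [hP, indicator_of_notMem ht, norm_zero]
      exact le_max_right _ _
  have e1 : (∫ t in T..(2 * T), pw N a (fun k t => θ k t + c k) t * (Y t : ℂ)) =
      ∫ t in T..(2 * T), pw N a (fun k t => θ k t + c k) t * P t := by
    refine intervalIntegral.integral_congr fun t ht => ?_
    rw [uIcc_of_le (by linarith)] at ht
    rw [hP, indicator_of_mem ht]
  rw [e1, pw_int hc'.mono hc'.cont hc'.lo hc'.hi hPm hPb] at h1
  have e2 : (∑ k ∈ Finset.range N, ∫ t in (a k)..(a (k + 1)), cexp (((θ k t + c k : ℝ) : ℂ) * I) * P t) =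
      ((∑ k ∈ Finset.range N, ‖J k‖ : ℝ) : ℂ) := by
    rw [Complex.ofReal_sum]
    refine Finset.sum_congr rfl fun k hk => ?_
    have hk' := Finset.mem_range.1 hk
    have g1 : T ≤ a k := hc.lo.trans (cells_mono hc.mono (Nat.zero_le _) hk'.le)
    have g2 : a (k + 1) ≤ 2 * T := (cells_mono hc.mono (show k + 1 ≤ N by omega) le_rfl).trans hc.hi
    have e3 : (∫ t in (a k)..(a (k + 1)), cexp (((θ k t + c k : ℝ) : ℂ) * I) * P t) = cexp ((c k : ℂ) * I) * J k := by
      rw [hJ]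
      simp only
      rw [← intervalIntegral.integral_const_mul]
      refine intervalIntegral.integral_congr fun t ht => ?_
      rw [uIcc_of_le (hc.mono k hk')] at ht
      have ht' : t ∈ Icc T (2 * T) := ⟨by linarith [ht.1], by linarith [ht.2]⟩
      rw [hP, indicator_of_mem ht']
      push_cast
      rw [add_mul, Complex.exp_add]
      ring
    rw [e3]
    conv_lhs => rw [← Complex.norm_mul_exp_arg_mul_I (J k)]
    rw [mul_left_comm, ← Complex.exp_add, hcdef]
    push_cast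
    rw [neg_mul, neg_add_cancel, Complex.exp_zero, mul_one]
  have e2' : (∑ k ∈ Finset.range N, ∫ t in (a k)..(a (k + 1)), cexp (((fun k t => θ k t + c k) k t : ℝ) * I) * P t) =
      ((∑ k ∈ Finset.range N, ‖J k‖ : ℝ) : ℂ) := e2
  rw [e2', Complex.norm_real, Real.norm_of_nonneg (Finset.sum_nonneg fun _ _ => norm_nonneg _)] at h1
  exact h1

end Pool.Agent.H493.DC
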