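import Pool.Agent.H493.DC.Shift

set_option autoImplicit false

/-! The central limit theorem inside almost all short windows. -/

open Complex Filter Topology Set MeasureTheory

namespace Pool.Agent.H493.DC

open Pool.Agent.H203.ME Pool.Agent.H203.ME.VARL

lemma bdd_int {α : Type} [MeasurableSpace α] {μ : Measure α} [IsFiniteMeasure μ] {f : α → ℂ}
    (hf : Measurable f) {C : ℝ} (hC : ∀ x, ‖f x‖ ≤ C) : Integrable f μ :=
  Integrable.of_bound (C := C) hf.aestronglyMeasurable (Eventually.of_forall hC)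

/-- mean square of short averages -/
theorem vdc {G : ℝ → ℂ} (hG : Measurable G) {C : ℝ} (hb : ∀ x, ‖G x‖ ≤ C) {T H c₁ c₂ r : ℝ} (hT : 0 ≤ T)
    (hH : 0 ≤ H) (hr : 0 ≤ r) (h2 : 0 ≤ c₂)
    (hP : ∀ u ∈ Ioc 0 H, ∀ v ∈ Ioc 0 H,
      ‖∫ t in T..(2 * T), G (t + u) * (starRingEnd ℂ) (G (t + v))‖ ≤
        c₁ + (Icc (u - r) (u + r)).indicator (fun _ => c₂) v) :
    ∫ t in T..(2 * T), ‖∫ u in (0 : ℝ)..H, G (t + u)‖ ^ 2 ≤ H * (c₁ * H + 2 * r * c₂) := by
  have hC0 : 0 ≤ C := (norm_nonneg _).trans (hb 0)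
  have hTT : T ≤ 2 * T := by linarith
  set μ : Measure ℝ := volume.restrict (Ioc T (2 * T)) with hμ
  set ν : Measure ℝ := volume.restrict (Ioc 0 H) with hν
  have : IsFiniteMeasure μ := ⟨by rw [hμ, Measure.restrict_apply_univ]; exact measure_Ioc_lt_top⟩
  have : IsFiniteMeasure ν := ⟨by rw [hν, Measure.restrict_apply_univ]; exact measure_Ioc_lt_top⟩
  set A : ℝ → ℂ := fun t => ∫ u, G (t + u) ∂ν with hA
  have hGm : Measurable fun p : ℝ × ℝ => G (p.1 + p.2) := hG.comp (measurable_fst.add measurable_snd)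
  have hAm : Measurable A := (hGm.stronglyMeasurable.integral_prod_right (ν := ν)).measurable
  have hνr : ν.real univ = H := by
    rw [hν, measureReal_restrict_apply_univ, Real.volume_real_Ioc_of_le hH, sub_zero]
  have hAb : ∀ t, ‖A t‖ ≤ C * H := by
    intro t
    have := norm_integral_le_of_norm_le_const (μ := ν) (f := fun u => G (t + u)) (C := C)
      (Eventually.of_forall fun u => hb _)
    rwa [hνr] at this
  have e0 : ∀ t, (∫ u in (0 : ℝ)..H, G (t + u)) = A t := fun t => intervalIntegral.integral_of_le hH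
  simp only [e0]
  rw [intervalIntegral.integral_of_le hTT]
  change ∫ t, ‖A t‖ ^ 2 ∂μ ≤ _
  have e1 : ((∫ t, ‖A t‖ ^ 2 ∂μ : ℝ) : ℂ) = ∫ t, A t * (starRingEnd ℂ) (A t) ∂μ := by
    have e : (∫ t, A t * (starRingEnd ℂ) (A t) ∂μ) = ∫ t, ((‖A t‖ ^ 2 : ℝ) : ℂ) ∂μ := by
      congr 1
      funext t
      rw [Complex.mul_conj, Complex.normSq_eq_norm_sq]
    rw [e]
    exact integral_ofReal.symm
  have e2 : (∫ t, A t * (starRingEnd ℂ) (A t) ∂μ) = ∫ u, ∫ t, G (t + u) * (starRingEnd ℂ) (A t) ∂μ ∂ν := by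
    rw [← integral_integral_swap]
    · congr 1
      funext t
      rw [hA]
      exact (integral_mul_const _ _).symm
    · refine bdd_int (C := C * (C * H)) (hGm.mul (by fun_prop)) fun p => ?_
      simp only [Function.uncurry]
      rw [norm_mul, RCLike.norm_conj]
      exact mul_le_mul (hb _) (hAb _) (norm_nonneg _) hC0
  have e3 : ∀ u, (∫ t, G (t + u) * (starRingEnd ℂ) (A t) ∂μ) =
      ∫ v, ∫ t, G (t + u) * (starRingEnd ℂ) (G (t + v)) ∂μ ∂ν := by
    intro u
    rw [← integral_integral_swap]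
    · congr 1
      funext t
      rw [integral_const_mul, integral_conj]
    · refine bdd_int (C := C * C) ?_ fun p => ?_
      · have m1 : Measurable fun p : ℝ × ℝ => G (p.1 + u) := hG.comp (measurable_fst.add_const u)
        have m2 : Measurable fun p : ℝ × ℝ => (starRingEnd ℂ) (G (p.1 + p.2)) := by fun_prop
        exact m1.mul m2
      · simp only [Function.uncurry]
        rw [norm_mul, RCLike.norm_conj]
        exact mul_le_mul (hb _) (hb _) (norm_nonneg _) hC0
  have hT1 : ∀ u v, (∫ t, G (t + u) * (starRingEnd ℂ) (G (t + v)) ∂μ) =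
      ∫ t in T..(2 * T), G (t + u) * (starRingEnd ℂ) (G (t + v)) := fun u v =>
    (intervalIntegral.integral_of_le hTT).symm
  have b1 : ∀ u ∈ Ioc 0 H, ‖∫ v, ∫ t, G (t + u) * (starRingEnd ℂ) (G (t + v)) ∂μ ∂ν‖ ≤
      c₁ * H + 2 * r * c₂ := by
    intro u hu
    have hi1 : Integrable (fun _ : ℝ => c₁) ν := integrable_const _
    have hi2 : Integrable ((Icc (u - r) (u + r)).indicator (fun _ : ℝ => c₂)) ν :=
      (integrable_const c₂).indicator measurableSet_Icc
    refine (norm_integral_le_of_norm_le (hi1.add hi2) ?_).trans ?_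
    · rw [hν]
      filter_upwards [ae_restrict_mem measurableSet_Ioc] with v hv
      rw [hT1]
      exact hP u hu v hv
    · rw [integral_add' hi1 hi2, integral_const, hνr, smul_eq_mul, integral_indicator measurableSet_Icc,
        setIntegral_const, smul_eq_mul, mul_comm H]
      have : ν.real (Icc (u - r) (u + r)) ≤ 2 * r := by
        have h3 : ν.real (Icc (u - r) (u + r)) ≤ volume.real (Icc (u - r) (u + r)) := by
          rw [hν]
          refine ENNReal.toReal_mono measure_Icc_lt_top.ne (Measure.restrict_apply_le _ _)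
        rw [Real.volume_real_Icc_of_le (by linarith)] at h3
        linarith
      have := mul_le_mul_of_nonneg_right this h2
      linarith
  have e4 : ((∫ t, ‖A t‖ ^ 2 ∂μ : ℝ) : ℂ) =
      ∫ u, ∫ v, ∫ t, G (t + u) * (starRingEnd ℂ) (G (t + v)) ∂μ ∂ν ∂ν := by
    rw [e1, e2]
    congr 1
    funext u
    exact e3 u
  have b2 : ‖((∫ t, ‖A t‖ ^ 2 ∂μ : ℝ) : ℂ)‖ ≤ (c₁ * H + 2 * r * c₂) * H := by
    rw [e4]
    have := norm_integral_le_of_norm_le_const (μ := ν)
      (f := fun u => ∫ v, ∫ t, G (t + u) * (starRingEnd ℂ) (G (t + v)) ∂μ ∂ν) (C := c₁ * H + 2 * r * c₂) (by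
        rw [hν]
        filter_upwards [ae_restrict_mem measurableSet_Ioc] with u hu
        exact b1 u hu)
    rwa [hνr] at this
  rw [Complex.norm_real, Real.norm_eq_abs] at b2
  linarith [le_abs_self (∫ t, ‖A t‖ ^ 2 ∂μ)]

lemma sg_shift (F : ℝ → ℝ) (a : ℝ) : sg (sh F a) = sg F := by
  unfold sg
  simp only [FF_shift, norm_mul, ph1_norm, one_mul]

lemma adm_mono {η V L η' V' : ℝ} {F : ℝ → ℝ} (h : Adm η V L F) (hL : 0 ≤ L) (h1 : η ≤ η') (h2 : V ≤ V') :
    Adm η' V' L F :=
  ⟨h.c2, h.l1.trans h1, h.l2.trans (mul_le_mul_of_nonneg_right h1 hL), h.va.trans h2, h.tv.trans h1⟩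

lemma exp_sub_le {x y : ℝ} (hx : x ≤ 0) (hy : y ≤ 0) : |Real.exp x - Real.exp y| ≤ |x - y| := by
  wlog h : x ≤ y generalizing x y
  · rw [abs_sub_comm, abs_sub_comm x y]
    exact this hy hx (le_of_not_ge h)
  have h1 : Real.exp x ≤ Real.exp y := Real.exp_le_exp.2 h
  rw [abs_sub_comm, abs_of_nonneg (by linarith), abs_sub_comm, abs_of_nonneg (by linarith)]
  have h2 : Real.exp x = Real.exp y * Real.exp (x - y) := by rw [← Real.exp_add]; congr 1; ring
  have h3 := Real.add_one_le_exp (x - y)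
  have h4 : Real.exp y ≤ 1 := Real.exp_le_one_iff.2 hy
  have h5 := Real.exp_pos y
  rw [h2]
  nlinarith

/-- **the central limit theorem inside almost all short windows** (characteristic functions) -/
theorem quench {V ε : ℝ} (hV : 0 < V) (hε : 0 < ε) :
    ∃ η K T₀ : ℝ, 0 < η ∧ 1 ≤ K ∧ 10 ≤ T₀ ∧ ∀ T : ℝ, T₀ ≤ T → ∀ F : ℝ → ℝ, Adm η V (Real.log T) F →
      (∀ x, 1 / 2 ≤ |x| → F x = 0) → ∀ H : ℝ, 0 < H → H ≤ η → K * tvq F ≤ H →
      ∫ t in T..(2 * T), ‖∫ u in (0 : ℝ)..H, (cexp (I * (XF F T (t + u) : ℂ)) - cexp (-(sg F : ℂ) / 2))‖ ^ 2 ≤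
        ε * H ^ 2 * T := by
  obtain ⟨η₁, T₁, hη₁0, hη₁1, hT₁, hmain⟩ := p_MAIN (4 * V) (ε / 12) (by positivity) (by positivity)
  set ρ : ℝ := ε / 8 with hρ
  have hρ0 : 0 < ρ := by positivity
  set K : ℝ := max 1 (2 / (ρ * ε)) with hK
  set η : ℝ := min (1 / 2) (η₁ / (4 + 8 * V)) with hη
  have hη0 : 0 < η := by positivity
  have hη2 : η ≤ 1 / 2 := min_le_left _ _
  have hη3 : 4 * η + 8 * η * V ≤ η₁ := by
    have : η ≤ η₁ / (4 + 8 * V) := min_le_right _ _
    rw [le_div_iff₀ (by positivity)] at this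
    linarith
  refine ⟨η, K, T₁, hη0, le_max_left _ _, hT₁, fun T hT F hA h2 H hH0 hHη hKH => ?_⟩
  have hT10 : 10 ≤ T := hT₁.trans hT
  have hT0 : 0 < T := by linarith
  have hL : 0 ≤ Real.log T := Real.log_nonneg (by linarith)
  have hF := hA.c2
  have hH2 : H ≤ 1 / 2 := hHη.trans hη2
  set m : ℂ := cexp (-(sg F : ℂ) / 2) with hm
  have hsg : 0 ≤ sg F := FINL.sg_nonneg F
  have hmr : m = ((Real.exp (-sg F / 2) : ℝ) : ℂ) := by
    rw [hm]; push_cast; ring_nf
  have hm1 : ‖m‖ ≤ 1 := by
    rw [hmr, Complex.norm_real, Real.norm_of_nonneg (Real.exp_nonneg _)]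
    exact Real.exp_le_one_iff.2 (by linarith)
  -- the measurable version
  have hcont : ContinuousOn (XF F T) (Icc T (2 * T + 1)) := XF_contOn hF (by linarith)
  set g : ℝ → ℂ := fun s => cexp (I * (XF F T s : ℂ)) - m with hg
  have hgc : ContinuousOn g (Icc T (2 * T + 1)) := by
    have h3 : ContinuousOn (fun s => (XF F T s : ℂ)) (Icc T (2 * T + 1)) :=
      Complex.continuous_ofReal.comp_continuousOn hcont
    exact ((continuousOn_const.mul h3).cexp).sub continuousOn_const
  have hgn : ∀ s, ‖g s‖ ≤ 2 := by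
    intro s
    refine (norm_sub_le _ _).trans ?_
    have : ‖cexp (I * (XF F T s : ℂ))‖ = 1 := by rw [mul_comm]; exact Complex.norm_exp_ofReal_mul_I _
    linarith
  classical
  set G : ℝ → ℂ := (Icc T (2 * T + 1)).indicator g with hG
  have hGm : Measurable G := by
    have := hgc.measurable_piecewise (g := (0 : ℝ → ℂ)) continuousOn_const measurableSet_Icc
    rwa [Set.piecewise_eq_indicator] at this
  have hGb : ∀ s, ‖G s‖ ≤ 2 := fun s =>
    (norm_indicator_le_norm_self _ _).trans (hgn s)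
  have hGg : ∀ t ∈ Ioc T (2 * T), ∀ u ∈ Ioc 0 H, G (t + u) = g (t + u) := by
    intro t ht u hu
    have h3 : t + u ∈ Icc T (2 * T + 1) := ⟨by linarith [ht.1, hu.1], by linarith [ht.2, hu.2]⟩
    exact Set.indicator_of_mem h3 _
  have hmain1 : ∀ F' : ℝ → ℝ, Adm η₁ (4 * V) (Real.log T) F' →
      ‖(1 / T : ℂ) * (∫ t in T..(2 * T), cexp (I * (XF F' T t : ℂ))) - cexp (-(sg F' : ℂ) / 2)‖ ≤ ε / 12 :=
    fun F' hF' => hmain T hT F' hF'
  have hadm1 : ∀ u ∈ Ioc 0 H, Adm η₁ (4 * V) (Real.log T) (sh F u) := by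
    intro u hu
    have h3 := adm_shift hL hA h2 (a := u) (H := η) (by rw [abs_of_pos hu.1]; linarith [hu.2]) hη2
    refine adm_mono h3 hL ?_ (by linarith)
    nlinarith
  have hadm2 : ∀ u ∈ Ioc 0 H, ∀ v ∈ Ioc 0 H, Adm η₁ (4 * V) (Real.log T) (dsh F u v) := by
    intro u hu v hv
    have h3 := adm_dsh hL hA h2 (u := u) (v := v) (H := η) (by rw [abs_of_pos hu.1]; linarith [hu.2])
      (by rw [abs_of_pos hv.1]; linarith [hv.2]) hη2
    exact adm_mono h3 hL hη3 le_rfl
  have hab : ∀ u ∈ Ioc 0 H, |u| ≤ 1 / 2 := fun u hu => by rw [abs_of_pos hu.1]; linarith [hu.2]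
  set c₁ : ℝ := T * (3 * (ε / 12) + ε / 2) with hc₁
  have hP : ∀ u ∈ Ioc 0 H, ∀ v ∈ Ioc 0 H,
      ‖∫ t in T..(2 * T), G (t + u) * (starRingEnd ℂ) (G (t + v))‖ ≤
        c₁ + (Icc (u - ρ * H) (u + ρ * H)).indicator (fun _ => T) v := by
    intro u hu v hv
    set E : ℝ → ℝ → ℂ := fun w t => cexp (I * (XF F T (t + w) : ℂ)) with hE
    have hEc : ∀ w ∈ Ioc 0 H, ContinuousOn (E w) (Icc T (2 * T)) := by
      intro w hw
      have h3 : ContinuousOn (fun t => (XF F T (t + w) : ℂ)) (Icc T (2 * T)) := by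
        refine Complex.continuous_ofReal.comp_continuousOn (hcont.comp (by fun_prop) fun t ht => ?_)
        exact ⟨by linarith [ht.1, hw.1], by linarith [ht.2, hw.2]⟩
      exact (continuousOn_const.mul h3).cexp
    have hEi : ∀ w ∈ Ioc 0 H, IntervalIntegrable (E w) volume T (2 * T) := by
      intro w hw
      apply ContinuousOn.intervalIntegrable
      rw [uIcc_of_le (by linarith)]
      exact hEc w hw
    have hcEi : IntervalIntegrable (fun t => (starRingEnd ℂ) (E v t)) volume T (2 * T) := by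
      apply ContinuousOn.intervalIntegrable
      rw [uIcc_of_le (by linarith)]
      exact continuous_conj.comp_continuousOn (hEc v hv)
    have e1 : (∫ t in T..(2 * T), G (t + u) * (starRingEnd ℂ) (G (t + v))) =
        ∫ t in T..(2 * T), (cexp (I * (XF (dsh F u v) T t : ℂ)) - (starRingEnd ℂ) m * E u t -
          m * (starRingEnd ℂ) (E v t) + m * (starRingEnd ℂ) m) := by
      refine intervalIntegral.integral_congr_ae ?_
      rw [uIoc_of_le (by linarith)]
      filter_upwards with t ht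
      rw [hGg t ht u hu, hGg t ht v hv]
      have h4 : cexp (I * (XF (dsh F u v) T t : ℂ)) = E u t * (starRingEnd ℂ) (E v t) := by
        rw [hE]
        simp only
        rw [← Complex.exp_conj, ← Complex.exp_add, XF_dsh hF h2 (hab u hu) (hab v hv) (by linarith) ht.1.le ht.2]
        congr 1
        simp only [map_mul, Complex.conj_I, Complex.conj_ofReal]
        push_cast
        ring
      rw [h4, hg]
      simp only [map_sub]
      ring
    have hDi : IntervalIntegrable (fun t => cexp (I * (XF (dsh F u v) T t : ℂ))) volume T (2 * T) := by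
      apply ContinuousOn.intervalIntegrable
      rw [uIcc_of_le (by linarith)]
      have h3 : ContinuousOn (fun s => (XF (dsh F u v) T s : ℂ)) (Icc T (2 * T)) :=
        Complex.continuous_ofReal.comp_continuousOn (XF_contOn (hadm2 u hu v hv).c2 (by linarith))
      exact (continuousOn_const.mul h3).cexp
    have e2 : (∫ t in T..(2 * T), (cexp (I * (XF (dsh F u v) T t : ℂ)) - (starRingEnd ℂ) m * E u t -
          m * (starRingEnd ℂ) (E v t) + m * (starRingEnd ℂ) m)) =
        (∫ t in T..(2 * T), cexp (I * (XF (dsh F u v) T t : ℂ))) -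
          (starRingEnd ℂ) m * (∫ t in T..(2 * T), E u t) -
          m * (starRingEnd ℂ) (∫ t in T..(2 * T), E v t) + T * (m * (starRingEnd ℂ) m) := by
      rw [intervalIntegral.integral_add ((hDi.sub ((hEi u hu).const_mul _)).sub (hcEi.const_mul _))
        intervalIntegrable_const, intervalIntegral.integral_sub (hDi.sub ((hEi u hu).const_mul _))
        (hcEi.const_mul _), intervalIntegral.integral_sub hDi ((hEi u hu).const_mul _),
        intervalIntegral.integral_const_mul, intervalIntegral.integral_const_mul,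
        intervalIntegral.integral_const]
      have hcj : (∫ t in T..(2 * T), (starRingEnd ℂ) (E v t)) = (starRingEnd ℂ) (∫ t in T..(2 * T), E v t) := by
        rw [intervalIntegral.integral_of_le (by linarith), intervalIntegral.integral_of_le (by linarith)]
        exact integral_conj
      rw [hcj]
      simp only [Complex.real_smul]
      push_cast
      ring
    have a0 := hmain1 _ (hadm2 u hu v hv)
    have a1 := hmain1 _ (hadm1 u hu)
    have a2 := hmain1 _ (hadm1 v hv)
    rw [sg_shift] at a1 a2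
    simp only [XF_shift] at a1 a2
    have hTc : (T : ℂ) ≠ 0 := by exact_mod_cast hT0.ne'
    set s0 : ℂ := cexp (-(sg (dsh F u v) : ℂ) / 2) with hs0
    set I0 := ∫ t in T..(2 * T), cexp (I * (XF (dsh F u v) T t : ℂ)) with hI0
    set Iu := ∫ t in T..(2 * T), E u t with hIu
    set Iv := ∫ t in T..(2 * T), E v t with hIv
    have e3 : I0 - (starRingEnd ℂ) m * Iu - m * (starRingEnd ℂ) Iv + T * (m * (starRingEnd ℂ) m) =
        T * (((1 / T : ℂ) * I0 - s0) - (starRingEnd ℂ) m * ((1 / T : ℂ) * Iu - m) -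
          m * (starRingEnd ℂ) ((1 / T : ℂ) * Iv - m) + (s0 - m * (starRingEnd ℂ) m)) := by
      simp only [map_sub, map_mul, map_div₀, map_one, Complex.conj_ofReal]
      field_simp
      ring
    have b3 : ‖s0 - m * (starRingEnd ℂ) m‖ ≤ ε / 2 + (Icc (u - ρ * H) (u + ρ * H)).indicator (fun _ => (1 : ℝ)) v := by
      have h5 : sg (dsh F u v) / 2 = sg F - cc F (u - v) := by
        rw [sg_dsh hF h2 (hab u hu) (hab v hv)]; ring
      have h6 : s0 - m * (starRingEnd ℂ) m =
          ((Real.exp (-(sg F - cc F (u - v))) - Real.exp (-sg F) : ℝ) : ℂ) := by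
        rw [hmr, Complex.conj_ofReal, ← Complex.ofReal_mul, ← Real.exp_add, hs0]
        have : -(sg (dsh F u v) : ℂ) / 2 = ((-(sg F - cc F (u - v)) : ℝ) : ℂ) := by
          rw [← h5]; push_cast; ring
        rw [this, ← Complex.ofReal_exp]
        push_cast
        ring_nf
      rw [h6, Complex.norm_real, Real.norm_eq_abs]
      have hle := cc_le_sg hF (u - v)
      have h7 := exp_sub_le (x := -(sg F - cc F (u - v))) (y := -sg F) (by linarith) (by linarith)
      rw [show -(sg F - cc F (u - v)) - -sg F = cc F (u - v) by ring] at h7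
      by_cases hv' : v ∈ Icc (u - ρ * H) (u + ρ * H)
      · rw [indicator_of_mem hv']
        have h8 : Real.exp (-(sg F - cc F (u - v))) ≤ 1 := Real.exp_le_one_iff.2 (by linarith)
        have h9 : Real.exp (-sg F) ≤ 1 := Real.exp_le_one_iff.2 (by linarith)
        have h10 := Real.exp_pos (-(sg F - cc F (u - v)))
        have h11 := Real.exp_pos (-sg F)
        have : |Real.exp (-(sg F - cc F (u - v))) - Real.exp (-sg F)| ≤ 1 := by
          rw [abs_le]; constructor <;> linarith
        linarith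
      · rw [indicator_of_notMem hv', add_zero]
        have h12 : ρ * H < |u - v| := by
          by_contra hcon
          push Not at hcon
          rw [abs_le] at hcon
          exact hv' ⟨by linarith [hcon.2], by linarith [hcon.1]⟩
        have hρH : 0 < ρ * H := by positivity
        have h13 : u - v ≠ 0 := by
          intro h
          rw [h, abs_zero] at h12
          linarith
        have h14 := cc_decay hF h13
        refine h7.trans (h14.trans ?_)
        rw [div_le_iff₀ (by linarith)]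
        have h15 : 2 / (ρ * ε) * tvq F ≤ H := by
          refine le_trans ?_ hKH
          exact mul_le_mul_of_nonneg_right (le_max_right _ _) (tvq_nonneg F)
        have h16 : tvq F ≤ H * (ρ * ε) / 2 := by
          rw [div_mul_eq_mul_div, div_le_iff₀ (by positivity)] at h15
          linarith
        calc tvq F ≤ H * (ρ * ε) / 2 := h16
          _ = ε / 2 * (ρ * H) := by ring
          _ ≤ ε / 2 * |u - v| := by gcongr
    rw [e1, e2, e3, norm_mul, Complex.norm_real, Real.norm_of_nonneg hT0.le]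
    have b0 : ‖((1 / T : ℂ) * I0 - s0) - (starRingEnd ℂ) m * ((1 / T : ℂ) * Iu - m) -
          m * (starRingEnd ℂ) ((1 / T : ℂ) * Iv - m) + (s0 - m * (starRingEnd ℂ) m)‖ ≤
        ε / 12 + 1 * (ε / 12) + 1 * (ε / 12) +
          (ε / 2 + (Icc (u - ρ * H) (u + ρ * H)).indicator (fun _ => (1 : ℝ)) v) := by
      refine (norm_add_le _ _).trans (add_le_add ?_ b3)
      refine (norm_sub_le _ _).trans (add_le_add ?_ ?_)
      · refine (norm_sub_le _ _).trans (add_le_add a0 ?_)
        rw [norm_mul, RCLike.norm_conj]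
        exact mul_le_mul hm1 a1 (norm_nonneg _) zero_le_one
      · rw [norm_mul, RCLike.norm_conj]
        exact mul_le_mul hm1 a2 (norm_nonneg _) zero_le_one
    have b4 : (Icc (u - ρ * H) (u + ρ * H)).indicator (fun _ => T) v =
        T * (Icc (u - ρ * H) (u + ρ * H)).indicator (fun _ => (1 : ℝ)) v := by
      by_cases hv' : v ∈ Icc (u - ρ * H) (u + ρ * H)
      · simp [indicator_of_mem hv']
      · simp [indicator_of_notMem hv']
    rw [b4, hc₁]
    have := mul_le_mul_of_nonneg_left b0 hT0.le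
    linarith
  have key := vdc hGm hGb hT0.le hH0.le (r := ρ * H) (by positivity) hT0.le hP
  have e5 : (∫ t in T..(2 * T), ‖∫ u in (0 : ℝ)..H, (cexp (I * (XF F T (t + u) : ℂ)) - cexp (-(sg F : ℂ) / 2))‖ ^ 2) =
      ∫ t in T..(2 * T), ‖∫ u in (0 : ℝ)..H, G (t + u)‖ ^ 2 := by
    refine intervalIntegral.integral_congr_ae ?_
    rw [uIoc_of_le (by linarith)]
    filter_upwards with t ht
    congr 2
    refine intervalIntegral.integral_congr_ae ?_
    rw [uIoc_of_le hH0.le]
    filter_upwards with u hu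
    rw [hGg t ht u hu]
  rw [e5]
  refine key.trans (le_of_eq ?_)
  rw [hc₁, hρ]
  ring

end Pool.Agent.H493.DC
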