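import Pool.Agent.H493.DC.Loc

set_option autoImplicit false

/-! The choice of the averaging length. -/

open Complex Filter Topology Set MeasureTheory

namespace Pool.Agent.H493.DC

open Pool.Agent.H203.ME Pool.Agent.H203.ME.FINL

variable {k : ℕ} {h : Fin k → ℝ → ℝ}

theorem choose_H (hk : 0 < k) (hh : Scales h) (d : ℕ) {K M : ℝ → ℝ} (hK0 : ∀ T, 0 ≤ K T) (hM0 : ∀ T, 0 ≤ M T)
    (hK : ∀ j, Tendsto (fun T => K T * h j T ^ (d + 1)) atTop (𝓝 0))
    (hM : ∀ j, Tendsto (fun T => M T * h j T / T) atTop (𝓝 0)) :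
    ∃ H : ℝ → ℝ, (∀ᶠ T : ℝ in atTop, 0 < H T) ∧ Tendsto H atTop (𝓝 0) ∧
      (∀ R : ℝ, ∀ᶠ T : ℝ in atTop, ∀ j, h j T * R ≤ H T) ∧
      (∀ δ : ℝ, 0 < δ → ∀ᶠ T : ℝ in atTop, K T * H T ^ (d + 1) ≤ δ) ∧
      (∀ δ : ℝ, 0 < δ → ∀ᶠ T : ℝ in atTop, M T * H T ≤ δ * T) := by
  have hne : Nonempty (Fin k) := ⟨⟨0, hk⟩⟩
  set S : ℝ → ℝ := fun T => ∑ j, h j T with hS
  set ω : ℝ → ℝ := fun T => S T + K T * ((k : ℝ) ^ d * ∑ j, h j T ^ (d + 1)) + M T * S T / T with hω
  have hS0 : Tendsto S atTop (𝓝 0) := by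
    have : Tendsto S atTop (𝓝 (∑ _j : Fin k, (0 : ℝ))) := tendsto_finsetSum _ fun j _ => hh.zero j
    simpa using this
  have hω0 : Tendsto ω atTop (𝓝 0) := by
    have h1 : Tendsto (fun T => K T * ((k : ℝ) ^ d * ∑ j, h j T ^ (d + 1))) atTop (𝓝 0) := by
      have h2 : Tendsto (fun T => (k : ℝ) ^ d * ∑ j, K T * h j T ^ (d + 1)) atTop (𝓝 ((k : ℝ) ^ d * ∑ _j : Fin k, (0 : ℝ))) :=
        (tendsto_finsetSum _ fun j _ => hK j).const_mul _
      rw [Finset.sum_const_zero, mul_zero] at h2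
      refine h2.congr fun T => ?_
      rw [← Finset.mul_sum]
      ring
    have h3 : Tendsto (fun T => M T * S T / T) atTop (𝓝 0) := by
      have h4 : Tendsto (fun T => ∑ j, M T * h j T / T) atTop (𝓝 (∑ _j : Fin k, (0 : ℝ))) :=
        tendsto_finsetSum _ fun j _ => hM j
      rw [Finset.sum_const_zero] at h4
      refine h4.congr fun T => ?_
      rw [hS, Finset.mul_sum, Finset.sum_div]
    have h5 := (hS0.add h1).add h3
    simpa using h5
  have hev : ∀ᶠ T : ℝ in atTop, (∀ j, 0 < h j T) ∧ 0 < T := (FINL.pos hh).and (eventually_gt_atTop 0)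
  have hSp : ∀ T, (∀ j, 0 < h j T) → 0 < S T := fun T hT => Finset.sum_pos (fun j _ => hT j) Finset.univ_nonempty
  have hkey : ∀ T, (∀ j, 0 < h j T) ∧ 0 < T → S T ≤ ω T ∧ K T * S T ^ (d + 1) ≤ ω T ∧ M T * S T / T ≤ ω T := by
    rintro T ⟨hT, hT0⟩
    have h1 := hSp T hT
    have h2 : 0 ≤ K T * ((k : ℝ) ^ d * ∑ j, h j T ^ (d + 1)) := by
      have : 0 ≤ ∑ j, h j T ^ (d + 1) := Finset.sum_nonneg fun j _ => by have := hT j; positivity
      have := hK0 T
      positivity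
    have h3 : 0 ≤ M T * S T / T := by
      have := hM0 T
      positivity
    have h4 : S T ^ (d + 1) ≤ (k : ℝ) ^ d * ∑ j, h j T ^ (d + 1) := by
      have h5 := pow_sum_le_card_mul_sum_pow (s := (Finset.univ : Finset (Fin k))) (f := fun j => h j T)
        (fun j _ => (hT j).le) d
      simpa using h5
    have h6 : K T * S T ^ (d + 1) ≤ K T * ((k : ℝ) ^ d * ∑ j, h j T ^ (d + 1)) :=
      mul_le_mul_of_nonneg_left h4 (hK0 T)
    simp only [hω]
    refine ⟨by linarith, by linarith, by linarith⟩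
  -- the root
  set q : ℝ → ℝ := fun T => (ω T) ^ (1 / (2 * (d + 1) : ℝ)) with hq
  have hq0 : Tendsto q atTop (𝓝 0) := by
    have h1 : Tendsto (fun x : ℝ => x ^ (1 / (2 * (d + 1) : ℝ))) (𝓝 0) (𝓝 (0 ^ (1 / (2 * (d + 1) : ℝ)))) :=
      (Real.continuousAt_rpow_const 0 _ (Or.inr (by positivity))).tendsto
    rw [Real.zero_rpow (by positivity)] at h1
    exact h1.comp hω0
  have hqp : ∀ T, (∀ j, 0 < h j T) ∧ 0 < T → 0 < q T ∧ q T ^ (2 * (d + 1)) = ω T := by
    intro T hT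
    have h1 : 0 < ω T := (hSp T hT.1).trans_le (hkey T hT).1
    refine ⟨Real.rpow_pos_of_pos h1 _, ?_⟩
    rw [hq]
    simp only
    rw [← Real.rpow_natCast, ← Real.rpow_mul h1.le]
    push_cast
    rw [one_div, inv_mul_cancel₀ (by positivity), Real.rpow_one]
  have hq1 : ∀ᶠ T : ℝ in atTop, q T < 1 := hq0.eventually (gt_mem_nhds one_pos)
  have hqd : ∀ δ : ℝ, 0 < δ → ∀ᶠ T : ℝ in atTop, q T < δ := fun δ hδ => hq0.eventually (gt_mem_nhds hδ)
  -- `ω / q ≤ q`
  have hωq : ∀ T, (∀ j, 0 < h j T) ∧ 0 < T → q T < 1 → ω T / q T ≤ q T ∧ ω T / q T ^ (d + 1) ≤ q T := by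
    intro T hT h1
    obtain ⟨h2, h3⟩ := hqp T hT
    constructor
    · rw [div_le_iff₀ h2, ← h3, ← pow_two]
      exact pow_le_pow_of_le_one h2.le h1.le (by omega)
    · rw [div_le_iff₀ (by positivity), ← h3, ← pow_succ']
      exact pow_le_pow_of_le_one h2.le h1.le (by omega)
  refine ⟨fun T => S T / q T, ?_, ?_, ?_, ?_, ?_⟩
  · filter_upwards [hev] with T hT
    exact div_pos (hSp T hT.1) (hqp T hT).1
  · refine tendsto_of_tendsto_of_tendsto_of_le_of_le' tendsto_const_nhds hq0 ?_ ?_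
    · filter_upwards [hev] with T hT
      exact (div_pos (hSp T hT.1) (hqp T hT).1).le
    · filter_upwards [hev, hq1] with T hT h1
      refine le_trans ?_ (hωq T hT h1).1
      exact div_le_div_of_nonneg_right (hkey T hT).1 (hqp T hT).1.le
  · intro R
    filter_upwards [hev, hqd (1 / (|R| + 1)) (by positivity)] with T hT h1 j
    have h2 := (hqp T hT).1
    have h3 : h j T ≤ S T := Finset.single_le_sum (f := fun j => h j T) (fun i _ => (hT.1 i).le) (Finset.mem_univ j)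
    rw [lt_div_iff₀ (by positivity)] at h1
    rw [le_div_iff₀ h2]
    have h4 := hT.1 j
    calc h j T * R * q T ≤ h j T * (|R| + 1) * q T := by
          have := le_abs_self R
          gcongr
          linarith
      _ = h j T * (q T * (|R| + 1)) := by ring
      _ ≤ h j T * 1 := by gcongr
      _ ≤ S T := by linarith
  · intro δ hδ
    filter_upwards [hev, hq1, hqd δ hδ] with T hT h1 h2
    rw [div_pow, mul_div_assoc']
    refine le_trans ?_ ((hωq T hT h1).2.trans h2.le)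
    have := (hqp T hT).1
    exact div_le_div_of_nonneg_right (hkey T hT).2.1 (by positivity)
  · intro δ hδ
    filter_upwards [hev, hq1, hqd δ hδ] with T hT h1 h2
    have h3 := (hqp T hT).1
    have h4 : M T * (S T / q T) = M T * S T / T / q T * T := by
      have := hT.2.ne'
      field_simp
    rw [h4]
    refine mul_le_mul_of_nonneg_right ?_ hT.2.le
    refine le_trans ?_ ((hωq T hT h1).1.trans h2.le)
    exact div_le_div_of_nonneg_right (hkey T hT).2.2 h3.le

end Pool.Agent.H493.DC
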