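import Pool.Agent.H493.MX.Sec

set_option autoImplicit false

/-! Shifts of admissible test functions. -/

open Complex Filter Topology Set MeasureTheory

namespace Pool.Agent.H493.DC

open Pool.Agent.H203.ME Pool.Agent.H203.ME.VARL

/-- the total variation quantity of `Adm` -/
noncomputable def tvq (F : ℝ → ℝ) : ℝ :=
  ∫ ξ in Ioi (0 : ℝ), (‖FF F ξ‖ ^ 2 + 2 * ξ * ‖FF F ξ‖ * ‖deriv (FF F) ξ‖)

lemma tvq_nonneg (F : ℝ → ℝ) : 0 ≤ tvq F := by
  refine setIntegral_nonneg measurableSet_Ioi fun ξ hξ => ?_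
  have : (0 : ℝ) < ξ := hξ
  positivity

/-- the shifted function -/
noncomputable def sh (F : ℝ → ℝ) (a : ℝ) : ℝ → ℝ := fun x => F (x - a)

/-- the phase of the shift -/
noncomputable def ph1 (a ξ : ℝ) : ℂ := cexp (-(((ξ * a : ℝ) : ℂ) * I))

lemma ph1_norm (a ξ : ℝ) : ‖ph1 a ξ‖ = 1 := nrm_exp _

lemma FF_shift (F : ℝ → ℝ) (a ξ : ℝ) : FF (sh F a) ξ = ph1 a ξ * FF F ξ := by
  unfold FF sh ph1
  rw [← integral_const_mul]
  rw [← integral_sub_right_eq_self (fun s : ℝ => cexp (-(((ξ * a : ℝ) : ℂ) * I)) *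
    ((F s : ℂ) * cexp (-(((ξ * s : ℝ) : ℂ) * I)))) a]
  congr 1
  funext s
  have : cexp (-(((ξ * s : ℝ) : ℂ) * I)) =
      cexp (-(((ξ * a : ℝ) : ℂ) * I)) * cexp (-(((ξ * (s - a) : ℝ) : ℂ) * I)) := by
    rw [← Complex.exp_add]
    congr 1
    push_cast
    ring
  rw [this]
  ring

lemma c2c_shift {F : ℝ → ℝ} (hF : C2c F) (h2 : ∀ x, 1 / 2 ≤ |x| → F x = 0) {a : ℝ} (ha : |a| ≤ 1 / 2) :
    C2c (sh F a) := by
  refine ⟨hF.cd.comp (contDiff_id.sub contDiff_const), fun x hx => h2 _ ?_⟩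
  have := abs_sub_abs_le_abs_sub x a
  linarith

lemma ph1_deriv (a ξ : ℝ) : HasDerivAt (ph1 a) (ph1 a ξ * (-((a : ℂ) * I))) ξ := by
  have h2 : HasDerivAt (fun ξ : ℝ => -(((ξ * a : ℝ) : ℂ) * I)) (-((a : ℂ) * I)) ξ := by
    have h3 : HasDerivAt (fun ξ : ℝ => ((ξ * a : ℝ) : ℂ)) (a : ℂ) ξ := by
      have := ((hasDerivAt_id ξ).mul_const a).ofReal_comp
      simpa using this
    exact (h3.mul_const I).neg
  exact h2.cexp

lemma FF_shift_fun (F : ℝ → ℝ) (a : ℝ) : FF (sh F a) = fun ξ => ph1 a ξ * FF F ξ :=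
  funext fun ξ => FF_shift F a ξ

lemma FF_diff {F : ℝ → ℝ} (hF : C2c F) (ξ : ℝ) : HasDerivAt (FF F) (deriv (FF F) ξ) ξ :=
  (FF_hasDerivAt hF ξ).differentiableAt.hasDerivAt

lemma dFF_shift {F : ℝ → ℝ} (hF : C2c F) (a ξ : ℝ) : deriv (FF (sh F a)) ξ =
    ph1 a ξ * (-((a : ℂ) * I)) * FF F ξ + ph1 a ξ * deriv (FF F) ξ := by
  rw [FF_shift_fun]
  exact ((ph1_deriv a ξ).mul (FF_diff hF ξ)).deriv

lemma dFF_shift_le {F : ℝ → ℝ} (hF : C2c F) (a ξ : ℝ) :
    ‖deriv (FF (sh F a)) ξ‖ ≤ |a| * ‖FF F ξ‖ + ‖deriv (FF F) ξ‖ := by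
  rw [dFF_shift hF]
  refine (norm_add_le _ _).trans (le_of_eq ?_)
  rw [norm_mul, norm_mul, norm_mul, ph1_norm, norm_neg, norm_mul, Complex.norm_I, Complex.norm_real,
    Real.norm_eq_abs]
  ring

lemma l1_shift (F : ℝ → ℝ) (a : ℝ) : ∫ x : ℝ, |sh F a x| = ∫ x : ℝ, |F x| :=
  integral_sub_right_eq_self (fun x => |F x|) a

lemma deriv_shift (F : ℝ → ℝ) (a : ℝ) : deriv (sh F a) = sh (deriv F) a := by
  funext x
  unfold sh
  exact deriv_comp_sub_const ..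

lemma l2_shift (F : ℝ → ℝ) (a : ℝ) :
    ∫ x : ℝ, |deriv (deriv (sh F a)) x| = ∫ x : ℝ, |deriv (deriv F) x| := by
  rw [deriv_shift, deriv_shift, l1_shift]

lemma ph_eq (F : ℝ → ℝ) (ξ : ℝ) : ph F ξ = ξ * ‖FF F ξ‖ ^ 2 := rfl

/-- shifts of admissible functions are admissible -/
theorem adm_shift {F : ℝ → ℝ} {η V L H : ℝ} (hL0 : 0 ≤ L) (hA : Adm η V L F) (h2 : ∀ x, 1 / 2 ≤ |x| → F x = 0)
    {a : ℝ} (haH : |a| ≤ H) (hH : H ≤ 1 / 2) : Adm (η + 2 * H * V) V L (sh F a) := by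
  have hF := hA.c2
  have hH0 : 0 ≤ H := (abs_nonneg a).trans haH
  have hV0 : 0 ≤ V := le_trans (setIntegral_nonneg measurableSet_Ioi fun ξ hξ => by
    have : (0 : ℝ) < ξ := hξ
    positivity) hA.va
  have hHV : 0 ≤ 2 * H * V := by positivity
  have hL : ∀ ξ, ‖FF (sh F a) ξ‖ = ‖FF F ξ‖ := fun ξ => by
    rw [FF_shift, norm_mul, ph1_norm, one_mul]
  have hη : 0 ≤ η := le_trans (integral_nonneg fun _ => abs_nonneg _) hA.l1
  refine ⟨c2c_shift hF h2 (haH.trans hH), ?_, ?_, ?_, ?_⟩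
  · rw [l1_shift]; linarith [hA.l1]
  · rw [l2_shift]
    refine hA.l2.trans ?_
    exact mul_le_mul_of_nonneg_right (by linarith) hL0
  · simp only [hL]; exact hA.va
  · have hi1 := tv_int hF
    have hi2 := ph_int hF
    have hle : ∀ ξ ∈ Ioi (0 : ℝ), ‖FF (sh F a) ξ‖ ^ 2 + 2 * ξ * ‖FF (sh F a) ξ‖ * ‖deriv (FF (sh F a)) ξ‖ ≤
        (‖FF F ξ‖ ^ 2 + 2 * ξ * ‖FF F ξ‖ * ‖deriv (FF F) ξ‖) + 2 * H * ph F ξ := by
      intro ξ hξ
      have hξ0 : (0 : ℝ) < ξ := hξ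
      have h3 := dFF_shift_le hF a ξ
      rw [hL, ph_eq]
      have h4 : 2 * ξ * ‖FF F ξ‖ * ‖deriv (FF (sh F a)) ξ‖ ≤
          2 * ξ * ‖FF F ξ‖ * (H * ‖FF F ξ‖ + ‖deriv (FF F) ξ‖) := by
        refine mul_le_mul_of_nonneg_left (h3.trans ?_) (by positivity)
        gcongr
      nlinarith
    have hi3 : IntegrableOn (fun ξ => (‖FF F ξ‖ ^ 2 + 2 * ξ * ‖FF F ξ‖ * ‖deriv (FF F) ξ‖) +
        2 * H * ph F ξ) (Ioi 0) := hi1.add (hi2.const_mul _)
    have hi4 := tv_int (c2c_shift hF h2 (haH.trans hH))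
    refine (setIntegral_mono_on hi4 hi3 measurableSet_Ioi hle).trans ?_
    rw [integral_add hi1 (hi2.const_mul _), integral_const_mul]
    have h5 : ∫ ξ in Ioi (0 : ℝ), ph F ξ ≤ V := hA.va
    have h6 := hA.tv
    have : 2 * H * ∫ ξ in Ioi (0 : ℝ), ph F ξ ≤ 2 * H * V := mul_le_mul_of_nonneg_left h5 (by positivity)
    linarith

/-- the difference of two shifts -/
noncomputable def dsh (F : ℝ → ℝ) (u v : ℝ) : ℝ → ℝ := fun x => sh F u x - sh F v x

lemma FF_sub {F G : ℝ → ℝ} (hF : C2c F) (hG : C2c G) (ξ : ℝ) :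
    FF (fun x => F x - G x) ξ = FF F ξ - FF G ξ := by
  unfold FF
  rw [← integral_sub (int_mul hF.cd.continuous (hcs hF.supp) _ (cont_e ξ))
    (int_mul hG.cd.continuous (hcs hG.supp) _ (cont_e ξ))]
  congr 1
  funext s
  push_cast
  ring

lemma c2c_sub {F G : ℝ → ℝ} (hF : C2c F) (hG : C2c G) : C2c (fun x => F x - G x) :=
  ⟨hF.cd.sub hG.cd, fun x hx => by rw [hF.supp x hx, hG.supp x hx, sub_zero]⟩

lemma FF_dsh {F : ℝ → ℝ} (hF : C2c F) (h2 : ∀ x, 1 / 2 ≤ |x| → F x = 0) {u v : ℝ} (hu : |u| ≤ 1 / 2)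
    (hv : |v| ≤ 1 / 2) (ξ : ℝ) : FF (dsh F u v) ξ = (ph1 u ξ - ph1 v ξ) * FF F ξ := by
  unfold dsh
  rw [FF_sub (c2c_shift hF h2 hu) (c2c_shift hF h2 hv), FF_shift, FF_shift]
  ring

lemma dFF_dsh_le {F : ℝ → ℝ} (hF : C2c F) (h2 : ∀ x, 1 / 2 ≤ |x| → F x = 0) {u v : ℝ} (hu : |u| ≤ 1 / 2)
    (hv : |v| ≤ 1 / 2) (ξ : ℝ) :
    ‖deriv (FF (dsh F u v)) ξ‖ ≤ (|u| + |v|) * ‖FF F ξ‖ + 2 * ‖deriv (FF F) ξ‖ := by
  have e : FF (dsh F u v) = fun ξ => FF (sh F u) ξ - FF (sh F v) ξ :=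
    funext fun ξ => FF_sub (c2c_shift hF h2 hu) (c2c_shift hF h2 hv) ξ
  have h3 := (FF_diff (c2c_shift hF h2 hu) ξ).sub (FF_diff (c2c_shift hF h2 hv) ξ)
  have h4 : deriv (FF (dsh F u v)) ξ = deriv (FF (sh F u)) ξ - deriv (FF (sh F v)) ξ := by
    rw [e]; exact h3.deriv
  rw [h4]
  refine (norm_sub_le _ _).trans ?_
  have := dFF_shift_le hF u ξ
  have := dFF_shift_le hF v ξ
  linarith

lemma ph1_sub_sq (u v ξ : ℝ) : ‖ph1 u ξ - ph1 v ξ‖ ^ 2 = 2 - 2 * Real.cos ((u - v) * ξ) := by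
  unfold ph1
  rw [← Complex.normSq_eq_norm_sq, Complex.normSq_apply]
  have e : ∀ x : ℝ, cexp (-((x : ℂ) * I)) = ((Real.cos x : ℝ) : ℂ) - ((Real.sin x : ℝ) : ℂ) * I := by
    intro x
    rw [show -((x : ℂ) * I) = ((-x : ℝ) : ℂ) * I by push_cast; ring, Complex.exp_mul_I,
      ← Complex.ofReal_cos, ← Complex.ofReal_sin, Real.cos_neg, Real.sin_neg]
    push_cast
    ring
  rw [e, e]
  simp only [Complex.sub_re, Complex.sub_im, Complex.ofReal_re, Complex.ofReal_im, Complex.mul_re,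
    Complex.mul_im, Complex.I_re, Complex.I_im]
  rw [show (u - v) * ξ = ξ * u - ξ * v by ring, Real.cos_sub]
  have h1 := Real.cos_sq_add_sin_sq (ξ * u)
  have h2 := Real.cos_sq_add_sin_sq (ξ * v)
  nlinarith

/-- differences of shifts of admissible functions are admissible -/
theorem adm_dsh {F : ℝ → ℝ} {η V L H : ℝ} (hL0 : 0 ≤ L) (hA : Adm η V L F)
    (h2 : ∀ x, 1 / 2 ≤ |x| → F x = 0) {u v : ℝ} (hu : |u| ≤ H) (hv : |v| ≤ H) (hH : H ≤ 1 / 2) :
    Adm (4 * η + 8 * H * V) (4 * V) L (dsh F u v) := by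
  have hF := hA.c2
  have hH0 : 0 ≤ H := (abs_nonneg u).trans hu
  have hu2 := hu.trans hH
  have hv2 := hv.trans hH
  have hV0 : 0 ≤ V := le_trans (setIntegral_nonneg measurableSet_Ioi fun ξ hξ => by
    have : (0 : ℝ) < ξ := hξ
    positivity) hA.va
  have hHV : 0 ≤ 8 * H * V := by positivity
  have hη : 0 ≤ η := le_trans (integral_nonneg fun _ => abs_nonneg _) hA.l1
  have hcu := c2c_shift hF h2 hu2
  have hcv := c2c_shift hF h2 hv2
  have hc : C2c (dsh F u v) := c2c_sub hcu hcv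
  have hL : ∀ ξ, ‖FF (dsh F u v) ξ‖ ≤ 2 * ‖FF F ξ‖ := fun ξ => by
    rw [FF_dsh hF h2 hu2 hv2, norm_mul]
    refine mul_le_mul_of_nonneg_right ?_ (norm_nonneg _)
    refine (norm_sub_le _ _).trans ?_
    rw [ph1_norm, ph1_norm]
    norm_num
  have hint : ∀ {G : ℝ → ℝ}, Continuous G → (∀ x, 1 ≤ |x| → G x = 0) → Integrable G := fun hG hG1 =>
    hG.integrable_of_hasCompactSupport (hcs hG1)
  refine ⟨hc, ?_, ?_, ?_, ?_⟩
  · have i1 : Integrable fun x => |sh F u x| := (hint hcu.cd.continuous hcu.supp).abs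
    have i2 : Integrable fun x => |sh F v x| := (hint hcv.cd.continuous hcv.supp).abs
    have h3 : ∫ x : ℝ, |dsh F u v x| ≤ ∫ x : ℝ, (|sh F u x| + |sh F v x|) := by
      refine integral_mono (hint hc.cd.continuous hc.supp).abs (i1.add i2) fun x => ?_
      exact abs_sub _ _
    rw [integral_add i1 i2, l1_shift, l1_shift] at h3
    linarith [hA.l1]
  · have hd : ∀ {G : ℝ → ℝ}, C2c G → Continuous (deriv (deriv G)) := by
      intro G hG
      have h2 : ContDiff ℝ 1 (deriv G) := by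
        have := hG.cd
        rw [show (2 : WithTop ℕ∞) = 1 + 1 by norm_num] at this
        exact (contDiff_succ_iff_deriv.1 this).2.2
      exact h2.continuous_deriv le_rfl
    have hds : ∀ {G : ℝ → ℝ}, C2c G → HasCompactSupport (deriv (deriv G)) := fun hG =>
      (hcs hG.supp).deriv.deriv
    have hdd : ∀ {G : ℝ → ℝ}, C2c G → Differentiable ℝ G ∧ Differentiable ℝ (deriv G) := by
      intro G hG
      have h1 : ContDiff ℝ 1 G := hG.cd.of_le (by norm_num)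
      have h2 : ContDiff ℝ 1 (deriv G) := by
        have := hG.cd
        rw [show (2 : WithTop ℕ∞) = 1 + 1 by norm_num] at this
        exact (contDiff_succ_iff_deriv.1 this).2.2
      exact ⟨h1.differentiable one_ne_zero, h2.differentiable one_ne_zero⟩
    have e : deriv (deriv (dsh F u v)) = fun x => deriv (deriv (sh F u)) x - deriv (deriv (sh F v)) x := by
      have e1 : deriv (dsh F u v) = fun x => deriv (sh F u) x - deriv (sh F v) x := by
        funext x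
        unfold dsh
        exact deriv_fun_sub ((hdd hcu).1 x) ((hdd hcv).1 x)
      rw [e1]
      funext x
      exact deriv_fun_sub ((hdd hcu).2 x) ((hdd hcv).2 x)
    have i1 : Integrable fun x => |deriv (deriv (sh F u)) x| :=
      ((hd hcu).integrable_of_hasCompactSupport (hds hcu)).abs
    have i2 : Integrable fun x => |deriv (deriv (sh F v)) x| :=
      ((hd hcv).integrable_of_hasCompactSupport (hds hcv)).abs
    have h3 : ∫ x : ℝ, |deriv (deriv (dsh F u v)) x| ≤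
        ∫ x : ℝ, (|deriv (deriv (sh F u)) x| + |deriv (deriv (sh F v)) x|) := by
      refine integral_mono ((hd hc).integrable_of_hasCompactSupport (hds hc)).abs (i1.add i2) fun x => ?_
      rw [e]
      exact abs_sub _ _
    rw [integral_add i1 i2, l2_shift, l2_shift] at h3
    have h4 := hA.l2
    have h5 : η * L ≥ 0 := by positivity
    have h6 : 0 ≤ 8 * H * V * L := by positivity
    nlinarith
  · have hi1 := ph_int hF
    have hi2 := ph_int hc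
    have h3 : ∫ ξ in Ioi (0 : ℝ), ph (dsh F u v) ξ ≤ ∫ ξ in Ioi (0 : ℝ), 4 * ph F ξ := by
      refine setIntegral_mono_on hi2 (hi1.const_mul 4) measurableSet_Ioi fun ξ hξ => ?_
      have hξ0 : (0 : ℝ) < ξ := hξ
      rw [ph_eq, ph_eq]
      have h4 := hL ξ
      have h5 : ‖FF (dsh F u v) ξ‖ ^ 2 ≤ (2 * ‖FF F ξ‖) ^ 2 := by gcongr
      nlinarith
    rw [integral_const_mul] at h3
    have h5 : ∫ ξ in Ioi (0 : ℝ), ph F ξ ≤ V := hA.va
    have h6 : ∫ ξ in Ioi (0 : ℝ), ph (dsh F u v) ξ = ∫ ξ in Ioi (0 : ℝ), ξ * ‖FF (dsh F u v) ξ‖ ^ 2 := rfl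
    rw [← h6]
    linarith
  · have hi1 := tv_int hF
    have hi2 := ph_int hF
    have hle : ∀ ξ ∈ Ioi (0 : ℝ), ‖FF (dsh F u v) ξ‖ ^ 2 +
        2 * ξ * ‖FF (dsh F u v) ξ‖ * ‖deriv (FF (dsh F u v)) ξ‖ ≤
        4 * (‖FF F ξ‖ ^ 2 + 2 * ξ * ‖FF F ξ‖ * ‖deriv (FF F) ξ‖) + 8 * H * ph F ξ := by
      intro ξ hξ
      have hξ0 : (0 : ℝ) < ξ := hξ
      have h3 := dFF_dsh_le hF h2 hu2 hv2 ξ
      rw [ph_eq]
      have h4 : ‖FF (dsh F u v) ξ‖ ^ 2 ≤ (2 * ‖FF F ξ‖) ^ 2 := by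
        have := hL ξ
        gcongr
      have h5 : 2 * ξ * ‖FF (dsh F u v) ξ‖ * ‖deriv (FF (dsh F u v)) ξ‖ ≤
          2 * ξ * (2 * ‖FF F ξ‖) * (2 * H * ‖FF F ξ‖ + 2 * ‖deriv (FF F) ξ‖) := by
        refine mul_le_mul (mul_le_mul_of_nonneg_left (hL ξ) (by positivity)) (h3.trans ?_) (norm_nonneg _)
          (by positivity)
        have : (|u| + |v|) * ‖FF F ξ‖ ≤ 2 * H * ‖FF F ξ‖ :=
          mul_le_mul_of_nonneg_right (by linarith) (norm_nonneg _)
        linarith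
      nlinarith
    have hi3 : IntegrableOn (fun ξ => 4 * (‖FF F ξ‖ ^ 2 + 2 * ξ * ‖FF F ξ‖ * ‖deriv (FF F) ξ‖) +
        8 * H * ph F ξ) (Ioi 0) := (hi1.const_mul 4).add (hi2.const_mul _)
    have hi4 := tv_int hc
    refine (setIntegral_mono_on hi4 hi3 measurableSet_Ioi hle).trans ?_
    rw [integral_add (hi1.const_mul 4) (hi2.const_mul _), integral_const_mul, integral_const_mul]
    have h5 : ∫ ξ in Ioi (0 : ℝ), ph F ξ ≤ V := hA.va
    have h6 := hA.tv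
    have : 8 * H * ∫ ξ in Ioi (0 : ℝ), ph F ξ ≤ 8 * H * V := mul_le_mul_of_nonneg_left h5 (by positivity)
    linarith

/-- the covariance at the shift `s` -/
noncomputable def cc (F : ℝ → ℝ) (s : ℝ) : ℝ :=
  1 / (2 * Real.pi ^ 2) * ∫ ξ in Ioi (0 : ℝ), ph F ξ * Real.cos (s * ξ)

lemma phcos_int {F : ℝ → ℝ} (hF : C2c F) (s : ℝ) :
    IntegrableOn (fun ξ => ph F ξ * Real.cos (s * ξ)) (Ioi 0) := by
  have h1 := (ph_int hF).bdd_mul (c := 1) (f := fun ξ => Real.cos (s * ξ))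
    (Continuous.aestronglyMeasurable (by fun_prop)) (by
      filter_upwards with ξ
      exact Real.abs_cos_le_one _)
  refine h1.congr ?_
  filter_upwards with ξ
  ring

lemma sg_dsh {F : ℝ → ℝ} (hF : C2c F) (h2 : ∀ x, 1 / 2 ≤ |x| → F x = 0) {u v : ℝ} (hu : |u| ≤ 1 / 2)
    (hv : |v| ≤ 1 / 2) : sg (dsh F u v) = 2 * sg F - 2 * cc F (u - v) := by
  unfold sg cc
  have e : ∀ ξ : ℝ, ξ * ‖FF (dsh F u v) ξ‖ ^ 2 = 2 * ph F ξ - 2 * (ph F ξ * Real.cos ((u - v) * ξ)) := by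
    intro ξ
    rw [FF_dsh hF h2 hu hv, norm_mul, mul_pow, ph1_sub_sq, ph_eq]
    ring
  simp only [e]
  rw [integral_sub ((ph_int hF).const_mul 2) ((phcos_int hF _).const_mul 2), integral_const_mul,
    integral_const_mul]
  have : (∫ ξ in Ioi (0 : ℝ), ξ * ‖FF F ξ‖ ^ 2) = ∫ ξ in Ioi (0 : ℝ), ph F ξ := rfl
  rw [this]
  ring

lemma cc_le_sg {F : ℝ → ℝ} (hF : C2c F) (s : ℝ) : cc F s ≤ sg F := by
  unfold sg cc
  refine mul_le_mul_of_nonneg_left ?_ (by positivity)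
  refine setIntegral_mono_on (phcos_int hF s) (ph_int hF) measurableSet_Ioi fun ξ hξ => ?_
  have hξ0 : (0 : ℝ) < ξ := hξ
  have h3 : 0 ≤ ph F ξ := by rw [ph_eq]; positivity
  exact mul_le_of_le_one_right h3 (Real.cos_le_one _)

lemma cc_decay {F : ℝ → ℝ} (hF : C2c F) {s : ℝ} (hs : s ≠ 0) : |cc F s| ≤ tvq F / |s| := by
  have h0 : (0 : ℝ) < |s| := abs_pos.2 hs
  have hd : ∀ x ∈ Ioi (0 : ℝ), HasDerivAt (ph F) (ph' F x) x := fun x _ => ph_deriv hF x
  have hv : ∀ x ∈ Ioi (0 : ℝ), HasDerivAt (fun ξ => Real.sin (s * ξ) / s) (Real.cos (s * x)) x := by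
    intro x _
    have h1 : HasDerivAt (fun ξ => s * ξ) s x := by simpa using (hasDerivAt_id x).const_mul s
    have h3 := (h1.sin).div_const s
    rwa [mul_div_assoc, div_self hs, mul_one] at h3
  have htv : IntegrableOn (ph' F) (Ioi 0) := by
    refine (tv_int hF).mono' (ph'_cont hF).aestronglyMeasurable ?_
    filter_upwards [ae_restrict_mem measurableSet_Ioi] with x hx
    have hx0 : (0 : ℝ) < x := hx
    exact ph'_le x hx0.le
  have hsin : ∀ x : ℝ, |Real.sin (s * x) / s| ≤ 1 / |s| := by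
    intro x
    rw [abs_div]
    gcongr
    exact Real.abs_sin_le_one _
  have hsc : Continuous fun ξ : ℝ => Real.sin (s * ξ) / s := by fun_prop
  have i2 : IntegrableOn (fun x => ph' F x * (Real.sin (s * x) / s)) (Ioi 0) := by
    have h1 := htv.bdd_mul (c := 1 / |s|) (f := fun ξ => Real.sin (s * ξ) / s)
      hsc.aestronglyMeasurable (by
        filter_upwards with ξ
        exact hsin ξ)
    refine h1.congr ?_
    filter_upwards with ξ
    ring
  have z0 : Tendsto ((ph F) * fun ξ => Real.sin (s * ξ) / s) (𝓝[>] 0) (𝓝 0) := by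
    have hc : Continuous ((ph F) * fun ξ => Real.sin (s * ξ) / s) := (ph_cont hF).mul hsc
    have := hc.tendsto 0
    simp only [Pi.mul_apply, mul_zero, Real.sin_zero, zero_div] at this
    exact this.mono_left nhdsWithin_le_nhds
  have z1 : Tendsto ((ph F) * fun ξ => Real.sin (s * ξ) / s) atTop (𝓝 0) := by
    have h1 : Tendsto (fun x : ℝ => (∫ x : ℝ, |deriv (deriv F) x|) ^ 2 * x ^ (-3 : ℝ) * (1 / |s|)) atTop
        (𝓝 0) := by
      have h3 := (tendsto_rpow_neg_atTop (y := 3) (by norm_num)).const_mul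
        ((∫ x : ℝ, |deriv (deriv F) x|) ^ 2)
      have h4 := h3.mul_const (1 / |s|)
      simpa using h4
    refine squeeze_zero_norm' ?_ h1
    filter_upwards [eventually_gt_atTop (0 : ℝ)] with x hx
    simp only [Pi.mul_apply]
    rw [norm_mul, Real.norm_eq_abs, Real.norm_eq_abs]
    have h5 : 0 ≤ ph F x := by rw [ph_eq]; positivity
    rw [abs_of_nonneg h5]
    exact mul_le_mul (ph_le hF x hx) (hsin x) (abs_nonneg _) (by positivity)
  have key := integral_Ioi_mul_deriv_eq_deriv_mul hd hv (phcos_int hF s) i2 z0 z1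
  have e1 : ∫ x in Ioi (0 : ℝ), ph F x * Real.cos (s * x) =
      - ∫ x in Ioi (0 : ℝ), ph' F x * (Real.sin (s * x) / s) := by
    rw [key]; ring
  have b1 : |∫ x in Ioi (0 : ℝ), ph F x * Real.cos (s * x)| ≤ tvq F / |s| := by
    rw [e1, abs_neg, ← Real.norm_eq_abs]
    refine (norm_integral_le_integral_norm _).trans ?_
    have : tvq F / |s| = ∫ ξ in Ioi (0 : ℝ),
        (‖FF F ξ‖ ^ 2 + 2 * ξ * ‖FF F ξ‖ * ‖deriv (FF F) ξ‖) * (1 / |s|) := by
      unfold tvq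
      rw [integral_mul_const]
      ring
    rw [this]
    refine setIntegral_mono_on i2.norm ((tv_int hF).mul_const _) measurableSet_Ioi fun x hx => ?_
    have hx0 : (0 : ℝ) < x := hx
    rw [norm_mul, Real.norm_eq_abs, Real.norm_eq_abs]
    exact mul_le_mul (ph'_le x hx0.le) (hsin x) (abs_nonneg _) (by positivity)
  unfold cc
  rw [abs_mul, abs_of_nonneg (by positivity : (0 : ℝ) ≤ 1 / (2 * Real.pi ^ 2))]
  have hpi : 1 / (2 * Real.pi ^ 2) ≤ 1 := by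
    rw [div_le_one (by positivity)]
    nlinarith [Real.pi_gt_three]
  calc 1 / (2 * Real.pi ^ 2) * |∫ x in Ioi (0 : ℝ), ph F x * Real.cos (s * x)| ≤
      1 * (tvq F / |s|) := by
        refine mul_le_mul hpi b1 (abs_nonneg _) zero_le_one
    _ = _ := one_mul _

/-- shifting the statistic -/
lemma XF_shift (F : ℝ → ℝ) (T t u : ℝ) : XF (sh F u) T t = XF F T (t + u) := by
  unfold XF sh
  rw [integral_sub_right_eq_self F u]
  congr 1
  refine finsum_congr fun s => ?_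
  refine finsum_congr fun _ => ?_
  rw [show s.im - t - u = s.im - (t + u) by ring]

lemma XF_dsh {F : ℝ → ℝ} (hF : C2c F) (h2 : ∀ x, 1 / 2 ≤ |x| → F x = 0) {u v : ℝ} (hu : |u| ≤ 1 / 2)
    (hv : |v| ≤ 1 / 2) {T t : ℝ} (hT : 3 ≤ T) (h1 : T ≤ t) (h3 : t ≤ 2 * T) :
    XF (dsh F u v) T t = XF F T (t + u) - XF F T (t + v) := by
  have h4 := FINL.XF_lin (F := ![sh F u, sh F v]) (fun j => by
    fin_cases j
    · exact c2c_shift hF h2 hu
    · exact c2c_shift hF h2 hv) ![1, -1] hT h1 h3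
  simp only [Fin.sum_univ_two, Matrix.cons_val_zero, Matrix.cons_val_one, one_mul, neg_mul] at h4
  rw [XF_shift, XF_shift] at h4
  rw [show dsh F u v = fun x => sh F u x + -sh F v x from funext fun x => sub_eq_add_neg _ _, h4]
  ring

end Pool.Agent.H493.DC
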