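import Pool.Agent.H493.DC.Quench

set_option autoImplicit false

/-! Van der Corput's inequality with several bad shifts, and averaging over shifts. -/

open Complex Filter Topology Set MeasureTheory

namespace Pool.Agent.H493.DC

/-- mean square of short averages, several bad shifts -/
theorem vdc_gen {κ : Type} [Fintype κ] {b : κ → ℝ} {G : ℝ → ℂ} (hG : Measurable G) {C : ℝ} (hb : ∀ x, ‖G x‖ ≤ C)
    {T H c₁ c₂ r : ℝ} (hT : 0 ≤ T) (hH : 0 ≤ H) (hr : 0 ≤ r) (h2 : 0 ≤ c₂)
    (hP : ∀ u ∈ Ioc 0 H, ∀ v ∈ Ioc 0 H,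
      ‖∫ t in T..(2 * T), G (t + u) * (starRingEnd ℂ) (G (t + v))‖ ≤
        c₁ + ∑ i, (Icc (u + b i - r) (u + b i + r)).indicator (fun _ => c₂) v) :
    ∫ t in T..(2 * T), ‖∫ u in (0 : ℝ)..H, G (t + u)‖ ^ 2 ≤ H * (c₁ * H + Fintype.card κ * (2 * r * c₂)) := by
  have hC0 : 0 ≤ C := (norm_nonneg _).trans (hb 0)
  have hTT : T ≤ 2 * T := by linarith
  set μ : Measure ℝ := volume.restrict (Ioc T (2 * T)) with hμ
  set ν : Measure ℝ := volume.restrict (Ioc 0 H) with hν
  have : IsFiniteMeasure μ := ⟨by rw [hμ, Measure.restrict_apply_univ]; exact measure_Ioc_lt_top⟩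
  have : IsFiniteMeasure ν := ⟨by rw [hν, Measure.restrict_apply_univ]; exact measure_Ioc_lt_top⟩
  set A : ℝ → ℂ := fun t => ∫ u, G (t + u) ∂ν with hA
  have hGm : Measurable fun p : ℝ × ℝ => G (p.1 + p.2) := hG.comp (measurable_fst.add measurable_snd)
  have hAm : Measurable A := (hGm.stronglyMeasurable.integral_prod_right (ν := ν)).measurable
  have hνr : ν.real univ = H := by
    rw [hν, measureReal_restrict_apply_univ, Real.volume_real_Ioc_of_le hH, sub_zero]
  have hAb : ∀ t, ‖A t‖ ≤ C * H := by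
    intro t
    have := norm_integral_le_of_norm_le_const (μ := ν) (f := fun u => G (t + u)) (C := C)
      (Eventually.of_forall fun u => hb _)
    rwa [hνr] at this
  have e0 : ∀ t, (∫ u in (0 : ℝ)..H, G (t + u)) = A t := fun t => intervalIntegral.integral_of_le hH
  simp only [e0]
  rw [intervalIntegral.integral_of_le hTT]
  change ∫ t, ‖A t‖ ^ 2 ∂μ ≤ _
  have e1 : ((∫ t, ‖A t‖ ^ 2 ∂μ : ℝ) : ℂ) = ∫ t, A t * (starRingEnd ℂ) (A t) ∂μ := by
    have e : (∫ t, A t * (starRingEnd ℂ) (A t) ∂μ) = ∫ t, ((‖A t‖ ^ 2 : ℝ) : ℂ) ∂μ := by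
      congr 1
      funext t
      rw [Complex.mul_conj, Complex.normSq_eq_norm_sq]
    rw [e]
    exact integral_ofReal.symm
  have e2 : (∫ t, A t * (starRingEnd ℂ) (A t) ∂μ) = ∫ u, ∫ t, G (t + u) * (starRingEnd ℂ) (A t) ∂μ ∂ν := by
    rw [← integral_integral_swap]
    · congr 1
      funext t
      rw [hA]
      exact (integral_mul_const _ _).symm
    · refine bdd_int (C := C * (C * H)) (hGm.mul (by fun_prop)) fun p => ?_
      simp only [Function.uncurry]
      rw [norm_mul, RCLike.norm_conj]
      exact mul_le_mul (hb _) (hAb _) (norm_nonneg _) hC0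
  have e3 : ∀ u, (∫ t, G (t + u) * (starRingEnd ℂ) (A t) ∂μ) =
      ∫ v, ∫ t, G (t + u) * (starRingEnd ℂ) (G (t + v)) ∂μ ∂ν := by
    intro u
    rw [← integral_integral_swap]
    · congr 1
      funext t
      rw [integral_const_mul, integral_conj]
    · refine bdd_int (C := C * C) ?_ fun p => ?_
      · have m1 : Measurable fun p : ℝ × ℝ => G (p.1 + u) := hG.comp (measurable_fst.add_const u)
        have m2 : Measurable fun p : ℝ × ℝ => (starRingEnd ℂ) (G (p.1 + p.2)) := by fun_prop
        exact m1.mul m2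
      · simp only [Function.uncurry]
        rw [norm_mul, RCLike.norm_conj]
        exact mul_le_mul (hb _) (hb _) (norm_nonneg _) hC0
  have hT1 : ∀ u v, (∫ t, G (t + u) * (starRingEnd ℂ) (G (t + v)) ∂μ) =
      ∫ t in T..(2 * T), G (t + u) * (starRingEnd ℂ) (G (t + v)) := fun u v =>
    (intervalIntegral.integral_of_le hTT).symm
  have b1 : ∀ u ∈ Ioc 0 H, ‖∫ v, ∫ t, G (t + u) * (starRingEnd ℂ) (G (t + v)) ∂μ ∂ν‖ ≤
      c₁ * H + Fintype.card κ * (2 * r * c₂) := by
    intro u hu
    have hi1 : Integrable (fun _ : ℝ => c₁) ν := integrable_const _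
    have hi2 : ∀ i ∈ (Finset.univ : Finset κ), Integrable ((Icc (u + b i - r) (u + b i + r)).indicator (fun _ : ℝ => c₂)) ν :=
      fun i _ => (integrable_const c₂).indicator measurableSet_Icc
    have hi3 : Integrable (fun v => ∑ i, (Icc (u + b i - r) (u + b i + r)).indicator (fun _ : ℝ => c₂) v) ν :=
      integrable_finsetSum _ hi2
    refine (norm_integral_le_of_norm_le (hi1.add hi3) ?_).trans ?_
    · rw [hν]
      filter_upwards [ae_restrict_mem measurableSet_Ioc] with v hv
      rw [hT1]
      exact hP u hu v hv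
    · rw [integral_add' hi1 hi3, integral_const, hνr, smul_eq_mul, mul_comm H, integral_finsetSum _ hi2]
      refine add_le_add le_rfl ?_
      have h3 : ∀ i ∈ (Finset.univ : Finset κ), (∫ v, (Icc (u + b i - r) (u + b i + r)).indicator (fun _ : ℝ => c₂) v ∂ν) ≤
          2 * r * c₂ := by
        intro i _
        rw [integral_indicator measurableSet_Icc, setIntegral_const, smul_eq_mul]
        have : ν.real (Icc (u + b i - r) (u + b i + r)) ≤ 2 * r := by
          have h3 : ν.real (Icc (u + b i - r) (u + b i + r)) ≤ volume.real (Icc (u + b i - r) (u + b i + r)) := by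
            rw [hν]
            refine ENNReal.toReal_mono measure_Icc_lt_top.ne (Measure.restrict_apply_le _ _)
          rw [Real.volume_real_Icc_of_le (by linarith)] at h3
          linarith
        exact mul_le_mul_of_nonneg_right this h2
      refine (Finset.sum_le_sum h3).trans (le_of_eq ?_)
      rw [Finset.sum_const, nsmul_eq_mul, Finset.card_univ]
  have e4 : ((∫ t, ‖A t‖ ^ 2 ∂μ : ℝ) : ℂ) =
      ∫ u, ∫ v, ∫ t, G (t + u) * (starRingEnd ℂ) (G (t + v)) ∂μ ∂ν ∂ν := by
    rw [e1, e2]
    congr 1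
    funext u
    exact e3 u
  have b2 : ‖((∫ t, ‖A t‖ ^ 2 ∂μ : ℝ) : ℂ)‖ ≤ (c₁ * H + Fintype.card κ * (2 * r * c₂)) * H := by
    rw [e4]
    have := norm_integral_le_of_norm_le_const (μ := ν)
      (f := fun u => ∫ v, ∫ t, G (t + u) * (starRingEnd ℂ) (G (t + v)) ∂μ ∂ν)
      (C := c₁ * H + Fintype.card κ * (2 * r * c₂)) (by
        rw [hν]
        filter_upwards [ae_restrict_mem measurableSet_Ioc] with u hu
        exact b1 u hu)
    rwa [hνr] at this
  rw [Complex.norm_real, Real.norm_eq_abs] at b2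
  linarith [le_abs_self (∫ t, ‖A t‖ ^ 2 ∂μ)]

/-- averaging over shifts -/
theorem shift_avg {G : ℝ → ℂ} (hG : Measurable G) {C : ℝ} (hb : ∀ x, ‖G x‖ ≤ C) {T H e : ℝ} (hT : 0 ≤ T)
    (hH : 0 < H) (he : 0 < e)
    (hP : ∫ t in T..(2 * T), ‖∫ u in (0 : ℝ)..H, G (t + u)‖ ^ 2 ≤ e ^ 2 * H ^ 2 * T) :
    ‖∫ t in T..(2 * T), G t‖ ≤ e * T + 2 * C * H := by
  have hC0 : 0 ≤ C := (norm_nonneg _).trans (hb 0)
  have hTT : T ≤ 2 * T := by linarith
  set μ : Measure ℝ := volume.restrict (Ioc T (2 * T)) with hμ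
  set ν : Measure ℝ := volume.restrict (Ioc 0 H) with hν
  have : IsFiniteMeasure μ := ⟨by rw [hμ, Measure.restrict_apply_univ]; exact measure_Ioc_lt_top⟩
  have : IsFiniteMeasure ν := ⟨by rw [hν, Measure.restrict_apply_univ]; exact measure_Ioc_lt_top⟩
  have hGi : ∀ a b : ℝ, IntervalIntegrable G volume a b := by
    intro a b
    constructor <;>
    · refine Integrable.of_bound (C := C) hG.aestronglyMeasurable (Eventually.of_forall hb)
  set A : ℝ → ℂ := fun t => ∫ u in (0 : ℝ)..H, G (t + u) with hA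
  have hGm : Measurable fun p : ℝ × ℝ => G (p.1 + p.2) := hG.comp (measurable_fst.add measurable_snd)
  have hA' : A = fun t => ∫ u, G (t + u) ∂ν := by
    funext t
    exact intervalIntegral.integral_of_le hH.le
  have hAm : Measurable A := by
    rw [hA']
    exact (hGm.stronglyMeasurable.integral_prod_right (ν := ν)).measurable
  have hAb : ∀ t, ‖A t‖ ≤ C * H := by
    intro t
    have := intervalIntegral.norm_integral_le_of_norm_le_const (a := 0) (b := H) (f := fun u => G (t + u)) (C := C)
      (fun u _ => hb _)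
    rwa [sub_zero, abs_of_pos hH] at this
  -- mean of the norm
  have b1 : ∫ t in T..(2 * T), ‖A t‖ ≤ e * H * T := by
    have hle : ∀ t, ‖A t‖ ≤ e * H / 2 + ‖A t‖ ^ 2 / (2 * (e * H)) := by
      intro t
      have h0 : 0 < e * H := by positivity
      have h1 : 0 ≤ (e * H - ‖A t‖) ^ 2 / (2 * (e * H)) := by positivity
      have h2 : (e * H - ‖A t‖) ^ 2 / (2 * (e * H)) = e * H / 2 + ‖A t‖ ^ 2 / (2 * (e * H)) - ‖A t‖ := by
        field_simp
        ring
      linarith
    have i1 : IntervalIntegrable (fun t => ‖A t‖) volume T (2 * T) := by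
      constructor <;>
      · refine Integrable.of_bound (C := C * H) hAm.norm.aestronglyMeasurable (Eventually.of_forall fun t => ?_)
        rw [norm_norm]
        exact hAb t
    have i2 : IntervalIntegrable (fun t => ‖A t‖ ^ 2) volume T (2 * T) := by
      constructor <;>
      · refine Integrable.of_bound (C := (C * H) ^ 2) (hAm.norm.pow_const 2).aestronglyMeasurable (Eventually.of_forall fun t => ?_)
        rw [Real.norm_of_nonneg (by positivity)]
        exact pow_le_pow_left₀ (norm_nonneg _) (hAb t) 2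
    have h3 : ∫ t in T..(2 * T), ‖A t‖ ≤ ∫ t in T..(2 * T), (e * H / 2 + ‖A t‖ ^ 2 / (2 * (e * H))) :=
      intervalIntegral.integral_mono_on hTT i1 (intervalIntegrable_const.add (i2.div_const _)) fun t _ => hle t
    rw [intervalIntegral.integral_add intervalIntegrable_const (i2.div_const _), intervalIntegral.integral_const,
      intervalIntegral.integral_div, smul_eq_mul] at h3
    have h4 : (∫ t in T..(2 * T), ‖A t‖ ^ 2) / (2 * (e * H)) ≤ e ^ 2 * H ^ 2 * T / (2 * (e * H)) := by
      gcongr
    have h5 : e ^ 2 * H ^ 2 * T / (2 * (e * H)) = e * H * T / 2 := by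
      field_simp
    linarith
  -- exchange
  have e2 : (∫ t in T..(2 * T), A t) = ∫ u in (0 : ℝ)..H, ∫ t in T..(2 * T), G (t + u) := by
    rw [intervalIntegral.integral_of_le hTT, intervalIntegral.integral_of_le hH.le]
    simp only [hA', intervalIntegral.integral_of_le hTT]
    exact integral_integral_swap (bdd_int (C := C) hGm fun p => hb _)
  have b2 : ‖∫ t in T..(2 * T), A t‖ ≤ e * H * T :=
    (intervalIntegral.norm_integral_le_integral_norm hTT).trans b1
  have b3 : ∀ u ∈ Ioc 0 H, ‖(∫ t in T..(2 * T), G (t + u)) - ∫ t in T..(2 * T), G t‖ ≤ 2 * C * H := by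
    intro u hu
    rw [intervalIntegral.integral_comp_add_right (fun t => G t) u]
    have h1 : (∫ t in (T + u)..(2 * T + u), G t) - ∫ t in T..(2 * T), G t =
        (∫ t in (2 * T)..(2 * T + u), G t) - ∫ t in T..(T + u), G t := by
      have h2 := intervalIntegral.integral_add_adjacent_intervals (hGi T (T + u)) (hGi (T + u) (2 * T + u))
      have h3 := intervalIntegral.integral_add_adjacent_intervals (hGi T (2 * T)) (hGi (2 * T) (2 * T + u))
      rw [← h3] at h2
      linear_combination h2
    rw [h1]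
    refine (norm_sub_le _ _).trans ?_
    have h4 := intervalIntegral.norm_integral_le_of_norm_le_const (a := 2 * T) (b := 2 * T + u) (f := G) (C := C)
      (fun t _ => hb t)
    have h5 := intervalIntegral.norm_integral_le_of_norm_le_const (a := T) (b := T + u) (f := G) (C := C)
      (fun t _ => hb t)
    rw [add_sub_cancel_left, abs_of_pos hu.1] at h4 h5
    have h6 : C * u ≤ C * H := mul_le_mul_of_nonneg_left hu.2 hC0
    linarith
  have i3 : IntervalIntegrable (fun u => ∫ t in T..(2 * T), G (t + u)) volume 0 H := by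
    have hm : Measurable fun u => ∫ t in T..(2 * T), G (t + u) := by
      simp only [intervalIntegral.integral_of_le hTT]
      have : Measurable fun p : ℝ × ℝ => G (p.2 + p.1) := hG.comp (measurable_snd.add measurable_fst)
      exact (this.stronglyMeasurable.integral_prod_right (ν := μ)).measurable
    constructor <;>
    · refine Integrable.of_bound (C := C * |2 * T - T|) hm.aestronglyMeasurable (Eventually.of_forall fun u => ?_)
      exact intervalIntegral.norm_integral_le_of_norm_le_const fun t _ => hb _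
  have e3 : (H : ℂ) * (∫ t in T..(2 * T), G t) = (∫ t in T..(2 * T), A t) -
      ∫ u in (0 : ℝ)..H, ((∫ t in T..(2 * T), G (t + u)) - ∫ t in T..(2 * T), G t) := by
    rw [intervalIntegral.integral_sub i3 intervalIntegrable_const, intervalIntegral.integral_const, e2]
    rw [sub_sub_cancel, sub_zero, Complex.real_smul]
  have b4 : ‖∫ u in (0 : ℝ)..H, ((∫ t in T..(2 * T), G (t + u)) - ∫ t in T..(2 * T), G t)‖ ≤ 2 * C * H * H := by
    have := intervalIntegral.norm_integral_le_of_norm_le_const (a := 0) (b := H)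
      (f := fun u => (∫ t in T..(2 * T), G (t + u)) - ∫ t in T..(2 * T), G t) (C := 2 * C * H) (fun u hu => by
        rw [uIoc_of_le hH.le] at hu
        exact b3 u hu)
    rwa [sub_zero, abs_of_pos hH] at this
  have b5 : H * ‖∫ t in T..(2 * T), G t‖ ≤ H * (e * T + 2 * C * H) := by
    have : ‖(H : ℂ) * (∫ t in T..(2 * T), G t)‖ = H * ‖∫ t in T..(2 * T), G t‖ := by
      rw [norm_mul, Complex.norm_real, Real.norm_of_nonneg hH.le]
    rw [← this, e3]
    refine (norm_sub_le _ _).trans ?_
    calc _ ≤ e * H * T + 2 * C * H * H := add_le_add b2 b4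
      _ = _ := by ring
  exact le_of_mul_le_mul_left b5 hH

end Pool.Agent.H493.DC
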